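import Mathlib

/-!
# A stepping-up colouring of quadruples with four colours

The quadruples of `{0, ..., 2 ^ (2 ^ M) - 1}` are coloured with four colours.  Colours `0`, `1`
(monotone sequences of top differing bits, coloured by a colouring of triples of
`{0, ..., 2 ^ M - 1}`) have no clique with more than `M + 2` vertices, colour `2` (local maxima)
has no clique with five vertices, and every five-set has a quadruple which does not have
colour `3` (local minima).
-/

set_option autoImplicit false

namespace Pool.Agent.V11142.StepUp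

open Finset

/-- The highest binary digit in which `x` and `y` differ. -/
def dl (x y : ℕ) : ℕ := Nat.log2 (x ^^^ y)

theorem dl_spec {x y : ℕ} (h : x < y) :
    x.testBit (dl x y) = false ∧ y.testBit (dl x y) = true := by
  have hne : x ^^^ y ≠ 0 := by
    intro h0
    exact h.ne (Nat.xor_eq_zero_iff.1 h0)
  have h1 : (x ^^^ y).testBit (dl x y) = true := Nat.testBit_log2 hne
  have h2 : ∀ j, dl x y < j → x.testBit j = y.testBit j := by
    intro j hj
    have h3 : (x ^^^ y).testBit j = false := by
      apply Nat.testBit_eq_false_of_lt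
      exact (Nat.log2_lt hne).1 hj
    rw [Nat.testBit_xor] at h3
    revert h3
    cases x.testBit j <;> cases y.testBit j <;> simp
  rw [Nat.testBit_xor] at h1
  cases hx : x.testBit (dl x y) with
  | false =>
    rw [hx] at h1
    refine ⟨rfl, ?_⟩
    simpa using h1
  | true =>
    exfalso
    rw [hx] at h1
    have hy : y.testBit (dl x y) = false := by simpa using h1
    have := Nat.lt_of_testBit (dl x y) hy hx (fun j hj => (h2 j hj).symm)
    omega

theorem dl_ne {x y z : ℕ} (h : x < y) (h' : y < z) : dl x y ≠ dl y z := by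
  intro he
  have h1 := (dl_spec h).2
  have h2 := (dl_spec h').1
  rw [he] at h1
  rw [h1] at h2
  cases h2

theorem dl_lt {x y N : ℕ} (h : x < y) (hy : y < 2 ^ N) : dl x y < N := by
  have hne : x ^^^ y ≠ 0 := by
    intro h0
    exact h.ne (Nat.xor_eq_zero_iff.1 h0)
  have h1 : x ^^^ y < 2 ^ N := Nat.xor_lt_two_pow (h.trans hy) hy
  exact (Nat.log2_lt hne).2 h1

/-- The colour of a triple of sorted numbers `a < b < c`: `0` if `dl a b > dl b c`, otherwise
`1`. -/
def c3 (a b c : ℕ) : Fin 4 := if dl b c < dl a b then 0 else 1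

/-- The colour of a sorted quadruple. -/
def c4 (x y z t : ℕ) : Fin 4 :=
  if dl x y < dl y z then
    if dl y z < dl z t then c3 (dl x y) (dl y z) (dl z t) else 2
  else
    if dl y z < dl z t then 3 else c3 (dl z t) (dl y z) (dl x y)

theorem c3_cases (a b c : ℕ) : c3 a b c = 0 ∨ c3 a b c = 1 := by
  unfold c3; split_ifs <;> simp

/-- Two consecutive quadruples of a five-set do not both have colour `2`. -/
theorem two_two {x y z t u : ℕ} (h1 : c4 x y z t = 2) (h2 : c4 y z t u = 2) : False := by
  unfold c4 at h1 h2
  split_ifs at h1 h2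
  all_goals grind [c3_cases]

/-- Two consecutive quadruples of a five-set do not both have colour `3`. -/
theorem three_three {x y z t u : ℕ} (h1 : c4 x y z t = 3) (h2 : c4 y z t u = 3) : False := by
  unfold c4 at h1 h2
  split_ifs at h1 h2
  all_goals grind [c3_cases]

theorem inc_len {e : ℕ → ℕ} {m M : ℕ} (hM : ∀ i, i < m → e i < M)
    (h : ∀ i, i + 1 < m → e i < e (i + 1)) : m ≤ M := by
  rcases Nat.eq_zero_or_pos m with h0 | h0
  · omega
  have : ∀ i, i < m → i ≤ e i := by
    intro i
    induction i with
    | zero => intro _; omega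
    | succ i ih =>
      intro hi
      have h1 := ih (by omega)
      have h2 := h i hi
      omega
  have h1 := this (m - 1) (by omega)
  have h2 := hM (m - 1) (by omega)
  omega

theorem dec_len {e : ℕ → ℕ} {m M : ℕ} (hM : ∀ i, i < m → e i < M)
    (h : ∀ i, i + 1 < m → e (i + 1) < e i) : m ≤ M := by
  rcases Nat.eq_zero_or_pos m with h0 | h0
  · omega
  have : ∀ i, i < m → i + e i ≤ e 0 := by
    intro i
    induction i with
    | zero => intro _; omega
    | succ i ih =>
      intro hi
      have h1 := ih (by omega)
      have h2 := h i hi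
      omega
  have h1 := this (m - 1) (by omega)
  have h2 := hM 0 (by omega)
  omega

theorem lt_of_c3_zero {a b c : ℕ} (h : c3 a b c = 0) : dl b c < dl a b := by
  unfold c3 at h
  split_ifs at h with g
  · exact g
  · exact absurd h (by decide)

theorem le_of_c3_one {a b c : ℕ} (h : c3 a b c = 1) : dl a b ≤ dl b c := by
  unfold c3 at h
  split_ifs at h with g
  · exact absurd h (by decide)
  · exact Nat.le_of_not_lt g

/-- The sequence of the top differing digits. -/
theorem len_aux {D : ℕ → ℕ} {L M : ℕ} {c : Fin 4} (hc : c = 0 ∨ c = 1) (hL : 2 ≤ L)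
    (hd : ∀ i, i < L → D i < 2 ^ M) (h0 : D 0 ≠ D 1)
    (key : ∀ i, i + 2 < L →
      (D i < D (i + 1) ∧ D (i + 1) < D (i + 2) ∧ c3 (D i) (D (i + 1)) (D (i + 2)) = c) ∨
      (D (i + 1) < D i ∧ D (i + 2) < D (i + 1) ∧ c3 (D (i + 2)) (D (i + 1)) (D i) = c)) :
    L ≤ M + 1 := by
  by_cases h1 : D 0 < D 1
  · have hinc : ∀ i, i + 1 < L → D i < D (i + 1) := by
      intro i
      induction i with
      | zero => intro _; exact h1
      | succ i ih =>
        intro hi
        have h1 := ih (by omega)
        rcases key i (by omega) with h2 | h2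
        · exact h2.2.1
        · omega
    have he : ∀ i, i < L - 1 → dl (D i) (D (i + 1)) < M :=
      fun i hi => dl_lt (hinc i (by omega)) (hd (i + 1) (by omega))
    have hne : ∀ i, i + 2 < L → dl (D i) (D (i + 1)) ≠ dl (D (i + 1)) (D (i + 2)) :=
      fun i hi => dl_ne (hinc i (by omega)) (hinc (i + 1) (by omega))
    have hcol : ∀ i, i + 2 < L → c3 (D i) (D (i + 1)) (D (i + 2)) = c := by
      intro i hi
      rcases key i hi with h2 | h2
      · exact h2.2.2
      · have := hinc i (by omega)
        omega
    rcases hc with rfl | rfl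
    · have := dec_len (e := fun i => dl (D i) (D (i + 1))) he
        (fun i hi => lt_of_c3_zero (hcol i (by omega)))
      omega
    · have := inc_len (e := fun i => dl (D i) (D (i + 1))) he
        (fun i hi => lt_of_le_of_ne (le_of_c3_one (hcol i (by omega))) (hne i (by omega)))
      omega
  · have hdec : ∀ i, i + 1 < L → D (i + 1) < D i := by
      intro i
      induction i with
      | zero => intro _; show D 1 < D 0; omega
      | succ i ih =>
        intro hi
        have h1 := ih (by omega)
        rcases key i (by omega) with h2 | h2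
        · omega
        · exact h2.2.1
    have he : ∀ i, i < L - 1 → dl (D (i + 1)) (D i) < M :=
      fun i hi => dl_lt (hdec i (by omega)) (hd i (by omega))
    have hne : ∀ i, i + 2 < L → dl (D (i + 2)) (D (i + 1)) ≠ dl (D (i + 1)) (D i) :=
      fun i hi => dl_ne (hdec (i + 1) (by omega)) (hdec i (by omega))
    have hcol : ∀ i, i + 2 < L → c3 (D (i + 2)) (D (i + 1)) (D i) = c := by
      intro i hi
      rcases key i hi with h2 | h2
      · have := hdec i (by omega)
        omega
      · exact h2.2.2
    rcases hc with rfl | rfl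
    · have := inc_len (e := fun i => dl (D (i + 1)) (D i)) he
        (fun i hi => lt_of_c3_zero (hcol i (by omega)))
      omega
    · have := dec_len (e := fun i => dl (D (i + 1)) (D i)) he
        (fun i hi => lt_of_le_of_ne (le_of_c3_one (hcol i (by omega))) (hne i (by omega)))
      omega

/-- A monochromatic path in colour `0` or `1` has at most `M + 2` vertices. -/
theorem len_le {s : ℕ → ℕ} {l M : ℕ} {c : Fin 4} (hc : c = 0 ∨ c = 1) (hM : 1 ≤ M)
    (hs : ∀ i, i + 1 < l → s i < s (i + 1)) (hN : ∀ i, i < l → s i < 2 ^ (2 ^ M))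
    (h : ∀ i, i + 3 < l → c4 (s i) (s (i + 1)) (s (i + 2)) (s (i + 3)) = c) : l ≤ M + 2 := by
  by_contra hl
  push Not at hl
  have hne : ∀ i, i + 2 < l → dl (s i) (s (i + 1)) ≠ dl (s (i + 1)) (s (i + 2)) :=
    fun i hi => dl_ne (hs i (by omega)) (hs (i + 1) hi)
  have hc2 : c ≠ 2 := by rcases hc with rfl | rfl <;> decide
  have hc3 : c ≠ 3 := by rcases hc with rfl | rfl <;> decide
  have := len_aux (D := fun i => dl (s i) (s (i + 1))) (L := l - 1) (M := M) hc (by omega)
    (fun i hi => dl_lt (hs i (by omega)) (hN _ (by omega))) (hne 0 (by omega)) (by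
      intro i hi
      have h1 := h i (by omega)
      have n1 := hne i (by omega)
      have n2 : dl (s (i + 1)) (s (i + 2)) ≠ dl (s (i + 2)) (s (i + 3)) := hne (i + 1) (by omega)
      unfold c4 at h1
      split_ifs at h1 with g1 g2 g3
      · exact Or.inl ⟨g1, g2, h1⟩
      · exact absurd h1.symm hc2
      · exact absurd h1.symm hc3
      · exact Or.inr ⟨lt_of_le_of_ne (Nat.le_of_not_lt g1) n1.symm,
          lt_of_le_of_ne (Nat.le_of_not_lt g3) n2.symm, h1⟩)
  omega

end Pool.Agent.V11142.StepUp
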