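import Mathlib

/-!
# Auxiliary results for `MP_d43ba4_co`

Seinsche's theorem for induced paths on four vertices, and facts on projections.
-/

set_option autoImplicit false

namespace Pool.Agent.V11142.PathFour

open Finset

section Seinsche

variable {α : Type*} [DecidableEq α]

/-- `F` splits in two parts, joined completely or not at all. -/
def Split (R : α → α → Prop) (F : Finset α) : Prop :=
  ∃ A B : Finset α, A.Nonempty ∧ B.Nonempty ∧ Disjoint A B ∧ A ∪ B = F ∧
    ((∀ a ∈ A, ∀ b ∈ B, R a b) ∨ (∀ a ∈ A, ∀ b ∈ B, ¬ R a b))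

/-- An induced path on four vertices. -/
def HasP4 (R : α → α → Prop) (F : Finset α) : Prop :=
  ∃ a ∈ F, ∃ b ∈ F, ∃ c ∈ F, ∃ d ∈ F, a ≠ b ∧ a ≠ c ∧ a ≠ d ∧ b ≠ c ∧ b ≠ d ∧ c ≠ d ∧
    R a b ∧ R b c ∧ R c d ∧ ¬ R a c ∧ ¬ R a d ∧ ¬ R b d

theorem split_not {R : α → α → Prop} {F : Finset α} (h : Split (fun a b => ¬ R a b) F) :
    Split R F := by
  obtain ⟨A, B, hA, hB, hAB, hu, h | h⟩ := h
  · exact ⟨A, B, hA, hB, hAB, hu, Or.inr h⟩
  · exact ⟨A, B, hA, hB, hAB, hu, Or.inl fun a ha b hb => not_not.1 (h a ha b hb)⟩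

theorem hasP4_not {R : α → α → Prop} (hs : ∀ a b, R a b → R b a) {F : Finset α}
    (h : HasP4 (fun a b => ¬ R a b) F) : HasP4 R F := by
  obtain ⟨a, ha, b, hb, c, hc, d, hd, hab, hac, had, hbc, hbd, hcd, h1, h2, h3, h4, h5, h6⟩ := h
  refine ⟨c, hc, a, ha, d, hd, b, hb, hac.symm, hcd, hbc.symm, had, hab, hbd.symm,
    hs _ _ (not_not.1 h4), not_not.1 h5, hs _ _ (not_not.1 h6), h3, fun h => h2 (hs _ _ h), h1⟩

theorem core {R : α → α → Prop} (hs : ∀ a b, R a b → R b a) {A B : Finset α}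
    (hA : A.Nonempty) (hB : B.Nonempty) (hAB : Disjoint A B) {x : α} (hx : x ∉ A ∪ B)
    (hR : ∀ a ∈ A, ∀ b ∈ B, ¬ R a b) :
    Split R (insert x (A ∪ B)) ∨ HasP4 R (insert x (A ∪ B)) := by
  have hxA : x ∉ A := fun h => hx (mem_union_left _ h)
  have hxB : x ∉ B := fun h => hx (mem_union_right _ h)
  have hne : ∀ a ∈ A, ∀ b ∈ B, a ≠ b := fun a ha b hb hab =>
    (disjoint_left.1 hAB ha) (hab ▸ hb)
  -- auxiliary statement used twice
  have aux : ∀ A' B' : Finset α, Disjoint A' B' → x ∉ A' → x ∉ B' →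
      (∀ a ∈ A', ∀ b ∈ B', ¬ R a b) → insert x (A' ∪ B') = insert x (A ∪ B) →
      (∃ b ∈ B', R x b) → (∃ a ∈ A', ¬ R x a) →
      (Split R (insert x (A ∪ B)) ∨ HasP4 R (insert x (A ∪ B))) := by
    rintro A' B' hd hxA' hxB' hR' heq ⟨b0, hb0, hxb⟩ ⟨y, hy, hxy⟩
    by_cases h4 : ∃ m ∈ A', ∃ n ∈ A', ¬ R x m ∧ R x n ∧ R m n
    · obtain ⟨m, hm, n, hn, h1, h2, h3⟩ := h4
      right
      rw [← heq]
      refine ⟨m, mem_insert_of_mem (mem_union_left _ hm), n,
        mem_insert_of_mem (mem_union_left _ hn), x, mem_insert_self _ _, b0,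
        mem_insert_of_mem (mem_union_right _ hb0), ?_, ?_, ?_, ?_, ?_, ?_, h3, hs _ _ h2, hxb,
        fun h => h1 (hs _ _ h), hR' m hm b0 hb0, hR' n hn b0 hb0⟩
      · rintro rfl; exact h1 h2
      · rintro rfl; exact hxA' hm
      · rintro rfl; exact (disjoint_left.1 hd hm) hb0
      · rintro rfl; exact hxA' hn
      · rintro rfl; exact (disjoint_left.1 hd hn) hb0
      · rintro rfl; exact hxB' hb0
    · left
      classical
      refine ⟨A'.filter (fun a => ¬ R x a), insert x (A'.filter (fun a => R x a) ∪ B'),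
        ⟨y, mem_filter.2 ⟨hy, hxy⟩⟩, ⟨x, mem_insert_self _ _⟩, ?_, ?_, Or.inr ?_⟩
      · rw [disjoint_left]
        intro a ha hb
        rw [mem_filter] at ha
        rw [mem_insert, mem_union, mem_filter] at hb
        rcases hb with rfl | ⟨_, hb⟩ | hb
        · exact hxA' ha.1
        · exact ha.2 hb
        · exact (disjoint_left.1 hd ha.1) hb
      · rw [← heq]
        ext z
        simp only [mem_union, mem_filter, mem_insert]
        by_cases hz : R x z <;> simp [hz]
        tauto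
      · intro a ha b hb
        rw [mem_filter] at ha
        rw [mem_insert, mem_union, mem_filter] at hb
        rcases hb with rfl | ⟨hb, hb2⟩ | hb
        · exact fun h => ha.2 (hs _ _ h)
        · exact fun h => h4 ⟨a, ha.1, b, hb, ha.2, hb2, h⟩
        · exact hR' a ha.1 b hb
  by_cases h1 : ∀ a ∈ A, ¬ R x a
  · left
    refine ⟨A, insert x B, hA, ⟨x, mem_insert_self _ _⟩, ?_, ?_, Or.inr ?_⟩
    · rw [disjoint_insert_right]; exact ⟨hxA, hAB⟩
    · rw [union_insert]
    · intro a ha b hb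
      rcases mem_insert.1 hb with rfl | hb
      · exact fun h => h1 a ha (hs _ _ h)
      · exact hR a ha b hb
  by_cases h2 : ∀ b ∈ B, ¬ R x b
  · left
    refine ⟨B, insert x A, hB, ⟨x, mem_insert_self _ _⟩, ?_, ?_, Or.inr ?_⟩
    · rw [disjoint_insert_right]; exact ⟨hxB, hAB.symm⟩
    · rw [union_insert, union_comm]
    · intro b hb a ha
      rcases mem_insert.1 ha with rfl | ha
      · exact fun h => h2 b hb (hs _ _ h)
      · exact fun h => hR a ha b hb (hs _ _ h)
  push Not at h1 h2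
  obtain ⟨a0, ha0, hxa⟩ := h1
  obtain ⟨b0, hb0, hxb⟩ := h2
  by_cases h3 : ∀ y ∈ A ∪ B, R x y
  · left
    refine ⟨{x}, A ∪ B, singleton_nonempty x, hA.mono subset_union_left, ?_, ?_, Or.inl ?_⟩
    · rw [disjoint_singleton_left]; exact hx
    · rw [insert_eq]
    · intro a ha b hb
      rw [mem_singleton] at ha
      rw [ha]; exact h3 b hb
  push Not at h3
  obtain ⟨y, hy, hxy⟩ := h3
  rcases mem_union.1 hy with hy | hy
  · exact aux A B hAB hxA hxB hR rfl ⟨b0, hb0, hxb⟩ ⟨y, hy, hxy⟩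
  · refine aux B A hAB.symm hxB hxA (fun b hb a ha h => hR a ha b hb (hs _ _ h)) ?_
      ⟨a0, ha0, hxa⟩ ⟨y, hy, hxy⟩
    rw [union_comm]

/-- Seinsche's theorem. -/
theorem seinsche {R : α → α → Prop} (hs : ∀ a b, R a b → R b a) (F : Finset α) :
    2 ≤ F.card → ¬ HasP4 R F → Split R F := by
  induction F using Finset.induction_on with
  | empty => intro h; simp at h
  | insert x F hx ih =>
    intro hc hP
    rw [card_insert_of_notMem hx] at hc
    have hF : ¬ HasP4 R F := by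
      rintro ⟨a, ha, b, hb, c, hc, d, hd, h⟩
      exact hP ⟨a, mem_insert_of_mem ha, b, mem_insert_of_mem hb, c, mem_insert_of_mem hc, d,
        mem_insert_of_mem hd, h⟩
    rcases Nat.lt_or_ge F.card 2 with h1 | h1
    · have h1' : F.card = 1 := by omega
      obtain ⟨y, rfl⟩ := card_eq_one.1 h1'
      refine ⟨{x}, {y}, singleton_nonempty _, singleton_nonempty _, ?_, ?_, ?_⟩
      · simpa using hx
      · rw [insert_eq]
      · by_cases h : R x y
        · left; intro a ha b hb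
          rw [mem_singleton] at ha hb
          rw [ha, hb]; exact h
        · right; intro a ha b hb
          rw [mem_singleton] at ha hb
          rw [ha, hb]; exact h
    · obtain ⟨A, B, hA, hB, hAB, hu, h | h⟩ := ih h1 hF
      · subst hu
        have := core (R := fun a b => ¬ R a b) (fun a b h1 h2 => h1 (hs _ _ h2)) hA hB hAB hx
          (fun a ha b hb h2 => h2 (h a ha b hb))
        rcases this with h | h
        · exact split_not h
        · exact absurd (hasP4_not hs h) hP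
      · subst hu
        rcases core hs hA hB hAB hx h with h | h
        · exact h
        · exact absurd h hP

end Seinsche

section LinAlg

variable {E : Type*} [NormedAddCommGroup E] [InnerProductSpace ℝ E] [FiniteDimensional ℝ E]

open scoped RealInnerProductSpace

/-- projection -/
noncomputable def pr (u : E) (K : Submodule ℝ E) : E := K.starProjection u

/-- squared norm of the projection -/
noncomputable def kap (u : E) (K : Submodule ℝ E) : ℝ := ⟪pr u K, pr u K⟫

variable {u : E} {K L : Submodule ℝ E}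

theorem pr_mem : pr u K ∈ K := K.starProjection_apply_mem u

theorem inner_pr {w : E} (hw : w ∈ K) : ⟪w, pr u K⟫ = ⟪w, u⟫ := by
  have := K.starProjection_inner_eq_zero u w hw
  rw [inner_sub_left, sub_eq_zero] at this
  rw [real_inner_comm, real_inner_comm w] at *
  exact this.symm

theorem eq_pr {y : E} (hy : y ∈ K) (h : ∀ w ∈ K, ⟪w, y⟫ = ⟪w, u⟫) : y = pr u K := by
  refine (K.eq_starProjection_of_mem_of_inner_eq_zero hy ?_).symm
  intro w hw
  rw [inner_sub_left, sub_eq_zero, real_inner_comm, real_inner_comm w]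
  exact (h w hw).symm

theorem kap_eq : kap u K = ⟪pr u K, u⟫ := inner_pr pr_mem

theorem kap_nonneg : 0 ≤ kap u K := real_inner_self_nonneg

theorem sq_le {w : E} (hw : w ∈ K) : ⟪w, u⟫ ^ 2 ≤ kap u K * ⟪w, w⟫ := by
  rw [← inner_pr hw, pow_two]
  have := real_inner_mul_inner_self_le w (pr u K)
  rw [kap, mul_comm (⟪pr u K, pr u K⟫)]
  exact this

theorem kap_mono (h : K ≤ L) : kap u K ≤ kap u L := by
  have h1 := sq_le (u := u) (h (pr_mem (u := u) (K := K)))
  rw [← kap_eq] at h1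
  change kap u K ^ 2 ≤ kap u L * kap u K at h1
  rcases (kap_nonneg (u := u) (K := K)).eq_or_lt with h0 | h0
  · rw [← h0]; exact kap_nonneg
  · nlinarith

/-- The relation between the spans of two completely joined families. -/
def Joined (u : E) (K L : Submodule ℝ E) : Prop := ∀ w ∈ K, ∀ z ∈ L, ⟪w, z⟫ = ⟪w, u⟫ * ⟪z, u⟫

theorem Joined.symm (h : Joined u K L) : Joined u L K := by
  intro z hz w hw
  rw [real_inner_comm, h w hw z hz, mul_comm]

theorem joined_span {s t : Set E} (h : ∀ w ∈ s, ∀ z ∈ t, ⟪w, z⟫ = ⟪w, u⟫ * ⟪z, u⟫) :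
    Joined u (Submodule.span ℝ s) (Submodule.span ℝ t) := by
  intro w hw z hz
  induction hw using Submodule.span_induction with
  | mem w hw =>
    induction hz using Submodule.span_induction with
    | mem z hz => exact h w hw z hz
    | zero => simp
    | add z z' _ _ h1 h2 => rw [inner_add_right, inner_add_left, h1, h2]; ring
    | smul c z _ h1 => rw [inner_smul_right, inner_smul_left, h1]; simp; ring
  | zero => simp
  | add w w' _ _ h1 h2 => rw [inner_add_left, inner_add_left, h1, h2]; ring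
  | smul c w _ h1 => rw [inner_smul_left, inner_smul_left, h1]; simp; ring

theorem Joined.inf_eq_bot (h : Joined u K L) (hK : kap u K < 1) : K ⊓ L = ⊥ := by
  rw [eq_bot_iff]
  rintro w ⟨hw1, hw2⟩
  have h1 := h w hw1 w hw2
  have h2 := sq_le (u := u) hw1
  have h3 : 0 ≤ ⟪w, w⟫ := real_inner_self_nonneg
  rw [Submodule.mem_bot, ← inner_self_eq_zero (𝕜 := ℝ)]
  nlinarith

theorem Joined.mul_le (h : Joined u K L) : kap u K * kap u L ≤ 1 := by
  have h1 := h _ (pr_mem (u := u)) _ (pr_mem (u := u))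
  rw [← kap_eq, ← kap_eq] at h1
  have h2 := real_inner_mul_inner_self_le (pr u K) (pr u L)
  rw [h1] at h2
  change _ ≤ kap u K * kap u L at h2
  have h3 := mul_nonneg (kap_nonneg (u := u) (K := K)) (kap_nonneg (u := u) (K := L))
  by_contra h4
  push Not at h4
  nlinarith

/-- If one projection has norm one, it is the projection to the sup. -/
theorem Joined.pr_sup (h : Joined u K L) (hK : kap u K = 1) : pr u (K ⊔ L) = pr u K := by
  symm
  refine eq_pr (Submodule.mem_sup_left pr_mem) ?_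
  intro w hw
  obtain ⟨a, ha, b, hb, rfl⟩ := Submodule.mem_sup.1 hw
  rw [inner_add_left, inner_add_left, inner_pr ha, h.symm b hb _ pr_mem, ← kap_eq, hK, mul_one]

theorem Joined.kap_sup (h : Joined u K L) (hK : kap u K = 1) : kap u (K ⊔ L) = 1 := by
  rw [kap, h.pr_sup hK]; exact hK

theorem Joined.pr_eq (h : Joined u K L) (hK : kap u K = 1) (hL : kap u L = 1) :
    pr u K = pr u L := by
  rw [← h.pr_sup hK, sup_comm, h.symm.pr_sup hL]

theorem Joined.inf_le (h : Joined u K L) (hK : kap u K = 1) : K ⊓ L ≤ Submodule.span ℝ {pr u K} := by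
  rintro w ⟨hw1, hw2⟩
  have h1 := h w hw1 w hw2
  have h4 : w - ⟪w, u⟫ • pr u K = 0 := by
    rw [← inner_self_eq_zero (𝕜 := ℝ)]
    have h5 : ⟪pr u K, pr u K⟫ = 1 := hK
    rw [inner_sub_left, inner_sub_right, inner_sub_right, inner_smul_left, inner_smul_left,
      inner_smul_right, inner_smul_right, h5, real_inner_comm w (pr u K), inner_pr hw1, h1]
    simp
  rw [sub_eq_zero] at h4
  rw [h4]
  exact Submodule.smul_mem _ _ (Submodule.mem_span_singleton_self _)

theorem Joined.kap_ne (h : Joined u K L) (hK : kap u K < 1) (hL : kap u L < 1) :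
    kap u (K ⊔ L) ≠ 1 := by
  intro h1
  obtain ⟨a, ha, b, hb, hab⟩ := Submodule.mem_sup.1 (pr_mem (u := u) (K := K ⊔ L))
  have h2 : ⟪a, u⟫ + ⟪b, u⟫ = 1 := by
    rw [← inner_add_left, hab, ← kap_eq, h1]
  have h3 : ⟪a, a⟫ + 2 * (⟪a, u⟫ * ⟪b, u⟫) + ⟪b, b⟫ = 1 := by
    rw [← h a ha b hb]
    have : ⟪a + b, a + b⟫ = 1 := by rw [hab]; exact h1
    rw [inner_add_left, inner_add_right, inner_add_right, real_inner_comm a b] at this
    linarith
  have h4 := sq_le (u := u) ha
  have h5 := sq_le (u := u) hb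
  have h6 : 0 ≤ ⟪a, a⟫ := real_inner_self_nonneg
  have h7 : 0 ≤ ⟪b, b⟫ := real_inner_self_nonneg
  have h8 : ⟪a, u⟫ ^ 2 ≤ ⟪a, a⟫ := by nlinarith
  have h9 : ⟪b, u⟫ ^ 2 ≤ ⟪b, b⟫ := by nlinarith
  have h10 : ⟪a, a⟫ = ⟪a, u⟫ ^ 2 := by nlinarith
  have h11 : ⟪b, b⟫ = ⟪b, u⟫ ^ 2 := by nlinarith
  have h12 : ⟪a, u⟫ = 0 := by
    have : ⟪a, u⟫ ^ 2 = 0 := by nlinarith [sq_nonneg ⟪a, u⟫]
    exact pow_eq_zero_iff (two_ne_zero) |>.1 this
  have h13 : ⟪b, u⟫ = 0 := by
    have : ⟪b, u⟫ ^ 2 = 0 := by nlinarith [sq_nonneg ⟪b, u⟫]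
    exact pow_eq_zero_iff (two_ne_zero) |>.1 this
  rw [h12, h13] at h2
  norm_num at h2

/-- orthogonal subspaces -/
theorem pr_orth (h : ∀ w ∈ K, ∀ z ∈ L, ⟪w, z⟫ = 0) : pr u (K ⊔ L) = pr u K + pr u L := by
  symm
  refine eq_pr (Submodule.add_mem_sup pr_mem pr_mem) ?_
  intro w hw
  obtain ⟨a, ha, b, hb, rfl⟩ := Submodule.mem_sup.1 hw
  have h3 : ⟪b, pr u K⟫ = 0 := by rw [real_inner_comm]; exact h _ pr_mem b hb
  rw [inner_add_left, inner_add_left, inner_add_right, inner_add_right, inner_pr ha, inner_pr hb,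
    h a ha _ pr_mem, h3]
  ring

theorem kap_orth (h : ∀ w ∈ K, ∀ z ∈ L, ⟪w, z⟫ = 0) : kap u (K ⊔ L) = kap u K + kap u L := by
  rw [kap_eq, kap_eq, kap_eq, pr_orth h, inner_add_left]

theorem orth_span {s t : Set E} (h : ∀ w ∈ s, ∀ z ∈ t, ⟪w, z⟫ = 0) :
    ∀ w ∈ Submodule.span ℝ s, ∀ z ∈ Submodule.span ℝ t, ⟪w, z⟫ = 0 := by
  intro w hw z hz
  induction hw using Submodule.span_induction with
  | mem w hw =>
    induction hz using Submodule.span_induction with
    | mem z hz => exact h w hw z hz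
    | zero => simp
    | add z z' _ _ h1 h2 => rw [inner_add_right, h1, h2]; ring
    | smul c z _ h1 => rw [inner_smul_right, h1]; simp
  | zero => simp
  | add w w' _ _ h1 h2 => rw [inner_add_left, h1, h2]; ring
  | smul c w _ h1 => rw [inner_smul_left, h1]; simp

theorem orth_inf (h : ∀ w ∈ K, ∀ z ∈ L, ⟪w, z⟫ = 0) : K ⊓ L = ⊥ := by
  rw [eq_bot_iff]
  rintro w ⟨hw1, hw2⟩
  rw [Submodule.mem_bot, ← inner_self_eq_zero (𝕜 := ℝ)]
  exact h w hw1 w hw2

end LinAlg

end Pool.Agent.V11142.PathFour
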