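import Pool.Agent.V11142.PathFourA

/-!
# Auxiliary results for `MP_d43ba4_co`: the main induction
-/

set_option autoImplicit false

namespace Pool.Agent.V11142.PathFour

open Finset

variable {V : Type*} [Fintype V] [DecidableEq V]

open scoped RealInnerProductSpace

/-- characteristic vector -/
noncomputable def chi (e : Finset V) : EuclideanSpace ℝ V :=
  WithLp.toLp 2 (fun v => if v ∈ e then 1 else 0)

/-- the constant vector -/
noncomputable def uu (V : Type*) [Fintype V] (r : ℕ) : EuclideanSpace ℝ V :=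
  WithLp.toLp 2 (fun _ => (1 : ℝ) / r)

/-- span of a family -/
noncomputable def sp (F : Finset (Finset V)) : Submodule ℝ (EuclideanSpace ℝ V) :=
  Submodule.span ℝ (chi '' (F : Set (Finset V)))

/-- rank of a family -/
noncomputable def rk (F : Finset (Finset V)) : ℕ := Module.finrank ℝ (sp F)

theorem inner_chi (e f : Finset V) : ⟪chi e, chi f⟫ = ((e ∩ f).card : ℝ) := by
  simp only [chi, PiLp.inner_apply, RCLike.inner_apply, conj_trivial]
  simp only [mul_ite, mul_one, mul_zero]
  rw [← Finset.sum_filter, ← Finset.sum_filter, Finset.sum_const, nsmul_eq_mul, mul_one]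
  congr 2
  ext v
  simp [and_comm]

theorem inner_chi_uu {r : ℕ} (hr : 2 ≤ r) {e : Finset V} (he : e.card = r) :
    ⟪chi e, uu V r⟫ = 1 := by
  simp only [chi, uu, PiLp.inner_apply, RCLike.inner_apply, conj_trivial]
  simp only [mul_ite, mul_one, mul_zero]
  rw [← Finset.sum_filter, Finset.sum_const, nsmul_eq_mul]
  rw [Finset.filter_mem_eq_inter, Finset.univ_inter, he]
  have : (r : ℝ) ≠ 0 := by positivity
  field_simp

theorem sp_union (A B : Finset (Finset V)) : sp (A ∪ B) = sp A ⊔ sp B := by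
  rw [sp, coe_union, Set.image_union, Submodule.span_union]; rfl

theorem chi_mem {F : Finset (Finset V)} {e : Finset V} (he : e ∈ F) : chi e ∈ sp F :=
  Submodule.subset_span ⟨e, he, rfl⟩

theorem rk_union (A B : Finset (Finset V)) :
    rk (A ∪ B) + Module.finrank ℝ (sp A ⊓ sp B : Submodule ℝ (EuclideanSpace ℝ V)) =
      rk A + rk B := by
  rw [rk, sp_union]
  exact Submodule.finrank_sup_add_finrank_inf_eq _ _

theorem rk_union_of_bot {A B : Finset (Finset V)} (h : sp A ⊓ sp B = ⊥) :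
    rk (A ∪ B) = rk A + rk B := by
  rw [← rk_union, h, finrank_bot, add_zero]

/-- the vertices covered -/
def cov (F : Finset (Finset V)) : Finset V := F.biUnion id

theorem eq_zero_of_notMem {F : Finset (Finset V)} {w : EuclideanSpace ℝ V} (hw : w ∈ sp F)
    {v : V} (hv : v ∉ cov F) : w v = 0 := by
  induction hw using Submodule.span_induction with
  | mem w hw =>
    obtain ⟨e, he, rfl⟩ := hw
    have : v ∉ e := fun h => hv (mem_biUnion.2 ⟨e, he, h⟩)
    simp [chi, this]
  | zero => simp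
  | add w w' _ _ h1 h2 => simp [h1, h2]
  | smul c w _ h1 => simp [h1]

theorem kap_le_cov {r : ℕ} (hr : 2 ≤ r) (F : Finset (Finset V)) :
    kap (uu V r) (sp F) ≤ ((cov F).card : ℝ) / (r : ℝ) ^ 2 := by
  set y := pr (uu V r) (sp F) with hy
  set w : EuclideanSpace ℝ V := WithLp.toLp 2 (fun v => if v ∈ cov F then (1 : ℝ) / r else 0)
    with hw
  have hr0 : (r : ℝ) ≠ 0 := by positivity
  have hym : y ∈ sp F := pr_mem
  have h1 : ⟪y, uu V r⟫ = ⟪y, w⟫ := by
    simp only [uu, hw, PiLp.inner_apply, RCLike.inner_apply, conj_trivial]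
    refine Finset.sum_congr rfl fun v _ => ?_
    by_cases hv : v ∈ cov F
    · simp [hv]
    · simp [hv, eq_zero_of_notMem hym hv]
  have h2 : ⟪w, w⟫ = ((cov F).card : ℝ) / (r : ℝ) ^ 2 := by
    simp only [hw, PiLp.inner_apply, RCLike.inner_apply, conj_trivial]
    simp only [mul_ite, mul_zero, ite_mul, zero_mul]
    have : ∀ v : V, (if v ∈ cov F then if v ∈ cov F then (1 : ℝ) / r * (1 / r) else 0 else 0) =
        if v ∈ cov F then (1 : ℝ) / r * (1 / r) else 0 := by
      intro v; split_ifs <;> rfl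
    rw [Finset.sum_congr rfl fun v _ => this v, ← Finset.sum_filter, Finset.sum_const,
      nsmul_eq_mul, Finset.filter_mem_eq_inter, Finset.univ_inter]
    field_simp
  have h3 := real_inner_mul_inner_self_le y w
  rw [← h1, hy, ← kap_eq, h2] at h3
  change _ ≤ kap (uu V r) (sp F) * _ at h3
  rcases (kap_nonneg (u := uu V r) (K := sp F)).eq_or_lt with h0 | h0
  · rw [← h0]; positivity
  · exact le_of_mul_le_mul_left h3 h0

theorem cov_card_le {r : ℕ} {F : Finset (Finset V)} (hU : ∀ e ∈ F, e.card = r) :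
    (cov F).card ≤ r * F.card := by
  refine card_biUnion_le.trans ?_
  calc ∑ a ∈ F, (id a : Finset V).card ≤ ∑ _a ∈ F, r := sum_le_sum fun e he => (hU e he).le
    _ = r * F.card := by rw [sum_const, smul_eq_mul, mul_comm]

theorem kap_le_card {r : ℕ} (hr : 2 ≤ r) {F : Finset (Finset V)} (hU : ∀ e ∈ F, e.card = r) :
    (r : ℝ) * kap (uu V r) (sp F) ≤ F.card := by
  have h1 := kap_le_cov hr F
  have h2 : ((cov F).card : ℝ) ≤ r * F.card := by exact_mod_cast cov_card_le hU
  have hr0 : (0 : ℝ) < r := by positivity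
  rw [le_div_iff₀ (by positivity)] at h1
  nlinarith

theorem kap_pos {r : ℕ} (hr : 2 ≤ r) {F : Finset (Finset V)} (hU : ∀ e ∈ F, e.card = r)
    (hF : F.Nonempty) : 0 < kap (uu V r) (sp F) := by
  obtain ⟨e, he⟩ := hF
  have h1 := sq_le (u := uu V r) (chi_mem he)
  rw [inner_chi_uu hr (hU e he), inner_chi, inter_self, hU e he] at h1
  have hr0 : (0 : ℝ) < r := by positivity
  by_contra h
  push Not at h
  nlinarith

theorem joined_sp {r : ℕ} (hr : 2 ≤ r) {A B : Finset (Finset V)}
    (hA : ∀ e ∈ A, e.card = r) (hB : ∀ e ∈ B, e.card = r)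
    (h : ∀ e ∈ A, ∀ f ∈ B, (e ∩ f).card = 1) : Joined (uu V r) (sp A) (sp B) := by
  refine joined_span ?_
  rintro _ ⟨e, he, rfl⟩ _ ⟨f, hf, rfl⟩
  rw [inner_chi_uu hr (hA e he), inner_chi_uu hr (hB f hf), inner_chi, h e he f hf]
  norm_num

theorem orth_sp {A B : Finset (Finset V)} (h : ∀ e ∈ A, ∀ f ∈ B, Disjoint e f) :
    ∀ w ∈ sp A, ∀ z ∈ sp B, ⟪w, z⟫ = 0 := by
  refine orth_span ?_
  rintro _ ⟨e, he, rfl⟩ _ ⟨f, hf, rfl⟩
  rw [inner_chi, (disjoint_iff_inter_eq_empty.1 (h e he f hf))]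
  simp

/-- number of edges of `F` through `v` meeting `e`, by linearity -/
theorem meet_card_le {r : ℕ} {F : Finset (Finset V)} (hU : ∀ e ∈ F, e.card = r)
    (hL : ∀ e ∈ F, ∀ f ∈ F, e ≠ f → (e ∩ f).card ≤ 1) {v : V} {e : Finset V} (he : e ∈ F)
    (hv : v ∉ e) : (F.filter fun f => v ∈ f ∧ ¬ Disjoint f e).card ≤ r := by
  have h1 : (F.filter fun f => v ∈ f ∧ ¬ Disjoint f e) ⊆
      e.biUnion fun w => F.filter fun f => v ∈ f ∧ w ∈ f := by
    intro f hf
    rw [mem_filter] at hf
    obtain ⟨w, hw1, hw2⟩ := not_disjoint_iff.1 hf.2.2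
    exact mem_biUnion.2 ⟨w, hw2, mem_filter.2 ⟨hf.1, hf.2.1, hw1⟩⟩
  refine (card_le_card h1).trans (card_biUnion_le.trans ?_)
  have h2 : ∀ w ∈ e, (F.filter fun f => v ∈ f ∧ w ∈ f).card ≤ 1 := by
    intro w hw
    rw [card_le_one]
    intro f hf g hg
    rw [mem_filter] at hf hg
    by_contra hne
    have h3 := hL f hf.1 g hg.1 hne
    have hvw : v ≠ w := by rintro rfl; exact hv hw
    have h4 : ({v, w} : Finset V) ⊆ f ∩ g := by
      intro z hz
      rw [mem_insert, mem_singleton] at hz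
      rcases hz with rfl | rfl
      · exact mem_inter.2 ⟨hf.2.1, hg.2.1⟩
      · exact mem_inter.2 ⟨hf.2.2, hg.2.2⟩
    have h5 := card_le_card h4
    rw [card_pair hvw] at h5
    omega
  refine (sum_le_sum h2).trans ?_
  rw [sum_const, smul_eq_mul, mul_one, hU e he]

/-- The statement proved by induction. -/
def Main (r : ℕ) (F : Finset (Finset V)) : Prop :=
  r * F.card ≤ (r + 1) * rk F ∧
  (kap (uu V r) (sp F) < 1 → rk F = F.card) ∧
  (kap (uu V r) (sp F) = 1 → ∃ a : ℕ, (r + 1) + r * F.card ≤ (r + 1) * rk F + a ∧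
    ∀ v : V, (pr (uu V r) (sp F)) v ≠ 0 → a ≤ (F.filter fun e => v ∈ e).card ∧
      ∃ e ∈ F, v ∉ e ∧ a ≤ (F.filter fun f => v ∈ f ∧ ¬ Disjoint f e).card + 1) ∧
  (r * F.card = (r + 1) * rk F → F.Nonempty → kap (uu V r) (sp F) = 1 ∨
    ∃ A B : Finset (Finset V), A.Nonempty ∧ B.Nonempty ∧ Disjoint A B ∧ A ∪ B = F ∧
      ∀ e ∈ A, ∀ f ∈ B, Disjoint e f)

theorem main_disj {r : ℕ} (hr : 2 ≤ r) {A B : Finset (Finset V)}
    (hA0 : A.Nonempty) (hB0 : B.Nonempty) (hAB : Disjoint A B)
    (hU : ∀ e ∈ A ∪ B, e.card = r)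
    (h : ∀ e ∈ A, ∀ f ∈ B, Disjoint e f) (hA : Main r A) (hB : Main r B) :
    Main r (A ∪ B) := by
  have hUA : ∀ e ∈ A, e.card = r := fun e he => hU e (mem_union_left _ he)
  have hUB : ∀ e ∈ B, e.card = r := fun e he => hU e (mem_union_right _ he)
  have ho := orth_sp h
  have hrk : rk (A ∪ B) = rk A + rk B := rk_union_of_bot (orth_inf ho)
  have hk : kap (uu V r) (sp (A ∪ B)) = kap (uu V r) (sp A) + kap (uu V r) (sp B) := by
    rw [sp_union, kap_orth ho]
  have hc : (A ∪ B).card = A.card + B.card := card_union_of_disjoint hAB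
  have hpA := kap_pos hr hUA hA0
  have hpB := kap_pos hr hUB hB0
  refine ⟨?_, ?_, ?_, ?_⟩
  · rw [hc, hrk, mul_add, mul_add]; exact add_le_add hA.1 hB.1
  · intro h1
    rw [hk] at h1
    rw [hrk, hc, hA.2.1 (by linarith), hB.2.1 (by linarith)]
  · intro h1
    refine ⟨1, ?_, ?_⟩
    · have h2 := kap_le_card hr hU
      rw [h1, mul_one] at h2
      have h3 : r ≤ (A ∪ B).card := by exact_mod_cast h2
      rw [hk] at h1
      rw [hrk, hA.2.1 (by linarith), hB.2.1 (by linarith), ← hc]
      nlinarith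
    · intro v hv
      have h2 : v ∈ cov (A ∪ B) := by
        by_contra h3
        exact hv (eq_zero_of_notMem pr_mem h3)
      obtain ⟨e, he, hve⟩ := mem_biUnion.1 h2
      change v ∈ e at hve
      refine ⟨card_pos.2 ⟨e, mem_filter.2 ⟨he, hve⟩⟩, ?_⟩
      rcases mem_union.1 he with he | he
      · obtain ⟨f, hf⟩ := hB0
        exact ⟨f, mem_union_right _ hf, disjoint_left.1 (h e he f hf) hve, by omega⟩
      · obtain ⟨f, hf⟩ := hA0
        exact ⟨f, mem_union_left _ hf, disjoint_right.1 (h f hf e he) hve, by omega⟩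
  · intro _ _
    exact Or.inr ⟨A, B, hA0, hB0, hAB, rfl, h⟩

/-- the bound on `a` -/
theorem le_of_kap_eq_one {r : ℕ} {F : Finset (Finset V)} (hU : ∀ e ∈ F, e.card = r)
    (hL : ∀ e ∈ F, ∀ f ∈ F, e ≠ f → (e ∩ f).card ≤ 1) (hk : kap (uu V r) (sp F) = 1)
    (h3 : ∃ a : ℕ, (r + 1) + r * F.card ≤ (r + 1) * rk F + a ∧
    ∀ v : V, (pr (uu V r) (sp F)) v ≠ 0 → a ≤ (F.filter fun e => v ∈ e).card ∧
      ∃ e ∈ F, v ∉ e ∧ a ≤ (F.filter fun f => v ∈ f ∧ ¬ Disjoint f e).card + 1) :
    r * F.card ≤ (r + 1) * rk F := by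
  obtain ⟨a, ha, hv⟩ := h3
  have h1 : ∃ v, (pr (uu V r) (sp F)) v ≠ 0 := by
    by_contra h
    push Not at h
    have h2 : pr (uu V r) (sp F) = 0 := by
      ext v; simpa using h v
    rw [kap, h2, inner_zero_left] at hk
    norm_num at hk
  obtain ⟨v, hv1⟩ := h1
  obtain ⟨_, e, he, hve, h4⟩ := hv v hv1
  have h5 := meet_card_le hU hL he hve
  omega

theorem main_join {r : ℕ} (hr : 2 ≤ r) {A B : Finset (Finset V)}
    (hA0 : A.Nonempty) (hB0 : B.Nonempty) (hAB : Disjoint A B)
    (hU : ∀ e ∈ A ∪ B, e.card = r)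
    (hL : ∀ e ∈ A ∪ B, ∀ f ∈ A ∪ B, e ≠ f → (e ∩ f).card ≤ 1)
    (h : ∀ e ∈ A, ∀ f ∈ B, ¬ Disjoint e f) (hA : Main r A) (hB : Main r B) :
    Main r (A ∪ B) := by
  have hUA : ∀ e ∈ A, e.card = r := fun e he => hU e (mem_union_left _ he)
  have hUB : ∀ e ∈ B, e.card = r := fun e he => hU e (mem_union_right _ he)
  have h1 : ∀ e ∈ A, ∀ f ∈ B, (e ∩ f).card = 1 := by
    intro e he f hf
    have hne : e ≠ f := by
      rintro rfl; exact (disjoint_left.1 hAB he) hf
    have h2 := hL e (mem_union_left _ he) f (mem_union_right _ hf) hne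
    have h3 : 0 < (e ∩ f).card := by
      rw [card_pos]
      by_contra h4
      rw [not_nonempty_iff_eq_empty] at h4
      exact h e he f hf (disjoint_iff_inter_eq_empty.2 h4)
    omega
  have hJ := joined_sp hr hUA hUB h1
  have hc : (A ∪ B).card = A.card + B.card := card_union_of_disjoint hAB
  have hmA : kap (uu V r) (sp A) ≤ kap (uu V r) (sp (A ∪ B)) := by
    rw [sp_union]; exact kap_mono le_sup_left
  have hmB : kap (uu V r) (sp B) ≤ kap (uu V r) (sp (A ∪ B)) := by
    rw [sp_union]; exact kap_mono le_sup_right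
  have hrkA : kap (uu V r) (sp A) < 1 → rk (A ∪ B) = rk A + rk B := fun hlt =>
    rk_union_of_bot (hJ.inf_eq_bot hlt)
  have hrkB : kap (uu V r) (sp B) < 1 → rk (A ∪ B) = rk A + rk B := fun hlt =>
    rk_union_of_bot (by rw [inf_comm]; exact hJ.symm.inf_eq_bot hlt)
  have hboth : ¬ kap (uu V r) (sp A) < 1 → ¬ kap (uu V r) (sp B) < 1 →
      kap (uu V r) (sp A) = 1 ∧ kap (uu V r) (sp B) = 1 := by
    intro hA1 hB1
    push Not at hA1 hB1
    have := hJ.mul_le
    constructor <;> nlinarith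
  have hA3 := hA.2.2.1
  have hB3 := hB.2.2.1
  -- third item
  have h3 : kap (uu V r) (sp (A ∪ B)) = 1 →
      ∃ a : ℕ, (r + 1) + r * (A ∪ B).card ≤ (r + 1) * rk (A ∪ B) + a ∧
      ∀ v : V, (pr (uu V r) (sp (A ∪ B))) v ≠ 0 →
        a ≤ ((A ∪ B).filter fun e => v ∈ e).card ∧
        ∃ e ∈ A ∪ B, v ∉ e ∧
          a ≤ ((A ∪ B).filter fun f => v ∈ f ∧ ¬ Disjoint f e).card + 1 := by
    intro hk
    have hcardmono : ∀ (p : Finset V → Prop) [DecidablePred p],
        (A.filter p).card ≤ ((A ∪ B).filter p).card ∧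
        (B.filter p).card ≤ ((A ∪ B).filter p).card := by
      intro p _
      exact ⟨card_le_card (filter_subset_filter _ subset_union_left),
        card_le_card (filter_subset_filter _ subset_union_right)⟩
    by_cases hA1 : kap (uu V r) (sp A) < 1
    · by_cases hB1 : kap (uu V r) (sp B) < 1
      · rw [sp_union] at hk
        exact absurd hk (hJ.kap_ne hA1 hB1)
      · have hB2 : kap (uu V r) (sp B) = 1 := le_antisymm (hk ▸ hmB) (not_lt.1 hB1)
        obtain ⟨a, ha, hv⟩ := hB3 hB2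
        refine ⟨a, ?_, ?_⟩
        · rw [hrkA hA1, hA.2.1 hA1, hc]
          nlinarith
        · intro v hv1
          rw [sp_union, sup_comm, hJ.symm.pr_sup hB2] at hv1
          obtain ⟨h4, e, he, hve, h5⟩ := hv v hv1
          exact ⟨h4.trans (hcardmono _).2, e, mem_union_right _ he, hve,
            h5.trans (Nat.add_le_add_right (hcardmono _).2 1)⟩
    · have hA2 : kap (uu V r) (sp A) = 1 := le_antisymm (hk ▸ hmA) (not_lt.1 hA1)
      obtain ⟨a, ha, hva⟩ := hA3 hA2
      by_cases hB1 : kap (uu V r) (sp B) < 1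
      · refine ⟨a, ?_, ?_⟩
        · rw [hrkB hB1, hB.2.1 hB1, hc]
          nlinarith
        · intro v hv1
          rw [sp_union, hJ.pr_sup hA2] at hv1
          obtain ⟨h4, e, he, hve, h5⟩ := hva v hv1
          exact ⟨h4.trans (hcardmono _).1, e, mem_union_left _ he, hve,
            h5.trans (Nat.add_le_add_right (hcardmono _).1 1)⟩
      · have hB2 : kap (uu V r) (sp B) = 1 := le_antisymm (hk ▸ hmB) (not_lt.1 hB1)
        obtain ⟨b, hb, hvb⟩ := hB3 hB2
        refine ⟨a + b, ?_, ?_⟩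
        · have h6 := rk_union A B
          have h7 : Module.finrank ℝ (sp A ⊓ sp B : Submodule ℝ (EuclideanSpace ℝ V)) ≤ 1 := by
            refine (Submodule.finrank_mono (hJ.inf_le hA2)).trans ?_
            exact (finrank_span_le_card _).trans (by simp)
          have h8 : rk A + rk B ≤ rk (A ∪ B) + 1 := by omega
          have h9 := Nat.mul_le_mul_left (r + 1) h8
          rw [hc]
          nlinarith
        · intro v hv1
          rw [sp_union, hJ.pr_sup hA2] at hv1
          obtain ⟨h4, e, he, hve, h5⟩ := hva v hv1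
          rw [hJ.pr_eq hA2 hB2] at hv1
          obtain ⟨h6, _⟩ := hvb v hv1
          have hdis : ∀ (p : Finset V → Prop) [DecidablePred p],
              ((A ∪ B).filter p).card = (A.filter p).card + (B.filter p).card := by
            intro p _
            rw [filter_union, card_union_of_disjoint (disjoint_filter_filter hAB)]
          refine ⟨by rw [hdis]; omega, e, mem_union_left _ he, hve, ?_⟩
          rw [hdis]
          have h7 : (B.filter fun f => v ∈ f ∧ ¬ Disjoint f e) = B.filter fun f => v ∈ f := by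
            refine filter_congr fun f hf => ?_
            constructor
            · exact fun h => h.1
            · exact fun h2 => ⟨h2, fun h3 => h e he f hf h3.symm⟩
          rw [h7]
          omega
  refine ⟨?_, ?_, h3, ?_⟩
  · by_cases hA1 : kap (uu V r) (sp A) < 1
    · rw [hc, hrkA hA1, mul_add, mul_add]; exact add_le_add hA.1 hB.1
    by_cases hB1 : kap (uu V r) (sp B) < 1
    · rw [hc, hrkB hB1, mul_add, mul_add]; exact add_le_add hA.1 hB.1
    obtain ⟨hA2, hB2⟩ := hboth hA1 hB1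
    have hk : kap (uu V r) (sp (A ∪ B)) = 1 := by rw [sp_union]; exact hJ.kap_sup hA2
    exact le_of_kap_eq_one hU hL hk (h3 hk)
  · intro hk
    rw [hrkA (hmA.trans_lt hk), hc, hA.2.1 (hmA.trans_lt hk), hB.2.1 (hmB.trans_lt hk)]
  · intro heq _
    left
    by_cases hA1 : kap (uu V r) (sp A) < 1
    · exfalso
      rw [hrkA hA1, hA.2.1 hA1, hc] at heq
      have := hB.1
      have h5 := card_pos.2 hA0
      nlinarith
    by_cases hB1 : kap (uu V r) (sp B) < 1
    · exfalso
      rw [hrkB hB1, hB.2.1 hB1, hc] at heq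
      have := hA.1
      have h5 := card_pos.2 hB0
      nlinarith
    obtain ⟨hA2, hB2⟩ := hboth hA1 hB1
    rw [sp_union]; exact hJ.kap_sup hA2

theorem main_empty {r : ℕ} : Main r (∅ : Finset (Finset V)) := by
  have h1 : sp (∅ : Finset (Finset V)) = ⊥ := by simp [sp]
  have h2 : rk (∅ : Finset (Finset V)) = 0 := by rw [rk, h1]; exact finrank_bot _ _
  have h3 : kap (uu V r) (sp (∅ : Finset (Finset V))) = 0 := by
    have : pr (uu V r) (sp (∅ : Finset (Finset V))) = 0 := by
      have := pr_mem (u := uu V r) (K := sp (∅ : Finset (Finset V)))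
      rw [h1, Submodule.mem_bot, ← h1] at this
      exact this
    rw [kap, this, inner_zero_left]
  refine ⟨by simp, fun _ => by rw [h2]; rfl, fun h => ?_, fun _ h => ?_⟩
  · rw [h3] at h; norm_num at h
  · exact absurd h (by simp)

theorem main_single {r : ℕ} (hr : 2 ≤ r) {e : Finset V} (he : e.card = r) :
    Main r ({e} : Finset (Finset V)) := by
  have hU : ∀ f ∈ ({e} : Finset (Finset V)), f.card = r := by
    intro f hf; rw [mem_singleton.1 hf]; exact he
  have hne : chi e ≠ 0 := by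
    intro h0
    have := inner_chi_uu hr he
    rw [h0, inner_zero_left] at this
    norm_num at this
  have h2 : rk ({e} : Finset (Finset V)) = 1 := by
    have : sp ({e} : Finset (Finset V)) = Submodule.span ℝ {chi e} := by simp [sp]
    rw [rk, this]
    exact finrank_span_singleton hne
  have h3 := kap_le_card hr hU
  rw [card_singleton] at h3
  have hr' : (2 : ℝ) ≤ r := by exact_mod_cast hr
  have h4 : kap (uu V r) (sp ({e} : Finset (Finset V))) < 1 := by
    push_cast at h3
    by_contra h5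
    push Not at h5
    nlinarith
  refine ⟨?_, fun _ => by rw [h2]; rfl, fun h => ?_, fun h => ?_⟩
  · rw [h2, card_singleton]; omega
  · rw [h] at h4; exact absurd h4 (lt_irrefl _)
  · rw [h2, card_singleton] at h; omega

/-- The main induction. -/
theorem main {r : ℕ} (hr : 2 ≤ r) (F : Finset (Finset V)) (hU : ∀ e ∈ F, e.card = r)
    (hL : ∀ e ∈ F, ∀ f ∈ F, e ≠ f → (e ∩ f).card ≤ 1)
    (hP : ¬ HasP4 (fun e f : Finset V => ¬ Disjoint e f) F) : Main r F := by
  induction F using Finset.strongInduction with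
  | H F ih =>
    have hsub : ∀ A ⊆ F, ¬ HasP4 (fun e f : Finset V => ¬ Disjoint e f) A := by
      rintro A hA ⟨a, ha, b, hb, c, hc, d, hd, h⟩
      exact hP ⟨a, hA ha, b, hA hb, c, hA hc, d, hA hd, h⟩
    rcases Nat.lt_or_ge F.card 2 with h | h
    · rcases Nat.eq_zero_or_pos F.card with h0 | h0
      · rw [card_eq_zero] at h0
        rw [h0]; exact main_empty
      · have h1 : F.card = 1 := by omega
        obtain ⟨e, rfl⟩ := card_eq_one.1 h1
        exact main_single hr (hU e (mem_singleton_self _))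
    · obtain ⟨A, B, hA, hB, hAB, rfl, h2⟩ :=
        seinsche (fun a b (h : ¬ Disjoint a b) h' => h h'.symm) F h hP
      have hAs : A ⊂ A ∪ B := by
        refine ⟨subset_union_left, fun h3 => ?_⟩
        obtain ⟨b, hb⟩ := hB
        exact disjoint_left.1 hAB (h3 (mem_union_right _ hb)) hb
      have hBs : B ⊂ A ∪ B := by
        refine ⟨subset_union_right, fun h3 => ?_⟩
        obtain ⟨a, ha⟩ := hA
        exact disjoint_left.1 hAB ha (h3 (mem_union_left _ ha))
      have hmA := ih A hAs (fun e he => hU e (hAs.1 he))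
        (fun e he f hf => hL e (hAs.1 he) f (hAs.1 hf)) (hsub A hAs.1)
      have hmB := ih B hBs (fun e he => hU e (hBs.1 he))
        (fun e he f hf => hL e (hBs.1 he) f (hBs.1 hf)) (hsub B hBs.1)
      rcases h2 with h2 | h2
      · exact main_join hr hA hB hAB hU hL h2 hmA hmB
      · exact main_disj hr hA hB hAB hU (fun e he f hf => not_not.1 (h2 e he f hf)) hmA hmB

end Pool.Agent.V11142.PathFour
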