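import Pool.Agent.V11142.PathFourB

/-!
# Auxiliary results for `MP_d43ba4_co`: the equality case
-/

set_option autoImplicit false

namespace Pool.Agent.V11142.PathFour

open Finset

variable {V : Type*} [Fintype V] [DecidableEq V]

open scoped RealInnerProductSpace

/-- the constant vector on the vertices covered -/
noncomputable def uw (F : Finset (Finset V)) (r : ℕ) : EuclideanSpace ℝ V :=
  WithLp.toLp 2 (fun v => if v ∈ cov F then (1 : ℝ) / r else 0)

theorem inner_uw_eq {r : ℕ} {F : Finset (Finset V)} {z : EuclideanSpace ℝ V} (hz : z ∈ sp F) :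
    ⟪z, uw F r⟫ = ⟪z, uu V r⟫ := by
  simp only [uu, uw, PiLp.inner_apply, RCLike.inner_apply, conj_trivial]
  refine Finset.sum_congr rfl fun v _ => ?_
  by_cases hv : v ∈ cov F
  · simp [hv]
  · simp [hv, eq_zero_of_notMem hz hv]

theorem inner_uw_self {r : ℕ} (hr : 2 ≤ r) (F : Finset (Finset V)) :
    ⟪uw F r, uw F r⟫ = ((cov F).card : ℝ) / (r : ℝ) ^ 2 := by
  have hr0 : (r : ℝ) ≠ 0 := by positivity
  simp only [uw, PiLp.inner_apply, RCLike.inner_apply, conj_trivial]
  simp only [mul_ite, mul_zero, ite_mul, zero_mul]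
  have : ∀ v : V, (if v ∈ cov F then if v ∈ cov F then (1 : ℝ) / r * (1 / r) else 0 else 0) =
      if v ∈ cov F then (1 : ℝ) / r * (1 / r) else 0 := by
    intro v; split_ifs <;> rfl
  rw [Finset.sum_congr rfl fun v _ => this v, ← Finset.sum_filter, Finset.sum_const,
    nsmul_eq_mul, Finset.filter_mem_eq_inter, Finset.univ_inter]
  field_simp

/-- coordinate subspace -/
noncomputable def cs (S : Finset V) : Submodule ℝ (EuclideanSpace ℝ V) :=
  Submodule.span ℝ ((S.image fun v => chi ({v} : Finset V) : Finset (EuclideanSpace ℝ V)) :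
    Set (EuclideanSpace ℝ V))

theorem finrank_cs_le (S : Finset V) : Module.finrank ℝ (cs S) ≤ S.card :=
  (finrank_span_finset_le_card _).trans card_image_le

theorem mem_cs {S : Finset V} {c : V → ℝ} {w : EuclideanSpace ℝ V}
    (hw : ∀ v, w v = if v ∈ S then c v else 0) : w ∈ cs S := by
  have h1 : w = ∑ v ∈ S, c v • chi ({v} : Finset V) := by
    ext x
    rw [hw x]
    simp [chi, Finset.sum_apply]
  rw [h1]
  refine Submodule.sum_mem _ fun v hv => Submodule.smul_mem _ _ (Submodule.subset_span ?_)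
  exact mem_coe.2 (mem_image_of_mem _ hv)

theorem sp_le_cs (F : Finset (Finset V)) : sp F ≤ cs (cov F) := by
  refine Submodule.span_le.2 ?_
  rintro _ ⟨e, he, rfl⟩
  refine mem_cs (c := fun v => if v ∈ e then 1 else 0) ?_
  intro v
  by_cases hv : v ∈ e
  · have : v ∈ cov F := mem_biUnion.2 ⟨e, he, hv⟩
    simp [chi, hv, this]
  · simp [chi, hv]

theorem rk_le_cov (F : Finset (Finset V)) : rk F ≤ (cov F).card :=
  (Submodule.finrank_mono (sp_le_cs F)).trans (finrank_cs_le _)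

theorem cov_card_eq {r : ℕ} (hr : 2 ≤ r) {F : Finset (Finset V)} (hrk : rk F = (cov F).card)
    (hk : kap (uu V r) (sp F) = 1) : (cov F).card = r ^ 2 := by
  have h1 : sp F = cs (cov F) := by
    refine Submodule.eq_of_le_of_finrank_le (sp_le_cs F) ?_
    change _ ≤ rk F
    rw [hrk]; exact finrank_cs_le _
  have h2 : uw F r ∈ sp F := by
    rw [h1]
    exact mem_cs (c := fun _ => (1 : ℝ) / r) (fun v => by simp [uw])
  have h3 : uw F r = pr (uu V r) (sp F) := eq_pr h2 fun w hw => inner_uw_eq hw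
  rw [kap, ← h3, inner_uw_self hr] at hk
  have hr0 : (r : ℝ) ^ 2 ≠ 0 := by positivity
  rw [div_eq_one_iff_eq hr0] at hk
  exact_mod_cast hk

theorem offDiag_disjoint {F : Finset (Finset V)}
    (hL : ∀ e ∈ F, ∀ f ∈ F, e ≠ f → (e ∩ f).card ≤ 1) :
    (F : Set (Finset V)).PairwiseDisjoint (fun e : Finset V => e.offDiag) := by
  intro e he f hf hne
  rw [Function.onFun, disjoint_left]
  rintro ⟨x, y⟩ h1 h2
  rw [mem_offDiag] at h1 h2
  have h3 := hL e he f hf hne
  have h4 : ({x, y} : Finset V) ⊆ e ∩ f := by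
    intro z hz
    rw [mem_insert, mem_singleton] at hz
    rcases hz with rfl | rfl
    · exact mem_inter.2 ⟨h1.1, h2.1⟩
    · exact mem_inter.2 ⟨h1.2.1, h2.2.1⟩
  have h5 := card_le_card h4
  rw [card_pair h1.2.2] at h5
  omega

theorem card_biUnion_offDiag {r : ℕ} {F : Finset (Finset V)} (hU : ∀ e ∈ F, e.card = r)
    (hL : ∀ e ∈ F, ∀ f ∈ F, e ≠ f → (e ∩ f).card ≤ 1) :
    (F.biUnion fun e => e.offDiag).card = F.card * (r * r - r) := by
  rw [card_biUnion (offDiag_disjoint hL)]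
  calc ∑ e ∈ F, e.offDiag.card = ∑ _e ∈ F, (r * r - r) :=
        sum_congr rfl fun e he => by rw [offDiag_card, hU e he]
    _ = _ := by rw [sum_const, smul_eq_mul]

theorem exists_edge {r : ℕ} (hr : 2 ≤ r) {F : Finset (Finset V)} (hU : ∀ e ∈ F, e.card = r)
    (hL : ∀ e ∈ F, ∀ f ∈ F, e ≠ f → (e ∩ f).card ≤ 1)
    (hc : (cov F).card = r ^ 2) (hF : r * F.card = (r + 1) * (cov F).card) :
    ∀ x ∈ cov F, ∀ y ∈ cov F, x ≠ y → ∃ e ∈ F, x ∈ e ∧ y ∈ e := by
  have h1 : F.card = r * (r + 1) := by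
    rw [hc] at hF
    have : r * F.card = r * (r * (r + 1)) := by rw [hF]; ring
    exact Nat.eq_of_mul_eq_mul_left (by omega) this
  have h2 : (F.biUnion fun e => e.offDiag) ⊆ (cov F).offDiag := by
    intro p hp
    obtain ⟨e, he, hp⟩ := mem_biUnion.1 hp
    rw [mem_offDiag] at hp ⊢
    exact ⟨mem_biUnion.2 ⟨e, he, hp.1⟩, mem_biUnion.2 ⟨e, he, hp.2.1⟩, hp.2.2⟩
  have h3 : (cov F).offDiag.card ≤ (F.biUnion fun e => e.offDiag).card := by
    rw [card_biUnion_offDiag hU hL, offDiag_card, hc, h1]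
    have : r * (r + 1) * (r * r - r) = r ^ 2 * r ^ 2 - r ^ 2 := by
      obtain ⟨s, rfl⟩ : ∃ s, r = s + 1 := ⟨r - 1, by omega⟩
      have e1 : (s + 1) * (s + 1) - (s + 1) = (s + 1) * s := by
        rw [mul_add, mul_one, Nat.add_sub_cancel]
      rw [e1]
      symm
      rw [Nat.sub_eq_iff_eq_add (by nlinarith [sq_nonneg s])]
      ring
    rw [this]
  have h4 := eq_of_subset_of_card_le h2 h3
  intro x hx y hy hxy
  have h5 : (x, y) ∈ (F.biUnion fun e => e.offDiag) := by
    rw [h4, mem_offDiag]; exact ⟨hx, hy, hxy⟩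
  obtain ⟨e, he, hp⟩ := mem_biUnion.1 h5
  rw [mem_offDiag] at hp
  exact ⟨e, he, hp.1, hp.2.1⟩

theorem cov_union (A B : Finset (Finset V)) : cov (A ∪ B) = cov A ∪ cov B := by
  ext v
  simp only [cov, mem_biUnion, mem_union, id]
  constructor
  · rintro ⟨e, he | he, hv⟩
    · exact Or.inl ⟨e, he, hv⟩
    · exact Or.inr ⟨e, he, hv⟩
  · rintro (⟨e, he, hv⟩ | ⟨e, he, hv⟩)
    · exact ⟨e, Or.inl he, hv⟩
    · exact ⟨e, Or.inr he, hv⟩

theorem cov_disjoint {A B : Finset (Finset V)} (h : ∀ e ∈ A, ∀ f ∈ B, Disjoint e f) :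
    Disjoint (cov A) (cov B) := by
  rw [disjoint_left]
  intro v h1 h2
  obtain ⟨e, he, hv⟩ := mem_biUnion.1 h1
  obtain ⟨f, hf, hv'⟩ := mem_biUnion.1 h2
  exact disjoint_left.1 (h e he f hf) hv hv'

theorem bound {r : ℕ} (hr : 2 ≤ r) (F : Finset (Finset V)) (hU : ∀ e ∈ F, e.card = r)
    (hL : ∀ e ∈ F, ∀ f ∈ F, e ≠ f → (e ∩ f).card ≤ 1)
    (hP : ¬ HasP4 (fun e f : Finset V => ¬ Disjoint e f) F) :
    r * F.card ≤ (r + 1) * (cov F).card :=
  (main hr F hU hL hP).1.trans (Nat.mul_le_mul_left _ (rk_le_cov F))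

/-- The structure in the equality case. -/
theorem structure_of_eq {r : ℕ} (hr : 2 ≤ r) (F : Finset (Finset V)) (hU : ∀ e ∈ F, e.card = r)
    (hL : ∀ e ∈ F, ∀ f ∈ F, e ≠ f → (e ∩ f).card ≤ 1)
    (hP : ¬ HasP4 (fun e f : Finset V => ¬ Disjoint e f) F)
    (heq : r * F.card = (r + 1) * (cov F).card) :
    ∃ P : Finset (Finset V), (P : Set (Finset V)).PairwiseDisjoint id ∧ P.biUnion id = cov F ∧
      (∀ B ∈ P, B.card = r ^ 2 ∧ ∀ x ∈ B, ∀ y ∈ B, x ≠ y → ∃ e ∈ F, x ∈ e ∧ y ∈ e) ∧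
      ∀ e ∈ F, ∃ B ∈ P, e ⊆ B := by
  induction F using Finset.strongInduction with
  | H F ih =>
    rcases F.eq_empty_or_nonempty with rfl | hF
    · exact ⟨∅, by simp, by simp [cov], by simp, by simp⟩
    have hm := main hr F hU hL hP
    have h1 := rk_le_cov F
    have h2 : rk F = (cov F).card := by
      refine le_antisymm h1 ?_
      have := hm.1
      rw [heq] at this
      exact Nat.le_of_mul_le_mul_left this (by omega)
    rcases hm.2.2.2 (by rw [h2]; exact heq) hF with hk | ⟨A, B, hA, hB, hAB, rfl, hd⟩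
    · have h3 := cov_card_eq hr h2 hk
      refine ⟨{cov F}, by simp, by simp, ?_, ?_⟩
      · intro B hB
        rw [mem_singleton] at hB
        rw [hB]
        exact ⟨h3, exists_edge hr hU hL h3 heq⟩
      · intro e he
        exact ⟨cov F, mem_singleton_self _, fun v hv => mem_biUnion.2 ⟨e, he, hv⟩⟩
    · have hAs : A ⊂ A ∪ B := by
        refine ⟨subset_union_left, fun h3 => ?_⟩
        obtain ⟨b, hb⟩ := hB
        exact disjoint_left.1 hAB (h3 (mem_union_right _ hb)) hb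
      have hBs : B ⊂ A ∪ B := by
        refine ⟨subset_union_right, fun h3 => ?_⟩
        obtain ⟨a, ha⟩ := hA
        exact disjoint_left.1 hAB ha (h3 (mem_union_left _ ha))
      have hsub : ∀ A' ⊆ A ∪ B, ¬ HasP4 (fun e f : Finset V => ¬ Disjoint e f) A' := by
        rintro A' hA' ⟨a, ha, b, hb, c, hc, d, hd, h⟩
        exact hP ⟨a, hA' ha, b, hA' hb, c, hA' hc, d, hA' hd, h⟩
      have hUA : ∀ e ∈ A, e.card = r := fun e he => hU e (hAs.1 he)
      have hUB : ∀ e ∈ B, e.card = r := fun e he => hU e (hBs.1 he)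
      have hLA : ∀ e ∈ A, ∀ f ∈ A, e ≠ f → (e ∩ f).card ≤ 1 :=
        fun e he f hf => hL e (hAs.1 he) f (hAs.1 hf)
      have hLB : ∀ e ∈ B, ∀ f ∈ B, e ≠ f → (e ∩ f).card ≤ 1 :=
        fun e he f hf => hL e (hBs.1 he) f (hBs.1 hf)
      have hbA := bound hr A hUA hLA (hsub A hAs.1)
      have hbB := bound hr B hUB hLB (hsub B hBs.1)
      have hcd := cov_disjoint hd
      rw [cov_union, card_union_of_disjoint hcd, card_union_of_disjoint hAB] at heq
      have hqA : r * A.card = (r + 1) * (cov A).card := by nlinarith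
      have hqB : r * B.card = (r + 1) * (cov B).card := by nlinarith
      obtain ⟨P, hP1, hP2, hP3, hP4⟩ := ih A hAs hUA hLA (hsub A hAs.1) hqA
      obtain ⟨Q, hQ1, hQ2, hQ3, hQ4⟩ := ih B hBs hUB hLB (hsub B hBs.1) hqB
      refine ⟨P ∪ Q, ?_, ?_, ?_, ?_⟩
      · rw [coe_union, Set.pairwiseDisjoint_union]
        refine ⟨hP1, hQ1, ?_⟩
        intro X hX Y hY _
        refine disjoint_of_subset_left ?_ (disjoint_of_subset_right ?_ hcd)
        · rw [← hP2]; exact subset_biUnion_of_mem id hX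
        · rw [← hQ2]; exact subset_biUnion_of_mem id hY
      · rw [cov_union, ← hP2, ← hQ2]
        ext v; simp only [mem_biUnion, mem_union, id]
        constructor
        · rintro ⟨e, he | he, hv⟩
          · exact Or.inl ⟨e, he, hv⟩
          · exact Or.inr ⟨e, he, hv⟩
        · rintro (⟨e, he, hv⟩ | ⟨e, he, hv⟩)
          · exact ⟨e, Or.inl he, hv⟩
          · exact ⟨e, Or.inr he, hv⟩
      · intro X hX
        rcases mem_union.1 hX with hX | hX
        · refine ⟨(hP3 X hX).1, fun x hx y hy hxy => ?_⟩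
          obtain ⟨e, he, h5⟩ := (hP3 X hX).2 x hx y hy hxy
          exact ⟨e, mem_union_left _ he, h5⟩
        · refine ⟨(hQ3 X hX).1, fun x hx y hy hxy => ?_⟩
          obtain ⟨e, he, h5⟩ := (hQ3 X hX).2 x hx y hy hxy
          exact ⟨e, mem_union_right _ he, h5⟩
      · intro e he
        rcases mem_union.1 he with he | he
        · obtain ⟨X, hX, h5⟩ := hP4 e he
          exact ⟨X, mem_union_left _ hX, h5⟩
        · obtain ⟨X, hX, h5⟩ := hQ4 e he
          exact ⟨X, mem_union_right _ hX, h5⟩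

end Pool.Agent.V11142.PathFour
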