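import Mathlib

/-!
Greedy hitting sets, traces and packings of set systems in which no `D` points are shattered.
-/

namespace Pool.Agent.V11142.Rodl

open Finset

open scoped Classical in
/-- The number of points with a property, as a real number. -/
noncomputable def cn {V : Type*} [Fintype V] (p : V → Prop) : ℝ :=
  ((univ.filter (fun v => p v)).card : ℝ)

open scoped Classical in
/-- The number of elements of `Z` with a property, as a real number. -/
noncomputable def cs {ζ : Type*} (Z : Finset ζ) (p : ζ → Prop) : ℝ :=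
  ((Z.filter (fun z => p z)).card : ℝ)

theorem cs_le_card {ζ : Type*} (Z : Finset ζ) (p : ζ → Prop) : cs Z p ≤ (Z.card : ℝ) := by
  classical
  unfold cs
  exact Nat.cast_le.2 (card_filter_le _ _)

theorem cs_eq {ζ : Type*} (Z : Finset ζ) (p : ζ → Prop) [DecidablePred p] :
    cs Z p = ((Z.filter (fun z => p z)).card : ℝ) := by
  unfold cs
  congr

theorem cs_eq_zero_of_lt_one {ζ : Type*} {Z : Finset ζ} {p : ζ → Prop} (h : cs Z p < 1) :
    ∀ z ∈ Z, ¬ p z := by
  classical
  intro z hz hp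
  have h1 : (1 : ℝ) ≤ cs Z p := by
    unfold cs
    have : 0 < (Z.filter (fun z => p z)).card := card_pos.2 ⟨z, mem_filter.2 ⟨hz, hp⟩⟩
    exact_mod_cast this
  linarith

open scoped Classical in
/-- Greedy hitting lemma: if every item is hit by a `β`-proportion of the points, then some `m`
points miss at most a `(1-β)^m`-proportion of the items. -/
theorem hit {ζ V : Type*} [Fintype V] [Nonempty V] (Z : Finset ζ) (B : ζ → V → Prop) (β : ℝ)
    (hβ1 : β ≤ 1)
    (h : ∀ z ∈ Z, β * (Fintype.card V : ℝ) ≤ cn (B z)) (m : ℕ) :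
    ∃ S : Finset V, S.card ≤ m ∧
      cs Z (fun z => ∀ v ∈ S, ¬ B z v) ≤ (1 - β) ^ m * (Z.card : ℝ) := by
  induction m with
  | zero =>
    refine ⟨∅, by simp, ?_⟩
    simp only [pow_zero, one_mul]
    exact cs_le_card _ _
  | succ m ih =>
    obtain ⟨S, hS, hR⟩ := ih
    set p : ζ → Prop := fun z => ∀ v ∈ S, ¬ B z v with hp
    set R := Z.filter (fun z => p z) with hRdef
    have hRc : cs Z p = (R.card : ℝ) := cs_eq Z p
    rw [hRc] at hR
    have hV : (0 : ℝ) < Fintype.card V := by exact_mod_cast Fintype.card_pos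
    -- find a good point
    have hex : ∃ v : V, β * (R.card : ℝ) ≤ ((R.filter (fun z => B z v)).card : ℝ) := by
      by_contra hcon
      push Not at hcon
      have h1 : ∑ v : V, ((R.filter (fun z => B z v)).card : ℝ) < ∑ v : V, β * (R.card : ℝ) :=
        sum_lt_sum_of_nonempty univ_nonempty (fun v _ => hcon v)
      have h2 : ∑ v : V, ((R.filter (fun z => B z v)).card : ℝ)
          = ∑ z ∈ R, ((univ.filter (fun v => B z v)).card : ℝ) := by
        simp only [card_filter, Nat.cast_sum]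
        rw [sum_comm]
      have h3 : ∑ z ∈ R, β * (Fintype.card V : ℝ)
          ≤ ∑ z ∈ R, ((univ.filter (fun v => B z v)).card : ℝ) := by
        apply sum_le_sum
        intro z hz
        exact h z (mem_filter.1 hz).1
      simp only [sum_const, nsmul_eq_mul, card_univ] at h1 h3
      rw [h2] at h1
      nlinarith
    obtain ⟨v, hv⟩ := hex
    refine ⟨insert v S, (card_insert_le _ _).trans (by omega), ?_⟩
    have hsub : cs Z (fun z => ∀ w ∈ insert v S, ¬ B z w)
        = ((R.filter (fun z => ¬ B z v)).card : ℝ) := by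
      unfold cs
      congr 2
      ext z
      simp only [hRdef, hp, mem_filter, mem_insert, forall_eq_or_imp]
      tauto
    rw [hsub]
    have hsplit : ((R.filter (fun z => B z v)).card : ℝ) + ((R.filter (fun z => ¬ B z v)).card : ℝ)
        = (R.card : ℝ) := by
      have := card_filter_add_card_filter_not (s := R) (fun z => B z v)
      exact_mod_cast this
    have : ((R.filter (fun z => ¬ B z v)).card : ℝ) ≤ (1 - β) * (R.card : ℝ) := by linarith
    calc ((R.filter (fun z => ¬ B z v)).card : ℝ) ≤ (1 - β) * (R.card : ℝ) := this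
      _ ≤ (1 - β) * ((1 - β) ^ m * (Z.card : ℝ)) := by
          apply mul_le_mul_of_nonneg_left hR; linarith
      _ = (1 - β) ^ (m + 1) * (Z.card : ℝ) := by ring

/-- No `D` points (of `α`) are shattered by the sets `{x | R x y}`, `y : β`. -/
def NoSh {α β : Type*} (D : ℕ) (R : α → β → Prop) : Prop :=
  ¬ ∃ x : Fin D → α, ∀ s : Fin D → Bool, ∃ y : β, ∀ i, R (x i) y ↔ s i = true

theorem card_small (D : ℕ) {V : Type*} [DecidableEq V] (S : Finset V) :
    ((S.powerset).filter (fun T => T.card < D)).card ≤ (S.card + 1) ^ D := by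
  induction D with
  | zero => simp
  | succ D ih =>
    rcases Nat.eq_zero_or_pos D with hD | hD
    · subst hD
      have hsub : (S.powerset).filter (fun T => T.card < 0 + 1) ⊆ {∅} := by
        intro T hT
        simp only [mem_filter, mem_powerset, mem_singleton] at hT ⊢
        exact card_eq_zero.1 (by omega)
      have h1 := card_le_card hsub
      rw [card_singleton] at h1
      exact h1.trans (Nat.one_le_pow _ _ (by omega))
    have hsub : (S.powerset).filter (fun T => T.card < D + 1)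
        ⊆ (S.powerset).filter (fun T => T.card < D) ∪ S.powersetCard D := by
      intro T hT
      simp only [mem_filter, mem_powerset, mem_union, mem_powersetCard] at hT ⊢
      rcases Nat.lt_succ_iff_lt_or_eq.1 hT.2 with h | h
      · exact Or.inl ⟨hT.1, h⟩
      · exact Or.inr ⟨hT.1, h⟩
    have h1 := (card_le_card hsub).trans (card_union_le _ _)
    rw [card_powersetCard] at h1
    have h2 : S.card.choose D ≤ S.card * (S.card + 1) ^ D := by
      rcases Nat.eq_zero_or_pos S.card with h0 | h0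
      · rw [h0, Nat.choose_eq_zero_of_lt hD]; omega
      · calc S.card.choose D ≤ S.card ^ D := Nat.choose_le_pow _ _
          _ ≤ (S.card + 1) ^ D := Nat.pow_le_pow_left (by omega) _
          _ ≤ S.card * (S.card + 1) ^ D := Nat.le_mul_of_pos_left _ h0
    calc _ ≤ _ := h1
      _ ≤ (S.card + 1) ^ D + S.card * (S.card + 1) ^ D := Nat.add_le_add ih h2
      _ = (S.card + 1) ^ (D + 1) := by ring

open scoped Classical in
/-- Sauer and Shelah in the form needed: few distinct traces. -/
theorem card_traces {ι V : Type*} (D : ℕ) (F : ι → V → Prop)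
    (hsh : NoSh D (fun (v : V) (i : ι) => F i v)) (R : Finset ι) (S : Finset V)
    (hinj : Set.InjOn (fun i => S.filter (fun v => F i v)) (R : Set ι)) :
    R.card ≤ (S.card + 1) ^ D := by
  classical
  set A : Finset (Finset V) := R.image (fun i => S.filter (fun v => F i v)) with hA
  have hcard : A.card = R.card := card_image_of_injOn hinj
  rw [← hcard]
  refine (card_le_card_shatterer A).trans ?_
  refine le_trans (card_le_card ?_) (card_small D S)
  intro T hT
  rw [mem_shatterer] at hT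
  simp only [mem_filter, mem_powerset]
  have hTS : T ⊆ S := by
    obtain ⟨u, hu, hTu⟩ := hT (Subset.refl T)
    rw [hA, mem_image] at hu
    obtain ⟨i, _, rfl⟩ := hu
    intro x hx
    rw [← hTu] at hx
    exact (mem_filter.1 (mem_inter.1 hx).2).1
  refine ⟨hTS, ?_⟩
  by_contra hcon
  push Not at hcon
  apply hsh
  obtain ⟨T', hT'T, hT'c⟩ := exists_subset_card_eq hcon
  let e : Fin D ≃ T' := (Fintype.equivFinOfCardEq (by simp [hT'c])).symm
  refine ⟨fun i => (e i : V), fun s => ?_⟩
  set t : Finset V := T'.filter (fun v => ∃ i, (e i : V) = v ∧ s i = true) with ht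
  have htT : t ⊆ T := (filter_subset _ _).trans hT'T
  obtain ⟨u, hu, hTu⟩ := hT htT
  rw [hA, mem_image] at hu
  obtain ⟨i0, _, rfl⟩ := hu
  refine ⟨i0, fun k => ?_⟩
  have hkT' : (e k : V) ∈ T' := (e k).2
  have hkS : (e k : V) ∈ S := hTS (hT'T hkT')
  constructor
  · intro hF
    have : (e k : V) ∈ t := by
      rw [← hTu]
      exact mem_inter.2 ⟨hT'T hkT', mem_filter.2 ⟨hkS, hF⟩⟩
    rw [ht, mem_filter] at this
    obtain ⟨i, hi, hs⟩ := this.2
    have : i = k := e.injective (Subtype.ext hi)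
    rw [← this]; exact hs
  · intro hs
    have : (e k : V) ∈ t := by
      rw [ht, mem_filter]
      exact ⟨hkT', k, rfl, hs⟩
    rw [← hTu] at this
    exact (mem_filter.1 (mem_inter.1 this).2).2

theorem numeric (D : ℕ) : ∃ n : ℕ, ∀ η : ℝ, 0 < η → η ≤ 1 / 2 → ∃ m : ℕ,
    (((m : ℝ) + 1) ^ D + 1) ^ 2 * (1 - η) ^ m < 1 ∧ ((m : ℝ) + 1) ^ D ≤ (1 / η) ^ n := by
  set k : ℕ := 4 * D + 4 with hk
  set A : ℝ := 4 * (k.factorial : ℝ) * 4 ^ (2 * D + 2) with hA
  have hA1 : 1 ≤ A := by
    have h1 : (1 : ℝ) ≤ (k.factorial : ℝ) := by exact_mod_cast Nat.succ_le_of_lt k.factorial_pos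
    have h2 : (1 : ℝ) ≤ 4 ^ (2 * D + 2) := one_le_pow₀ (by norm_num)
    rw [hA]; nlinarith
  obtain ⟨j, hj⟩ := pow_unbounded_of_one_lt (A + 2) (by norm_num : (1 : ℝ) < 2)
  refine ⟨(j + 2) * D, fun η hη hη2 => ?_⟩
  have hinv : 2 ≤ 1 / η := by
    rw [le_div_iff₀ hη]; linarith
  set m : ℕ := ⌈A * (1 / η) ^ 2⌉₊ with hm
  have hm1 : A * (1 / η) ^ 2 ≤ m := Nat.le_ceil _
  have hm2 : (m : ℝ) < A * (1 / η) ^ 2 + 1 := Nat.ceil_lt_add_one (by positivity)
  have hinv2 : 4 ≤ (1 / η) ^ 2 := by nlinarith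
  have hm4 : (4 : ℝ) ≤ m := by nlinarith
  refine ⟨m, ?_, ?_⟩
  · have hηm : 0 < η * m := by positivity
    have hexp : (1 - η) ^ m ≤ (k.factorial : ℝ) / (η * m) ^ k := by
      have h1 : (1 - η) ^ m ≤ Real.exp (-(η * m)) := by
        have := Real.one_sub_le_exp_neg η
        calc (1 - η) ^ m ≤ (Real.exp (-η)) ^ m := pow_le_pow_left₀ (by linarith) this m
          _ = Real.exp (-(η * m)) := by rw [← Real.exp_nat_mul]; ring_nf
      have h2 : (η * m) ^ k / (k.factorial : ℝ) ≤ Real.exp (η * m) :=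
        Real.pow_div_factorial_le_exp _ hηm.le k
      have h3 : Real.exp (-(η * m)) = 1 / Real.exp (η * m) := by rw [Real.exp_neg, one_div]
      rw [h3] at h1
      refine h1.trans ?_
      rw [div_le_div_iff₀ (Real.exp_pos _) (by positivity)]
      rw [div_le_iff₀ (by positivity)] at h2
      linarith
    have hb : ((m : ℝ) + 1) ^ D + 1 ≤ (2 * m) ^ (D + 1) := by
      have h1 : ((m : ℝ) + 1) ^ D ≤ (2 * m) ^ D := pow_le_pow_left₀ (by positivity) (by linarith) _
      have h2 : (1 : ℝ) ≤ (2 * m) ^ D := one_le_pow₀ (by linarith)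
      have h3 : (2 * (m : ℝ)) ^ (D + 1) = (2 * m) ^ D * (2 * m) := pow_succ _ _
      rw [h3]; nlinarith
    have hb2 : (((m : ℝ) + 1) ^ D + 1) ^ 2 ≤ (2 * m) ^ (2 * D + 2) := by
      calc (((m : ℝ) + 1) ^ D + 1) ^ 2 ≤ ((2 * m) ^ (D + 1)) ^ 2 :=
            pow_le_pow_left₀ (by positivity) hb 2
        _ = (2 * m) ^ (2 * D + 2) := by rw [← pow_mul]; ring_nf
    have hpos : 0 ≤ (1 - η) ^ m := pow_nonneg (by linarith) _
    calc (((m : ℝ) + 1) ^ D + 1) ^ 2 * (1 - η) ^ m
        ≤ (2 * m) ^ (2 * D + 2) * ((k.factorial : ℝ) / (η * m) ^ k) :=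
          mul_le_mul hb2 hexp hpos (by positivity)
      _ < 1 := by
          rw [← mul_div_assoc, div_lt_one (by positivity)]
          have hk2 : k = (2 * D + 2) + (2 * D + 2) := by omega
          rw [hk2, pow_add (η * (m:ℝ))]
          have h5 : (2 * (m : ℝ)) ^ (2 * D + 2) * (((2 * D + 2) + (2 * D + 2)).factorial : ℝ)
              < (η * m) ^ (2 * D + 2) * (η * m) ^ (2 * D + 2) := by
            rw [← mul_pow]
            have h6 : η * (m : ℝ) * (η * m) = (η ^ 2 * m) * m := by ring
            rw [h6, mul_pow 2 (m : ℝ), mul_pow (η ^ 2 * (m : ℝ)) (m : ℝ)]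
            have h7 : A ≤ η ^ 2 * m := by
              have : A * (1 / η) ^ 2 * η ^ 2 ≤ m * η ^ 2 :=
                mul_le_mul_of_nonneg_right hm1 (by positivity)
              have h8 : A * (1 / η) ^ 2 * η ^ 2 = A := by field_simp
              linarith
            have h9 : A ≤ (η ^ 2 * m) ^ (2 * D + 2) := by
              calc A ≤ A ^ (2 * D + 2) := le_self_pow₀ hA1 (by omega)
                _ ≤ _ := pow_le_pow_left₀ (by linarith) h7 _
            have h10 : (2 : ℝ) ^ (2 * D + 2) * (((2 * D + 2) + (2 * D + 2)).factorial : ℝ) < A := by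
              rw [hA, ← hk2]
              have h11 : (1 : ℝ) ≤ (k.factorial : ℝ) := by
                exact_mod_cast Nat.succ_le_of_lt k.factorial_pos
              have h12 : (2 : ℝ) ^ (2 * D + 2) ≤ 4 ^ (2 * D + 2) :=
                pow_le_pow_left₀ (by norm_num) (by norm_num) _
              have h13 : (0 : ℝ) < 4 ^ (2 * D + 2) := by positivity
              nlinarith [mul_pos (lt_of_lt_of_le one_pos h11) h13]
            have hmp : (0 : ℝ) < (m : ℝ) ^ (2 * D + 2) := by positivity
            calc (2 : ℝ) ^ (2 * D + 2) * (m : ℝ) ^ (2 * D + 2)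
                  * (((2 * D + 2) + (2 * D + 2)).factorial : ℝ)
                = (2 ^ (2 * D + 2) * (((2 * D + 2) + (2 * D + 2)).factorial : ℝ))
                  * (m : ℝ) ^ (2 * D + 2) := by ring
              _ < A * (m : ℝ) ^ (2 * D + 2) := mul_lt_mul_of_pos_right h10 hmp
              _ ≤ (η ^ 2 * m) ^ (2 * D + 2) * (m : ℝ) ^ (2 * D + 2) :=
                  mul_le_mul_of_nonneg_right h9 hmp.le
          exact h5
  · rw [pow_mul]
    apply pow_le_pow_left₀ (by positivity)
    have h1 : (m : ℝ) + 1 ≤ (A + 2) * (1 / η) ^ 2 := by nlinarith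
    have h2 : A + 2 ≤ (1 / η) ^ j := hj.le.trans (pow_le_pow_left₀ (by norm_num) hinv _)
    calc (m : ℝ) + 1 ≤ (A + 2) * (1 / η) ^ 2 := h1
      _ ≤ (1 / η) ^ j * (1 / η) ^ 2 := mul_le_mul_of_nonneg_right h2 (by positivity)
      _ = (1 / η) ^ (j + 2) := by rw [pow_add]

open scoped Classical in
/-- Polynomial packing bound. -/
theorem packing (D : ℕ) : ∃ n : ℕ, ∀ η : ℝ, 0 < η → η ≤ 1 / 2 →
    ∀ {ι V : Type} [Fintype V] [Nonempty V] (F : ι → V → Prop),
      NoSh D (fun (v : V) (i : ι) => F i v) → ∀ R : Finset ι,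
      (∀ i ∈ R, ∀ j ∈ R, i ≠ j → η * (Fintype.card V : ℝ)
        ≤ cn (fun v => ¬ (F i v ↔ F j v))) →
      (R.card : ℝ) ≤ (1 / η) ^ n := by
  obtain ⟨n, hn⟩ := numeric D
  refine ⟨n, fun η hη hη2 ι V _ _ F hsh R hR => ?_⟩
  obtain ⟨m, hm1, hm2⟩ := hn η hη hη2
  refine le_trans ?_ hm2
  by_contra hcon
  push Not at hcon
  have hcon' : (m + 1) ^ D + 1 ≤ R.card := by
    have : ((m + 1) ^ D : ℕ) < R.card := by exact_mod_cast hcon
    omega
  obtain ⟨R', hR'R, hR'c⟩ := exists_subset_card_eq hcon'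
  set B : ι × ι → V → Prop := fun p v => ¬ (F p.1 v ↔ F p.2 v) with hB
  obtain ⟨S, hSm, hS⟩ := hit (R'.offDiag) B η
    (by linarith) (by
      intro p hp
      rw [mem_offDiag] at hp
      exact hR _ (hR'R hp.1) _ (hR'R hp.2.1) hp.2.2) m
  have hlt : cs R'.offDiag (fun z => ∀ v ∈ S, ¬ B z v) < 1 := by
    refine lt_of_le_of_lt hS ?_
    have h1 : (R'.offDiag.card : ℝ) ≤ (((m : ℝ) + 1) ^ D + 1) ^ 2 := by
      rw [offDiag_card]
      have : R'.card * R'.card - R'.card ≤ R'.card * R'.card := Nat.sub_le _ _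
      calc ((R'.card * R'.card - R'.card : ℕ) : ℝ) ≤ ((R'.card * R'.card : ℕ) : ℝ) := by
            exact_mod_cast this
        _ = (((m : ℝ) + 1) ^ D + 1) ^ 2 := by rw [hR'c]; push_cast; ring
    calc (1 - η) ^ m * (R'.offDiag.card : ℝ)
        ≤ (1 - η) ^ m * (((m : ℝ) + 1) ^ D + 1) ^ 2 :=
          mul_le_mul_of_nonneg_left h1 (pow_nonneg (by linarith) _)
      _ = (((m : ℝ) + 1) ^ D + 1) ^ 2 * (1 - η) ^ m := by ring
      _ < 1 := hm1
  have hempty := cs_eq_zero_of_lt_one hlt
  have hle : R'.card ≤ (S.card + 1) ^ D := by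
    refine card_traces D F hsh R' S ?_
    intro i hi j hj hij
    by_contra hne
    apply hempty (i, j) (mem_offDiag.2 ⟨hi, hj, hne⟩)
    intro v hv
    simp only [hB, not_not]
    simp only at hij
    constructor
    · intro hF
      have : v ∈ S.filter (fun v => F i v) := mem_filter.2 ⟨hv, hF⟩
      rw [hij] at this
      exact (mem_filter.1 this).2
    · intro hF
      have : v ∈ S.filter (fun v => F j v) := mem_filter.2 ⟨hv, hF⟩
      rw [← hij] at this
      exact (mem_filter.1 this).2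
  have h2 : (S.card + 1) ^ D ≤ (m + 1) ^ D := Nat.pow_le_pow_left (by omega) _
  omega

theorem cn_nonneg {V : Type*} [Fintype V] (p : V → Prop) : 0 ≤ cn p := Nat.cast_nonneg _

theorem cn_mono {V : Type*} [Fintype V] {p q : V → Prop} (h : ∀ v, p v → q v) : cn p ≤ cn q := by
  classical
  unfold cn
  exact_mod_cast card_le_card (monotone_filter_right _ (fun v _ hv => h v hv))

theorem cn_congr {V : Type*} [Fintype V] {p q : V → Prop} (h : ∀ v, p v ↔ q v) : cn p = cn q :=
  le_antisymm (cn_mono (fun v => (h v).1)) (cn_mono (fun v => (h v).2))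

/-- Polynomial covers. -/
theorem cover (D : ℕ) : ∃ n : ℕ, ∀ η : ℝ, 0 < η → η ≤ 1 / 2 →
    ∀ {ι V : Type} [Fintype V] [Nonempty V] (F : ι → V → Prop),
      NoSh D (fun (v : V) (i : ι) => F i v) → ∀ I : Finset ι,
      ∃ R : Finset ι, R ⊆ I ∧ (R.card : ℝ) ≤ (1 / η) ^ n ∧
      ∀ i ∈ I, ∃ j ∈ R, cn (fun v => ¬ (F i v ↔ F j v)) < η * (Fintype.card V : ℝ) := by
  classical
  obtain ⟨n, hn⟩ := packing D
  refine ⟨n, fun η hη hη2 ι V _ _ F hsh I => ?_⟩
  set sep : Finset ι → Prop := fun R => ∀ i ∈ R, ∀ j ∈ R, i ≠ j → η * (Fintype.card V : ℝ)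
        ≤ cn (fun v => ¬ (F i v ↔ F j v)) with hsep
  obtain ⟨R, hRmem, hRmax⟩ := (I.powerset.filter sep).exists_max_image (fun R => R.card)
    ⟨∅, by rw [mem_filter]; exact ⟨empty_mem_powerset _, by intro i hi; simp at hi⟩⟩
  rw [mem_filter, mem_powerset] at hRmem
  refine ⟨R, hRmem.1, hn η hη hη2 F hsh R hRmem.2, ?_⟩
  intro i hi
  by_contra hcon
  have hcon' : ∀ j ∈ R, η * (Fintype.card V : ℝ) ≤ cn (fun v => ¬ (F i v ↔ F j v)) := by
    intro j hj
    by_contra h
    exact hcon ⟨j, hj, not_le.1 h⟩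
  have hiR : i ∉ R := by
    intro hiR
    have := hcon' i hiR
    have h0 : cn (fun v => ¬ (F i v ↔ F i v)) = 0 := by simp [cn]
    rw [h0] at this
    have hV : (0 : ℝ) < Fintype.card V := by exact_mod_cast Fintype.card_pos
    nlinarith
  have hsep' : sep (insert i R) := by
    intro a ha b hb hab
    rw [mem_insert] at ha hb
    rcases ha with rfl | ha
    · rcases hb with rfl | hb
      · exact absurd rfl hab
      · exact hcon' b hb
    · rcases hb with rfl | hb
      · have := hcon' a ha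
        rw [cn_congr (q := fun v => ¬ (F a v ↔ F b v)) (fun v => by tauto)] at this
        exact this
      · exact hRmem.2 a ha b hb hab
  have := hRmax (insert i R) (by
    rw [mem_filter, mem_powerset]
    exact ⟨insert_subset hi hRmem.1, hsep'⟩)
  rw [card_insert_of_notMem hiR] at this
  omega

end Pool.Agent.V11142.Rodl
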