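import Pool.Agent.V11142.RodlA

/-!
A bipartite graph in which no `D` vertices are shattered has, for every `θ`, a pair of large cells
(each cut out by boundedly many neighbourhoods or their complements) whose density is at most `θ`
or at least `1 - θ`.
-/

namespace Pool.Agent.V11142.Rodl

open Finset Classical

variable {α β : Type*}

/-- `Cell G U W k Y`: the set `Y` is cut out of `U` by `k` neighbourhoods of vertices in `W`, or
their complements. -/
def Cell (G : α → β → Prop) (U : Finset α) (W : Finset β) : ℕ → Finset α → Prop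
  | 0, Y => Y = U
  | k + 1, Y => ∃ Y' c, Cell G U W k Y' ∧ c ∈ W ∧
      (Y = Y'.filter (fun b => G b c) ∨ Y = Y'.filter (fun b => ¬ G b c))

/-- number of neighbours of `b` in `X` -/
noncomputable def pn (G : α → β → Prop) (b : α) (X : Finset β) : ℝ :=
  ((X.filter (fun c => G b c)).card : ℝ)

/-- number of non-neighbours of `b` in `X` -/
noncomputable def qn (G : α → β → Prop) (b : α) (X : Finset β) : ℝ :=
  ((X.filter (fun c => ¬ G b c)).card : ℝ)

theorem pn_nonneg (G : α → β → Prop) (b : α) (X : Finset β) : 0 ≤ pn G b X := Nat.cast_nonneg _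
theorem qn_nonneg (G : α → β → Prop) (b : α) (X : Finset β) : 0 ≤ qn G b X := Nat.cast_nonneg _

theorem pn_le (G : α → β → Prop) (b : α) (X : Finset β) : pn G b X ≤ (X.card : ℝ) := by
  unfold pn; exact Nat.cast_le.2 (card_filter_le _ _)
theorem qn_le (G : α → β → Prop) (b : α) (X : Finset β) : qn G b X ≤ (X.card : ℝ) := by
  unfold qn; exact Nat.cast_le.2 (card_filter_le _ _)

theorem sum_pn_mul (G : α → β → Prop) (Y : Finset α) (X : Finset β) (g : α → ℝ) :
    ∑ b ∈ Y, pn G b X * g b = ∑ c ∈ X, ∑ b ∈ Y.filter (fun b => G b c), g b := by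
  have h1 : ∀ b ∈ Y, pn G b X * g b = ∑ c ∈ X, if G b c then g b else 0 := by
    intro b _
    unfold pn
    rw [← sum_filter, sum_const, nsmul_eq_mul]
  rw [sum_congr rfl h1, sum_comm]
  apply sum_congr rfl
  intro c _
  rw [sum_filter]

theorem sum_qn_mul (G : α → β → Prop) (Y : Finset α) (X : Finset β) (g : α → ℝ) :
    ∑ b ∈ Y, qn G b X * g b = ∑ c ∈ X, ∑ b ∈ Y.filter (fun b => ¬ G b c), g b := by
  have h1 : ∀ b ∈ Y, qn G b X * g b = ∑ c ∈ X, if ¬ G b c then g b else 0 := by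
    intro b _
    unfold qn
    rw [← sum_filter, sum_const, nsmul_eq_mul]
  rw [sum_congr rfl h1, sum_comm]
  apply sum_congr rfl
  intro c _
  rw [sum_filter]

/-- Averaged splitting. -/
theorem split_sum (G : α → β → Prop) (Y : Finset α) (X : Finset β) (θ : ℝ) (hθ : 0 < θ)
    (he : θ * Y.card * X.card ≤ ∑ b ∈ Y, pn G b X)
    (hne : ∀ c ∈ X, θ / 2 * Y.card ≤ ((Y.filter (fun b => G b c)).card : ℝ) →
      θ * ((Y.filter (fun b => G b c)).card : ℝ) * X.card
        ≤ ∑ b ∈ Y.filter (fun b => G b c), qn G b X) :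
    θ ^ 2 / 2 * Y.card * (X.card : ℝ) ^ 2 ≤ ∑ b ∈ Y, pn G b X * qn G b X := by
  rw [sum_pn_mul]
  have h1 : ∀ c ∈ X, θ * X.card * (((Y.filter (fun b => G b c)).card : ℝ) - θ / 2 * Y.card)
      ≤ ∑ b ∈ Y.filter (fun b => G b c), qn G b X := by
    intro c hc
    by_cases h : θ / 2 * Y.card ≤ ((Y.filter (fun b => G b c)).card : ℝ)
    · have h2 := hne c hc h
      have h3 : 0 ≤ θ * X.card * (θ / 2 * Y.card) := by positivity
      linarith
    · push Not at h
      have h2 : θ * X.card * (((Y.filter (fun b => G b c)).card : ℝ) - θ / 2 * Y.card) ≤ 0 := by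
        apply mul_nonpos_of_nonneg_of_nonpos (by positivity); linarith
      have h3 : 0 ≤ ∑ b ∈ Y.filter (fun b => G b c), qn G b X :=
        sum_nonneg (fun b _ => qn_nonneg G b X)
      linarith
  have h2 := sum_le_sum h1
  refine le_trans ?_ h2
  rw [← mul_sum, sum_sub_distrib, sum_const, nsmul_eq_mul]
  have h3 : ∑ c ∈ X, ((Y.filter (fun b => G b c)).card : ℝ) = ∑ b ∈ Y, pn G b X := by
    have := sum_pn_mul G Y X (fun _ => 1)
    simp only [mul_one, sum_const, nsmul_eq_mul] at this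
    exact this.symm
  rw [h3]
  have h4 : 0 ≤ θ * (X.card : ℝ) := by positivity
  calc θ ^ 2 / 2 * Y.card * (X.card : ℝ) ^ 2
      = θ * X.card * (θ * Y.card * X.card - X.card * (θ / 2 * Y.card)) := by ring
    _ ≤ θ * X.card * (∑ b ∈ Y, pn G b X - X.card * (θ / 2 * Y.card)) := by
        apply mul_le_mul_of_nonneg_left _ h4
        linarith

/-- the product of the splitting weights -/
noncomputable def wt (G : α → β → Prop) {ι : Type*} (X : ι → Finset β) (S : Finset ι) (b : α) :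
    ℝ := ∏ s ∈ S, (pn G b (X s) * qn G b (X s) / ((X s).card : ℝ) ^ 2)

theorem wt_nonneg (G : α → β → Prop) {ι : Type*} (X : ι → Finset β) (S : Finset ι) (b : α) :
    0 ≤ wt G X S b := by
  unfold wt
  apply prod_nonneg
  intro s _
  exact div_nonneg (mul_nonneg (pn_nonneg _ _ _) (qn_nonneg _ _ _)) (by positivity)

theorem claim (G : α → β → Prop) (U : Finset α) (W : Finset β) (K : ℕ) (θ m : ℝ) (hθ : 0 < θ)
    (hθ1 : θ ≤ 1) (hm : 0 ≤ m) {ι : Type*} (X : ι → Finset β) (hXW : ∀ s, X s ⊆ W)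
    (hXpos : ∀ s, 0 < (X s).card)
    (hNH : ∀ s, ∀ k ≤ K, ∀ Y, Cell G U W k Y → m * U.card ≤ (Y.card : ℝ) →
      θ * Y.card * (X s).card ≤ ∑ b ∈ Y, pn G b (X s) ∧
      θ * Y.card * (X s).card ≤ ∑ b ∈ Y, qn G b (X s)) (S : Finset ι) :
    ∀ k Y, Cell G U W k Y → k + 2 * S.card ≤ K →
      m * (2 / θ) * (4 / θ ^ 2) ^ S.card * U.card ≤ (Y.card : ℝ) →
      (θ ^ 2 / 4) ^ S.card * Y.card ≤ ∑ b ∈ Y, wt G X S b := by
  induction S using Finset.induction_on with
  | empty =>
    intro k Y _ _ _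
    simp [wt]
  | @insert s S hs ih =>
    intro k Y hY hk hlarge
    rw [card_insert_of_notMem hs] at hk hlarge ⊢
    have hU0 : (0 : ℝ) ≤ U.card := Nat.cast_nonneg _
    have h4 : (1 : ℝ) ≤ 4 / θ ^ 2 := by
      rw [le_div_iff₀ (by positivity)]; nlinarith
    have h4p : (1 : ℝ) ≤ (4 / θ ^ 2) ^ (S.card + 1) := one_le_pow₀ h4
    have hmU : 0 ≤ m * (2 / θ) * U.card := by positivity
    have hbig : m * (2 / θ) * U.card ≤ Y.card := by
      refine le_trans ?_ hlarge
      have : m * (2 / θ) * (4 / θ ^ 2) ^ (S.card + 1) * U.card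
          = (m * (2 / θ) * U.card) * (4 / θ ^ 2) ^ (S.card + 1) := by ring
      rw [this]
      exact le_mul_of_one_le_right hmU h4p
    have hbig' : m * U.card ≤ θ / 2 * Y.card := by
      have := mul_le_mul_of_nonneg_left hbig (by positivity : 0 ≤ θ / 2)
      have h5 : θ / 2 * (m * (2 / θ) * U.card) = m * U.card := by field_simp
      linarith
    have hYm : m * U.card ≤ (Y.card : ℝ) := by
      have : (0 : ℝ) ≤ Y.card := Nat.cast_nonneg _
      nlinarith
    -- splitting of `Y`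
    have hsplit : θ ^ 2 / 2 * Y.card * ((X s).card : ℝ) ^ 2
        ≤ ∑ b ∈ Y, pn G b (X s) * qn G b (X s) := by
      refine split_sum G Y (X s) θ hθ (hNH s k (by omega) Y hY hYm).1 ?_
      intro c hc hcbig
      refine (hNH s (k + 1) (by omega) _ ⟨Y, c, hY, hXW s hc, Or.inl rfl⟩ ?_).2
      linarith
    set w : ℝ := (θ ^ 2 / 4) ^ S.card with hw
    have hwpos : 0 < w := by positivity
    -- rewrite the sum
    have hXs : (0 : ℝ) < (X s).card := by exact_mod_cast hXpos s
    have hsum : ∑ b ∈ Y, wt G X (insert s S) b = (1 / ((X s).card : ℝ) ^ 2) *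
        ∑ c ∈ X s, ∑ c' ∈ X s, ∑ b ∈ (Y.filter (fun b => G b c)).filter (fun b => ¬ G b c'),
          wt G X S b := by
      have h1 : ∀ b ∈ Y, wt G X (insert s S) b = (1 / ((X s).card : ℝ) ^ 2) *
          (pn G b (X s) * (qn G b (X s) * wt G X S b)) := by
        intro b _
        unfold wt
        rw [prod_insert hs]
        ring
      rw [sum_congr rfl h1, ← mul_sum, sum_pn_mul G Y (X s) (fun b => qn G b (X s) * wt G X S b)]
      congr 1
      apply sum_congr rfl
      intro c _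
      rw [sum_qn_mul]
    rw [hsum]
    have hterm : ∀ c ∈ X s, ∀ c' ∈ X s,
        w * ((((Y.filter (fun b => G b c)).filter (fun b => ¬ G b c')).card : ℝ)
          - θ ^ 2 / 4 * Y.card)
        ≤ ∑ b ∈ (Y.filter (fun b => G b c)).filter (fun b => ¬ G b c'), wt G X S b := by
      intro c hc c' hc'
      by_cases h : θ ^ 2 / 4 * Y.card
          ≤ (((Y.filter (fun b => G b c)).filter (fun b => ¬ G b c')).card : ℝ)
      · have hcell : Cell G U W (k + 1 + 1)
            ((Y.filter (fun b => G b c)).filter (fun b => ¬ G b c')) :=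
          ⟨_, c', ⟨Y, c, hY, hXW s hc, Or.inl rfl⟩, hXW s hc', Or.inr rfl⟩
        have hle := ih (k + 1 + 1) _ hcell (by omega) (by
          refine le_trans ?_ h
          have h5 : θ ^ 2 / 4 * (4 / θ ^ 2) = 1 := by field_simp
          have h6 : θ ^ 2 / 4 * (m * (2 / θ) * (4 / θ ^ 2) ^ (S.card + 1) * U.card)
              = m * (2 / θ) * (4 / θ ^ 2) ^ S.card * U.card := by
            calc θ ^ 2 / 4 * (m * (2 / θ) * (4 / θ ^ 2) ^ (S.card + 1) * U.card)
                = m * (2 / θ) * (4 / θ ^ 2) ^ S.card * U.card * (θ ^ 2 / 4 * (4 / θ ^ 2)) := by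
                  ring
              _ = _ := by rw [h5, mul_one]
          rw [← h6]
          exact mul_le_mul_of_nonneg_left hlarge (by positivity))
        have : 0 ≤ w * (θ ^ 2 / 4 * Y.card) := by positivity
        linarith
      · push Not at h
        have h2 : w * ((((Y.filter (fun b => G b c)).filter (fun b => ¬ G b c')).card : ℝ)
          - θ ^ 2 / 4 * Y.card) ≤ 0 := by
          apply mul_nonpos_of_nonneg_of_nonpos hwpos.le; linarith
        have h3 : 0 ≤ ∑ b ∈ (Y.filter (fun b => G b c)).filter (fun b => ¬ G b c'),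
            wt G X S b := sum_nonneg (fun b _ => wt_nonneg G X S b)
        linarith
    have hsum2 : w * (∑ b ∈ Y, pn G b (X s) * qn G b (X s)
        - ((X s).card : ℝ) ^ 2 * (θ ^ 2 / 4 * Y.card))
        ≤ ∑ c ∈ X s, ∑ c' ∈ X s, ∑ b ∈ (Y.filter (fun b => G b c)).filter (fun b => ¬ G b c'),
          wt G X S b := by
      have h7 : ∑ b ∈ Y, pn G b (X s) * qn G b (X s) = ∑ c ∈ X s, ∑ c' ∈ X s,
          (((Y.filter (fun b => G b c)).filter (fun b => ¬ G b c')).card : ℝ) := by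
        rw [sum_pn_mul]
        apply sum_congr rfl
        intro c _
        have := sum_qn_mul G (Y.filter (fun b => G b c)) (X s) (fun _ => 1)
        simp only [mul_one, sum_const, nsmul_eq_mul] at this
        exact this
      rw [h7]
      have h8 : w * (∑ c ∈ X s, ∑ c' ∈ X s,
          (((Y.filter (fun b => G b c)).filter (fun b => ¬ G b c')).card : ℝ)
          - ((X s).card : ℝ) ^ 2 * (θ ^ 2 / 4 * Y.card))
          = ∑ c ∈ X s, ∑ c' ∈ X s,
            w * ((((Y.filter (fun b => G b c)).filter (fun b => ¬ G b c')).card : ℝ)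
              - θ ^ 2 / 4 * Y.card) := by
        simp only [← mul_sum, sum_sub_distrib, sum_const, nsmul_eq_mul]
        ring
      rw [h8]
      exact sum_le_sum (fun c hc => sum_le_sum (fun c' hc' => hterm c hc c' hc'))
    have hfin : (θ ^ 2 / 4) ^ (S.card + 1) * Y.card ≤ (1 / ((X s).card : ℝ) ^ 2) *
        (w * (∑ b ∈ Y, pn G b (X s) * qn G b (X s)
        - ((X s).card : ℝ) ^ 2 * (θ ^ 2 / 4 * Y.card))) := by
      have h9 : (θ ^ 2 / 4) ^ (S.card + 1) * Y.card = (1 / ((X s).card : ℝ) ^ 2) *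
          (w * (θ ^ 2 / 2 * Y.card * ((X s).card : ℝ) ^ 2
            - ((X s).card : ℝ) ^ 2 * (θ ^ 2 / 4 * Y.card))) := by
        rw [pow_succ]
        field_simp
        ring
      rw [h9]
      apply mul_le_mul_of_nonneg_left _ (by positivity)
      apply mul_le_mul_of_nonneg_left _ hwpos.le
      linarith
    exact hfin.trans (mul_le_mul_of_nonneg_left hsum2 (by positivity))

theorem cell_subset (G : α → β → Prop) (U : Finset α) (W : Finset β) :
    ∀ k Y, Cell G U W k Y → Y ⊆ U := by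
  intro k
  induction k with
  | zero => intro Y hY; rw [show Y = U from hY]
  | succ k ih =>
    rintro Y ⟨Y', c, hY', _, rfl | rfl⟩
    · exact (filter_subset _ _).trans (ih Y' hY')
    · exact (filter_subset _ _).trans (ih Y' hY')

theorem factor_le_one (G : α → β → Prop) (b : α) (X : Finset β) :
    pn G b X * qn G b X / (X.card : ℝ) ^ 2 ≤ 1 := by
  apply div_le_one_of_le₀ _ (by positivity)
  rw [sq]
  exact mul_le_mul (pn_le G b X) (qn_le G b X) (qn_nonneg G b X) (Nat.cast_nonneg _)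

theorem factor_nonneg (G : α → β → Prop) (b : α) (X : Finset β) :
    0 ≤ pn G b X * qn G b X / (X.card : ℝ) ^ 2 :=
  div_nonneg (mul_nonneg (pn_nonneg _ _ _) (qn_nonneg _ _ _)) (by positivity)

/-- a common splitting vertex for a family of sets -/
theorem common_split (G : α → β → Prop) (U : Finset α) (W : Finset β) (hU : U.Nonempty) (K : ℕ)
    (θ m : ℝ) (hθ : 0 < θ)
    (hθ1 : θ ≤ 1) (hm : 0 ≤ m) {ι : Type*} [Fintype ι] (X : ι → Finset β) (hXW : ∀ s, X s ⊆ W)
    (hXpos : ∀ s, 0 < (X s).card)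
    (hNH : ∀ s, ∀ k ≤ K, ∀ Y, Cell G U W k Y → m * U.card ≤ (Y.card : ℝ) →
      θ * Y.card * (X s).card ≤ ∑ b ∈ Y, pn G b (X s) ∧
      θ * Y.card * (X s).card ≤ ∑ b ∈ Y, qn G b (X s))
    (hK : 2 * Fintype.card ι ≤ K)
    (hy : m * (2 / θ) * (4 / θ ^ 2) ^ Fintype.card ι ≤ 1) :
    ∃ b ∈ U, ∀ s, (θ ^ 2 / 4) ^ Fintype.card ι * (X s).card ≤ pn G b (X s) ∧
      (θ ^ 2 / 4) ^ Fintype.card ι * (X s).card ≤ qn G b (X s) := by
  have hcl := claim G U W K θ m hθ hθ1 hm X hXW hXpos hNH univ 0 U rfl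
    (by rw [card_univ]; omega) (by
      rw [card_univ]
      calc m * (2 / θ) * (4 / θ ^ 2) ^ Fintype.card ι * U.card ≤ 1 * U.card :=
            mul_le_mul_of_nonneg_right hy (Nat.cast_nonneg _)
        _ = U.card := one_mul _)
  rw [card_univ] at hcl
  set w : ℝ := (θ ^ 2 / 4) ^ Fintype.card ι with hw
  have hex : ∃ b ∈ U, w ≤ wt G X univ b := by
    by_contra hcon
    push Not at hcon
    have := sum_lt_sum_of_nonempty hU hcon
    rw [sum_const, nsmul_eq_mul] at this
    linarith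
  obtain ⟨b, hbU, hb⟩ := hex
  refine ⟨b, hbU, fun s => ?_⟩
  have hfac : w ≤ pn G b (X s) * qn G b (X s) / ((X s).card : ℝ) ^ 2 := by
    refine hb.trans ?_
    unfold wt
    rw [← mul_prod_erase univ _ (mem_univ s)]
    have h1 : ∏ t ∈ univ.erase s, (pn G b (X t) * qn G b (X t) / ((X t).card : ℝ) ^ 2) ≤ 1 :=
      prod_le_one (fun t _ => factor_nonneg G b (X t)) (fun t _ => factor_le_one G b (X t))
    calc _ ≤ pn G b (X s) * qn G b (X s) / ((X s).card : ℝ) ^ 2 * 1 :=
          mul_le_mul_of_nonneg_left h1 (factor_nonneg G b (X s))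
      _ = _ := mul_one _
  have hXs : (0 : ℝ) < (X s).card := by exact_mod_cast hXpos s
  rw [le_div_iff₀ (by positivity)] at hfac
  constructor
  · have h2 : pn G b (X s) * qn G b (X s) ≤ pn G b (X s) * (X s).card :=
      mul_le_mul_of_nonneg_left (qn_le G b (X s)) (pn_nonneg G b (X s))
    have h3 : (w * (X s).card) * (X s).card ≤ pn G b (X s) * (X s).card := by
      calc (w * (X s).card) * (X s).card = w * ((X s).card : ℝ) ^ 2 := by ring
        _ ≤ _ := hfac.trans h2
    exact le_of_mul_le_mul_right h3 hXs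
  · have h2 : pn G b (X s) * qn G b (X s) ≤ (X s).card * qn G b (X s) :=
      mul_le_mul_of_nonneg_right (pn_le G b (X s)) (qn_nonneg G b (X s))
    have h3 : (w * (X s).card) * (X s).card ≤ qn G b (X s) * (X s).card := by
      calc (w * (X s).card) * (X s).card = w * ((X s).card : ℝ) ^ 2 := by ring
        _ ≤ (X s).card * qn G b (X s) := hfac.trans h2
        _ = _ := mul_comm _ _
    exact le_of_mul_le_mul_right h3 hXs

/-- the transposed relation -/
def tr (G : α → β → Prop) : β → α → Prop := fun c b => G b c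

theorem stage (G : α → β → Prop) (U : Finset α) (W : Finset β) (hU : U.Nonempty)
    (D : ℕ) (θ m x : ℝ) (hθ : 0 < θ) (hθ1 : θ ≤ 1)
    (hm : m = θ / 2 * (θ ^ 2 / 4) ^ (2 ^ D)) (hx : x = (θ ^ 2 / 4) ^ (2 ^ D))
    (hW : W.Nonempty)
    (hNH : ∀ k ≤ 2 ^ D, ∀ Y, Cell G U W k Y → m * U.card ≤ (Y.card : ℝ) →
      ∀ l ≤ D, ∀ X, Cell (tr G) W U l X → x * W.card ≤ (X.card : ℝ) →
      θ * Y.card * X.card ≤ ∑ b ∈ Y, pn G b X ∧
      θ * Y.card * X.card ≤ ∑ b ∈ Y, qn G b X) :
    ∀ j ≤ D, ∃ b : Fin j → α, ∀ s : Fin j → Bool, ∃ X, Cell (tr G) W U j X ∧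
      (∀ c ∈ X, ∀ i, G (b i) c ↔ s i = true) ∧
      (θ ^ 2 / 4) ^ (2 ^ j - 1) * W.card ≤ (X.card : ℝ) := by
  have hq0 : 0 < θ ^ 2 / 4 := by positivity
  have hq1 : θ ^ 2 / 4 ≤ 1 := by nlinarith
  have hWc : (0 : ℝ) < W.card := by exact_mod_cast hW.card_pos
  intro j
  induction j with
  | zero =>
    intro _
    refine ⟨Fin.elim0, fun s => ⟨W, rfl, fun c _ i => i.elim0, ?_⟩⟩
    simp
  | succ j ih =>
    intro hj
    obtain ⟨b, hb⟩ := ih (by omega)
    choose X hXc hXs hXl using hb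
    have hcard : Fintype.card (Fin j → Bool) = 2 ^ j := by simp
    have hpos : ∀ s, 0 < (X s).card := by
      intro s
      have h1 : 0 < (θ ^ 2 / 4) ^ (2 ^ j - 1) * (W.card : ℝ) := by positivity
      have h2 := lt_of_lt_of_le h1 (hXl s)
      exact_mod_cast h2
    have hjD : 2 ^ j ≤ 2 ^ D := Nat.pow_le_pow_right (by omega) (by omega)
    have hjD2 : 2 * 2 ^ j ≤ 2 ^ D := by
      rw [← pow_succ']; exact Nat.pow_le_pow_right (by omega) (by omega)
    obtain ⟨b', hb'U, hb'⟩ := common_split G U W hU (2 ^ D) θ m hθ hθ1 (by rw [hm]; positivity)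
      X (fun s => cell_subset (tr G) W U j (X s) (hXc s)) hpos (by
        intro s k hk Y hY hYl
        refine hNH k hk Y hY hYl j (by omega) (X s) (hXc s) ?_
        refine le_trans ?_ (hXl s)
        apply mul_le_mul_of_nonneg_right _ hWc.le
        rw [hx]
        apply pow_le_pow_of_le_one hq0.le hq1
        omega) (by rw [hcard]; exact hjD2) (by
        rw [hcard, hm]
        have h5 : θ ^ 2 / 4 * (4 / θ ^ 2) = 1 := by field_simp
        have h6 : (θ ^ 2 / 4) ^ (2 ^ D) = (θ ^ 2 / 4) ^ (2 ^ D - 2 ^ j) * (θ ^ 2 / 4) ^ (2 ^ j) := by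
          rw [← pow_add]; congr 1; omega
        have h7 : (θ ^ 2 / 4) ^ (2 ^ j) * (4 / θ ^ 2) ^ (2 ^ j) = 1 := by
          rw [← mul_pow, h5, one_pow]
        have h8 : θ / 2 * (2 / θ) = 1 := by field_simp
        calc θ / 2 * (θ ^ 2 / 4) ^ (2 ^ D) * (2 / θ) * (4 / θ ^ 2) ^ (2 ^ j)
            = (θ / 2 * (2 / θ)) * (θ ^ 2 / 4) ^ (2 ^ D - 2 ^ j)
              * ((θ ^ 2 / 4) ^ (2 ^ j) * (4 / θ ^ 2) ^ (2 ^ j)) := by rw [h6]; ring
          _ = (θ ^ 2 / 4) ^ (2 ^ D - 2 ^ j) := by rw [h7, h8]; ring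
          _ ≤ 1 := pow_le_one₀ hq0.le hq1)
    rw [hcard] at hb'
    refine ⟨Fin.snoc b b', fun s => ?_⟩
    set s' : Fin j → Bool := fun i => s i.castSucc with hs'
    have hexp : 2 ^ (j + 1) - 1 = 2 ^ j + (2 ^ j - 1) := by
      have : 1 ≤ 2 ^ j := Nat.one_le_two_pow
      rw [pow_succ]; omega
    by_cases hlast : s (Fin.last j) = true
    · refine ⟨(X s').filter (fun c => tr G c b'), ⟨X s', b', hXc s', hb'U, Or.inl rfl⟩, ?_, ?_⟩
      · intro c hc i
        rw [mem_filter] at hc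
        refine Fin.lastCases ?_ (fun i => ?_) i
        · rw [Fin.snoc_last]
          exact ⟨fun _ => hlast, fun _ => hc.2⟩
        · rw [Fin.snoc_castSucc]
          exact hXs s' c hc.1 i
      · rw [hexp, pow_add, mul_assoc]
        refine le_trans ?_ (hb' s').1
        exact mul_le_mul_of_nonneg_left (hXl s') (by positivity)
    · refine ⟨(X s').filter (fun c => ¬ tr G c b'), ⟨X s', b', hXc s', hb'U, Or.inr rfl⟩, ?_, ?_⟩
      · intro c hc i
        rw [mem_filter] at hc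
        refine Fin.lastCases ?_ (fun i => ?_) i
        · rw [Fin.snoc_last]
          exact ⟨fun h => absurd h hc.2, fun h => absurd h hlast⟩
        · rw [Fin.snoc_castSucc]
          exact hXs s' c hc.1 i
      · rw [hexp, pow_add, mul_assoc]
        refine le_trans ?_ (hb' s').2
        exact mul_le_mul_of_nonneg_left (hXl s') (by positivity)

/-- The graph lemma. -/
theorem graph_cells (D : ℕ) (G : α → β → Prop) (hG : NoSh D G) (U : Finset α) (W : Finset β)
    (hU : U.Nonempty) (hW : W.Nonempty) (θ : ℝ) (hθ : 0 < θ) (hθ1 : θ ≤ 1) :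
    ∃ k ≤ 2 ^ D, ∃ Y, Cell G U W k Y ∧ θ / 2 * (θ ^ 2 / 4) ^ (2 ^ D) * U.card ≤ (Y.card : ℝ) ∧
    ∃ l ≤ D, ∃ X, Cell (tr G) W U l X ∧ (θ ^ 2 / 4) ^ (2 ^ D) * W.card ≤ (X.card : ℝ) ∧
      (∑ b ∈ Y, pn G b X ≤ θ * Y.card * X.card ∨ ∑ b ∈ Y, qn G b X ≤ θ * Y.card * X.card) := by
  by_contra hcon
  have hNH : ∀ k ≤ 2 ^ D, ∀ Y, Cell G U W k Y →
      θ / 2 * (θ ^ 2 / 4) ^ (2 ^ D) * U.card ≤ (Y.card : ℝ) →
      ∀ l ≤ D, ∀ X, Cell (tr G) W U l X → (θ ^ 2 / 4) ^ (2 ^ D) * W.card ≤ (X.card : ℝ) →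
      θ * Y.card * X.card ≤ ∑ b ∈ Y, pn G b X ∧
      θ * Y.card * X.card ≤ ∑ b ∈ Y, qn G b X := by
    intro k hk Y hY hYl l hl X hX hXl
    constructor
    · by_contra h
      exact hcon ⟨k, hk, Y, hY, hYl, l, hl, X, hX, hXl, Or.inl (not_le.1 h).le⟩
    · by_contra h
      exact hcon ⟨k, hk, Y, hY, hYl, l, hl, X, hX, hXl, Or.inr (not_le.1 h).le⟩
  obtain ⟨b, hb⟩ := stage G U W hU D θ _ _ hθ hθ1 rfl rfl hW hNH D le_rfl
  apply hG
  refine ⟨b, fun s => ?_⟩
  obtain ⟨X, _, hXs, hXl⟩ := hb s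
  have hWc : (0 : ℝ) < W.card := by exact_mod_cast hW.card_pos
  have hpos : (0 : ℝ) < X.card := lt_of_lt_of_le (by positivity) hXl
  have : X.Nonempty := by
    rw [← card_pos]; exact_mod_cast hpos
  obtain ⟨c, hc⟩ := this
  exact ⟨c, hXs c hc⟩

end Pool.Agent.V11142.Rodl
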