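import Pool.Agent.V11142.RodlB

/-!
Polynomial nets for the two-parameter families of neighbourhoods.
-/

namespace Pool.Agent.V11142.Rodl

open Finset Classical

theorem cn_eq {V : Type*} [Fintype V] (p : V → Prop) [DecidablePred p] :
    cn p = ((univ.filter (fun v => p v)).card : ℝ) := by
  unfold cn
  congr

theorem cn_triangle {V : Type*} [Fintype V] (p q r : V → Prop) :
    cn (fun v => ¬ (p v ↔ r v)) ≤ cn (fun v => ¬ (p v ↔ q v)) + cn (fun v => ¬ (q v ↔ r v)) := by
  rw [cn_eq, cn_eq, cn_eq]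
  have h : univ.filter (fun v => ¬ (p v ↔ r v))
      ⊆ univ.filter (fun v => ¬ (p v ↔ q v)) ∪ univ.filter (fun v => ¬ (q v ↔ r v)) := by
    intro v hv
    simp only [mem_filter, mem_univ, true_and, mem_union] at hv ⊢
    tauto
  have := (card_le_card h).trans (card_union_le _ _)
  exact_mod_cast this

theorem cs_union_le {ζ : Type*} (Z : Finset ζ) (p q r : ζ → Prop)
    (h : ∀ z ∈ Z, p z → q z ∨ r z) : cs Z p ≤ cs Z q + cs Z r := by
  unfold cs
  have h' : Z.filter (fun z => p z) ⊆ Z.filter (fun z => q z) ∪ Z.filter (fun z => r z) := by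
    intro z hz
    simp only [mem_filter, mem_union] at hz ⊢
    rcases h z hz.1 hz.2 with h1 | h1
    · exact Or.inl ⟨hz.1, h1⟩
    · exact Or.inr ⟨hz.1, h1⟩
  have := (card_le_card h').trans (card_union_le _ _)
  exact_mod_cast this

theorem cs_prod {A C : Type*} [Fintype A] [Fintype C] (p : A → C → Prop) :
    cs (univ : Finset (A × C)) (fun z => p z.1 z.2) = ∑ a : A, cn (fun c => p a c) := by
  unfold cs cn
  have : (univ.filter (fun z : A × C => p z.1 z.2)).card
      = ∑ a : A, (univ.filter (fun c => p a c)).card := by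
    rw [card_filter, ← univ_product_univ, sum_product]
    apply sum_congr rfl
    intro a _
    rw [card_filter]
  rw [this]
  push_cast
  rfl

theorem pow_small (β η : ℝ) (hβ : 0 < β) (hβ1 : β ≤ 1) (hη : 0 < η) (q : ℕ)
    (hq : 1 / (β * η) ≤ q) : (1 - β) ^ q ≤ η := by
  have h1 : (1 - β) ^ q * (1 + β) ^ q ≤ 1 := by
    rw [← mul_pow]
    apply pow_le_one₀
    · apply mul_nonneg <;> linarith
    · nlinarith
  have h2 : 1 + (q : ℝ) * β ≤ (1 + β) ^ q := one_add_mul_le_pow (by linarith) q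
  have h3 : 1 / η ≤ q * β := by
    rw [div_le_iff₀ (by positivity)] at hq ⊢
    linarith
  have h0 : 0 ≤ (1 - β) ^ q := pow_nonneg (by linarith) q
  have h4 : (1 - β) ^ q * (1 / η) ≤ 1 := by
    calc (1 - β) ^ q * (1 / η) ≤ (1 - β) ^ q * (1 + β) ^ q :=
          mul_le_mul_of_nonneg_left (by linarith) h0
      _ ≤ 1 := h1
  rw [mul_one_div, div_le_one hη] at h4
  exact h4

/-- Polynomial nets. -/
theorem net (D : ℕ) : ∃ n : ℕ, ∀ η : ℝ, 0 < η → η ≤ 1 / 2 →
    ∀ {A B C : Type} [Fintype A] [Fintype B] [Fintype C] [Nonempty A] [Nonempty B] [Nonempty C]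
      (N : A → C → B → Prop),
      (∀ a, NoSh D (fun (b : B) (c : C) => N a c b)) →
      (∀ c, NoSh D (fun (b : B) (a : A) => N a c b)) →
      ∃ 𝒮 : Finset (Finset B), (𝒮.card : ℝ) ≤ (1 / η) ^ n ∧
        ∑ a : A, cn (fun c => ∀ S ∈ 𝒮, 2 * η * (Fintype.card B : ℝ)
          ≤ cn (fun b => ¬ (N a c b ↔ b ∈ S)))
          ≤ 2 * η * (Fintype.card A : ℝ) * (Fintype.card C : ℝ) := by
  obtain ⟨n0, hn0⟩ := cover D
  refine ⟨2 * n0 + 3, fun η hη hη2 A B C _ _ _ _ _ _ N h1 h2 => ?_⟩
  have hinv : 2 ≤ 1 / η := by rw [le_div_iff₀ hη]; linarith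
  have hP1 : (1 : ℝ) ≤ (1 / η) ^ n0 := one_le_pow₀ (by linarith)
  set β : ℝ := η ^ (n0 + 1) with hβdef
  have hβ : 0 < β := by positivity
  have hβ1 : β ≤ 1 := pow_le_one₀ hη.le (by linarith)
  have hPβ : (1 / η) ^ n0 * β = η := by
    rw [hβdef, pow_succ, ← mul_assoc, ← mul_pow, one_div, inv_mul_cancel₀ hη.ne', one_pow, one_mul]
  have hA : (0 : ℝ) < Fintype.card A := by exact_mod_cast Fintype.card_pos
  have hB : (0 : ℝ) < Fintype.card B := by exact_mod_cast Fintype.card_pos
  have hC : (0 : ℝ) < Fintype.card C := by exact_mod_cast Fintype.card_pos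
  set ball : A → C → C → Prop := fun a c c' =>
    cn (fun b => ¬ (N a c b ↔ N a c' b)) < η * (Fintype.card B : ℝ) with hball
  -- step 1
  have hsmall : ∀ a, cn (fun c => cn (ball a c) < β * (Fintype.card C : ℝ))
      ≤ η * (Fintype.card C : ℝ) := by
    intro a
    set I : Finset C := univ.filter (fun c => cn (ball a c) < β * (Fintype.card C : ℝ)) with hI
    obtain ⟨R, hRI, hRc, hR⟩ := hn0 η hη hη2 (fun (c : C) (b : B) => N a c b) (h1 a) I
    have hIc : cn (fun c => cn (ball a c) < β * (Fintype.card C : ℝ)) = (I.card : ℝ) := rfl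
    rw [hIc]
    have hsub : I ⊆ R.biUnion (fun r => univ.filter (fun c' => ball a r c')) := by
      intro i hi
      obtain ⟨j, hj, hij⟩ := hR i hi
      rw [mem_biUnion]
      refine ⟨j, hj, ?_⟩
      simp only [mem_filter, mem_univ, true_and, hball]
      rw [cn_congr (q := fun b => ¬ (N a i b ↔ N a j b)) (fun b => by tauto)]
      exact hij
    have hle : (I.card : ℝ) ≤ ∑ r ∈ R, ((univ.filter (fun c' => ball a r c')).card : ℝ) := by
      have := (card_le_card hsub).trans card_biUnion_le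
      exact_mod_cast this
    have hle2 : ∑ r ∈ R, ((univ.filter (fun c' => ball a r c')).card : ℝ)
        ≤ ∑ r ∈ R, β * (Fintype.card C : ℝ) := by
      apply sum_le_sum
      intro r hr
      have := (mem_filter.1 (hRI hr)).2
      exact this.le
    rw [sum_const, nsmul_eq_mul] at hle2
    calc (I.card : ℝ) ≤ (R.card : ℝ) * (β * (Fintype.card C : ℝ)) := hle.trans hle2
      _ ≤ (1 / η) ^ n0 * (β * (Fintype.card C : ℝ)) :=
          mul_le_mul_of_nonneg_right hRc (by positivity)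
      _ = η * (Fintype.card C : ℝ) := by rw [← mul_assoc, hPβ]
  -- step 2
  set Z : Finset (A × C) := univ.filter (fun z => β * (Fintype.card C : ℝ) ≤ cn (ball z.1 z.2))
    with hZ
  set q : ℕ := ⌈1 / (β * η)⌉₊ with hq
  obtain ⟨R3, hR3c, hR3⟩ := hit Z (fun z c' => ball z.1 z.2 c') β hβ1
    (by intro z hz; exact (mem_filter.1 hz).2) q
  have hpow : (1 - β) ^ q ≤ η := pow_small β η hβ hβ1 hη q (Nat.le_ceil _)
  have hZc : (Z.card : ℝ) ≤ (Fintype.card A : ℝ) * (Fintype.card C : ℝ) := by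
    have : Z.card ≤ Fintype.card (A × C) := card_le_univ _
    rw [Fintype.card_prod] at this
    exact_mod_cast this
  have hrem : cs Z (fun z => ∀ c' ∈ R3, ¬ ball z.1 z.2 c')
      ≤ η * (Fintype.card A : ℝ) * (Fintype.card C : ℝ) := by
    refine hR3.trans ?_
    calc (1 - β) ^ q * (Z.card : ℝ) ≤ η * ((Fintype.card A : ℝ) * (Fintype.card C : ℝ)) :=
          mul_le_mul hpow hZc (Nat.cast_nonneg _) hη.le
      _ = _ := by ring
  -- step 3
  have hcov : ∀ r : C, ∃ R : Finset A, (R.card : ℝ) ≤ (1 / η) ^ n0 ∧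
      ∀ a, ∃ a' ∈ R, cn (fun b => ¬ (N a r b ↔ N a' r b)) < η * (Fintype.card B : ℝ) := by
    intro r
    obtain ⟨R, _, hRc, hR⟩ := hn0 η hη hη2 (fun (a : A) (b : B) => N a r b) (h2 r) univ
    exact ⟨R, hRc, fun a => hR a (mem_univ a)⟩
  choose R' hR'c hR' using hcov
  set 𝒮 : Finset (Finset B) := R3.biUnion (fun r => (R' r).image
    (fun a => univ.filter (fun b => N a r b))) with h𝒮
  have hqle : (q : ℝ) ≤ (1 / η) ^ (n0 + 3) := by
    have h5 : (q : ℝ) < 1 / (β * η) + 1 := Nat.ceil_lt_add_one (by positivity)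
    have h6 : 1 / (β * η) = (1 / η) ^ (n0 + 2) := by
      rw [hβdef, ← pow_succ, one_div, one_div, inv_pow]
    have h7 : (1 : ℝ) ≤ (1 / η) ^ (n0 + 2) := one_le_pow₀ (by linarith)
    have h8 : (1 / η) ^ (n0 + 3) = (1 / η) ^ (n0 + 2) * (1 / η) := pow_succ _ _
    rw [h8]
    rw [h6] at h5
    nlinarith
  refine ⟨𝒮, ?_, ?_⟩
  · have h5 : 𝒮.card ≤ ∑ r ∈ R3, (R' r).card := by
      refine card_biUnion_le.trans ?_
      exact sum_le_sum (fun r _ => card_image_le)
    have h6 : (𝒮.card : ℝ) ≤ ∑ r ∈ R3, ((R' r).card : ℝ) := by exact_mod_cast h5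
    have h7 : ∑ r ∈ R3, ((R' r).card : ℝ) ≤ ∑ r ∈ R3, (1 / η) ^ n0 :=
      sum_le_sum (fun r _ => hR'c r)
    rw [sum_const, nsmul_eq_mul] at h7
    have h8 : (R3.card : ℝ) ≤ (q : ℝ) := by exact_mod_cast hR3c
    calc (𝒮.card : ℝ) ≤ (R3.card : ℝ) * (1 / η) ^ n0 := h6.trans h7
      _ ≤ (1 / η) ^ (n0 + 3) * (1 / η) ^ n0 :=
          mul_le_mul_of_nonneg_right (h8.trans hqle) (by positivity)
      _ = (1 / η) ^ (2 * n0 + 3) := by rw [← pow_add]; congr 1; ring
  · -- step 4
    rw [← cs_prod]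
    have hle := cs_union_le (univ : Finset (A × C))
      (fun z => ∀ S ∈ 𝒮, 2 * η * (Fintype.card B : ℝ) ≤ cn (fun b => ¬ (N z.1 z.2 b ↔ b ∈ S)))
      (fun z => cn (ball z.1 z.2) < β * (Fintype.card C : ℝ))
      (fun z => z ∈ Z ∧ ∀ c' ∈ R3, ¬ ball z.1 z.2 c') (by
        intro z _ hz
        by_cases hzZ : β * (Fintype.card C : ℝ) ≤ cn (ball z.1 z.2)
        · refine Or.inr ⟨mem_filter.2 ⟨mem_univ _, hzZ⟩, ?_⟩
          intro r hr hbr
          obtain ⟨a', ha', haa'⟩ := hR' r z.1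
          have hS : univ.filter (fun b => N a' r b) ∈ 𝒮 := by
            rw [h𝒮, mem_biUnion]
            exact ⟨r, hr, mem_image.2 ⟨a', ha', rfl⟩⟩
          have h5 := hz _ hS
          have h6 := cn_triangle (fun b => N z.1 z.2 b) (fun b => N z.1 r b)
            (fun b => b ∈ univ.filter (fun b => N a' r b))
          have h7 : cn (fun b => ¬ (N z.1 r b ↔ b ∈ univ.filter (fun b => N a' r b)))
              = cn (fun b => ¬ (N z.1 r b ↔ N a' r b)) := by
            apply cn_congr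
            intro b
            simp only [mem_filter, mem_univ, true_and]
          rw [h7] at h6
          have h8 : cn (fun b => ¬ (N z.1 z.2 b ↔ N z.1 r b)) < η * (Fintype.card B : ℝ) := hbr
          linarith
        · exact Or.inl (not_le.1 hzZ))
    refine hle.trans ?_
    have h5 : cs (univ : Finset (A × C)) (fun z => cn (ball z.1 z.2) < β * (Fintype.card C : ℝ))
        ≤ η * (Fintype.card A : ℝ) * (Fintype.card C : ℝ) := by
      rw [cs_prod (fun a c => cn (ball a c) < β * (Fintype.card C : ℝ))]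
      calc ∑ a : A, cn (fun c => cn (ball a c) < β * (Fintype.card C : ℝ))
          ≤ ∑ a : A, η * (Fintype.card C : ℝ) := sum_le_sum (fun a _ => hsmall a)
        _ = η * (Fintype.card A : ℝ) * (Fintype.card C : ℝ) := by
            rw [sum_const, nsmul_eq_mul, card_univ]; ring
    have h6 : cs (univ : Finset (A × C)) (fun z => z ∈ Z ∧ ∀ c' ∈ R3, ¬ ball z.1 z.2 c')
        = cs Z (fun z => ∀ c' ∈ R3, ¬ ball z.1 z.2 c') := by
      unfold cs
      congr 2
      ext z
      simp only [mem_filter, mem_univ, true_and]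
    rw [h6]
    linarith

/-- the list of possible approximate cells -/
noncomputable def cellList {B : Type*} [Fintype B] (𝒮 : Finset (Finset B)) :
    ℕ → Finset (Finset B)
  | 0 => {univ}
  | k + 1 => cellList 𝒮 k ∪ ((cellList 𝒮 k ×ˢ 𝒮).image (fun p => p.1 ∩ p.2)
      ∪ (cellList 𝒮 k ×ˢ 𝒮).image (fun p => p.1 \ p.2))

theorem cellList_card {B : Type*} [Fintype B] (𝒮 : Finset (Finset B)) (k : ℕ) :
    (cellList 𝒮 k).card ≤ (1 + 2 * 𝒮.card) ^ k := by
  induction k with
  | zero => simp [cellList]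
  | succ k ih =>
    unfold cellList
    have h1 : ((cellList 𝒮 k ×ˢ 𝒮).image (fun p => p.1 ∩ p.2)).card
        ≤ (cellList 𝒮 k).card * 𝒮.card := by
      refine card_image_le.trans ?_
      rw [card_product]
    have h2 : ((cellList 𝒮 k ×ˢ 𝒮).image (fun p => p.1 \ p.2)).card
        ≤ (cellList 𝒮 k).card * 𝒮.card := by
      refine card_image_le.trans ?_
      rw [card_product]
    have h3 := card_union_le (cellList 𝒮 k) ((cellList 𝒮 k ×ˢ 𝒮).image (fun p => p.1 ∩ p.2)
      ∪ (cellList 𝒮 k ×ˢ 𝒮).image (fun p => p.1 \ p.2))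
    have h4 := card_union_le ((cellList 𝒮 k ×ˢ 𝒮).image (fun p => p.1 ∩ p.2))
      ((cellList 𝒮 k ×ˢ 𝒮).image (fun p => p.1 \ p.2))
    calc _ ≤ (cellList 𝒮 k).card * (1 + 2 * 𝒮.card) := by nlinarith
      _ ≤ (1 + 2 * 𝒮.card) ^ k * (1 + 2 * 𝒮.card) := Nat.mul_le_mul_right _ ih
      _ = (1 + 2 * 𝒮.card) ^ (k + 1) := (pow_succ _ _).symm

theorem cellList_mono {B : Type*} [Fintype B] (𝒮 : Finset (Finset B)) {k K : ℕ} (h : k ≤ K) :
    cellList 𝒮 k ⊆ cellList 𝒮 K := by
  induction K, h using Nat.le_induction with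
  | base => exact Subset.refl _
  | succ K _ ih =>
    refine ih.trans ?_
    conv_rhs => unfold cellList
    exact subset_union_left

theorem cell_approx {B C : Type*} [Fintype B] (G : B → C → Prop) (U : Finset B) (W : Finset C)
    (𝒮 : Finset (Finset B)) (κ0 κ1 : ℝ)
    (hU : ((symmDiff U univ).card : ℝ) ≤ κ0)
    (hW : ∀ c ∈ W, ∃ S ∈ 𝒮, cn (fun b => ¬ (G b c ↔ b ∈ S)) ≤ κ1) :
    ∀ k Y, Cell G U W k Y → ∃ L ∈ cellList 𝒮 k, ((symmDiff Y L).card : ℝ) ≤ κ0 + k * κ1 := by
  intro k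
  induction k with
  | zero =>
    intro Y hY
    rw [show Y = U from hY]
    exact ⟨univ, by simp [cellList], by simpa using hU⟩
  | succ k ih =>
    rintro Y ⟨Y', c, hY', hc, hY⟩
    obtain ⟨L, hL, hd⟩ := ih Y' hY'
    obtain ⟨S, hS, hSd⟩ := hW c hc
    have hcn : cn (fun b => ¬ (G b c ↔ b ∈ S))
        = ((univ.filter (fun b => ¬ (G b c ↔ b ∈ S))).card : ℝ) := cn_eq _
    rcases hY with rfl | rfl
    · refine ⟨L ∩ S, ?_, ?_⟩
      · unfold cellList
        exact mem_union_right _ (mem_union_left _ (mem_image.2 ⟨(L, S), mem_product.2 ⟨hL, hS⟩, rfl⟩))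
      · have hsub : symmDiff (Y'.filter (fun b => G b c)) (L ∩ S)
            ⊆ symmDiff Y' L ∪ univ.filter (fun b => ¬ (G b c ↔ b ∈ S)) := by
          intro b hb
          simp only [mem_symmDiff, mem_filter, mem_inter, mem_union, mem_univ, true_and] at hb ⊢
          tauto
        have h1 := (card_le_card hsub).trans (card_union_le _ _)
        have h2 : ((symmDiff (Y'.filter (fun b => G b c)) (L ∩ S)).card : ℝ)
            ≤ (symmDiff Y' L).card + (univ.filter (fun b => ¬ (G b c ↔ b ∈ S))).card := by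
          exact_mod_cast h1
        rw [← hcn] at h2
        push_cast
        linarith
    · refine ⟨L \ S, ?_, ?_⟩
      · unfold cellList
        exact mem_union_right _ (mem_union_right _
          (mem_image.2 ⟨(L, S), mem_product.2 ⟨hL, hS⟩, rfl⟩))
      · have hsub : symmDiff (Y'.filter (fun b => ¬ G b c)) (L \ S)
            ⊆ symmDiff Y' L ∪ univ.filter (fun b => ¬ (G b c ↔ b ∈ S)) := by
          intro b hb
          simp only [mem_symmDiff, mem_filter, mem_sdiff, mem_union, mem_univ, true_and] at hb ⊢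
          tauto
        have h1 := (card_le_card hsub).trans (card_union_le _ _)
        have h2 : ((symmDiff (Y'.filter (fun b => ¬ G b c)) (L \ S)).card : ℝ)
            ≤ (symmDiff Y' L).card + (univ.filter (fun b => ¬ (G b c ↔ b ∈ S))).card := by
          exact_mod_cast h1
        rw [← hcn] at h2
        push_cast
        linarith

end Pool.Agent.V11142.Rodl
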