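import Pool.Agent.V11142.RodlC

/-!
The ternary theorem: polynomial-size homogeneous boxes in relations all of whose slices shatter no
`D` points.
-/

namespace Pool.Agent.V11142.Rodl

open Finset Classical

theorem pn_compl {α β : Type*} (G : α → β → Prop) (b : α) (X : Finset β) :
    pn (fun b c => ¬ G b c) b X = qn G b X := by
  unfold pn qn
  congr

theorem edge_transfer {B C : Type*} [Fintype B] [Fintype C] (G : B → C → Prop)
    (Y L : Finset B) (X L' : Finset C) (θ μ ν κ : ℝ) (hθ : 0 < θ) (hθ1 : θ ≤ 1)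
    (hμ : 0 < μ) (hμ1 : μ ≤ 1) (hν : 0 < ν) (hν1 : ν ≤ 1) (hκ0 : 0 ≤ κ)
    (hκ : κ ≤ θ * μ * ν / 8)
    (hY : μ * Fintype.card B ≤ (Y.card : ℝ)) (hX : ν * Fintype.card C ≤ (X.card : ℝ))
    (hYL : ((symmDiff Y L).card : ℝ) ≤ κ * Fintype.card B)
    (hXL : ((symmDiff X L').card : ℝ) ≤ κ * Fintype.card C)
    (he : ∑ b ∈ Y, pn G b X ≤ θ * Y.card * X.card) :
    ∑ b ∈ L, pn G b L' ≤ 5 * θ * L.card * L'.card := by
  have hB0 : (0 : ℝ) ≤ Fintype.card B := Nat.cast_nonneg _
  have hC0 : (0 : ℝ) ≤ Fintype.card C := Nat.cast_nonneg _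
  have hLY : ((L \ Y).card : ℝ) ≤ κ * Fintype.card B := by
    refine le_trans ?_ hYL
    exact Nat.cast_le.2 (card_le_card (fun x hx => by
      simp only [mem_symmDiff, mem_sdiff] at hx ⊢; tauto))
  have hYL' : ((Y \ L).card : ℝ) ≤ κ * Fintype.card B := by
    refine le_trans ?_ hYL
    exact Nat.cast_le.2 (card_le_card (fun x hx => by
      simp only [mem_symmDiff, mem_sdiff] at hx ⊢; tauto))
  have hLX : ((L' \ X).card : ℝ) ≤ κ * Fintype.card C := by
    refine le_trans ?_ hXL
    exact Nat.cast_le.2 (card_le_card (fun x hx => by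
      simp only [mem_symmDiff, mem_sdiff] at hx ⊢; tauto))
  have hXL' : ((X \ L').card : ℝ) ≤ κ * Fintype.card C := by
    refine le_trans ?_ hXL
    exact Nat.cast_le.2 (card_le_card (fun x hx => by
      simp only [mem_symmDiff, mem_sdiff] at hx ⊢; tauto))
  have hYle : (Y.card : ℝ) ≤ L.card + κ * Fintype.card B := by
    have h1 : Y.card ≤ (Y \ L).card + L.card := by
      have := card_le_card_sdiff_add_card (s := Y) (t := L)
      omega
    have h2 : (Y.card : ℝ) ≤ (Y \ L).card + L.card := by exact_mod_cast h1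
    linarith
  have hXle : (X.card : ℝ) ≤ L'.card + κ * Fintype.card C := by
    have h1 : X.card ≤ (X \ L').card + L'.card := by
      have := card_le_card_sdiff_add_card (s := X) (t := L')
      omega
    have h2 : (X.card : ℝ) ≤ (X \ L').card + L'.card := by exact_mod_cast h1
    linarith
  have hκμ : κ ≤ μ / 2 := by
    have : θ * μ * ν ≤ μ := by
      calc θ * μ * ν ≤ 1 * μ * 1 := by
            apply mul_le_mul _ hν1 hν.le (by linarith)
            exact mul_le_mul_of_nonneg_right hθ1 hμ.le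
        _ = μ := by ring
    linarith
  have hκν : κ ≤ ν / 2 := by
    have : θ * μ * ν ≤ ν := by
      calc θ * μ * ν ≤ 1 * 1 * ν := by
            apply mul_le_mul_of_nonneg_right _ hν.le
            exact mul_le_mul hθ1 hμ1 hμ.le (by norm_num)
        _ = ν := by ring
    linarith
  have hLbig : μ / 2 * Fintype.card B ≤ (L.card : ℝ) := by nlinarith
  have hL'big : ν / 2 * Fintype.card C ≤ (L'.card : ℝ) := by nlinarith
  have hY2 : (Y.card : ℝ) ≤ 2 * L.card := by nlinarith
  have hX2 : (X.card : ℝ) ≤ 2 * L'.card := by nlinarith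
  -- pointwise bound
  have hpt : ∀ b, pn G b L' ≤ pn G b X + κ * Fintype.card C := by
    intro b
    unfold pn
    have hsub : L'.filter (fun c => G b c) ⊆ X.filter (fun c => G b c) ∪ (L' \ X) := by
      intro c hc
      simp only [mem_filter, mem_union, mem_sdiff] at hc ⊢
      tauto
    have h1 := (card_le_card hsub).trans (card_union_le _ _)
    have h2 : ((L'.filter (fun c => G b c)).card : ℝ)
        ≤ (X.filter (fun c => G b c)).card + (L' \ X).card := by exact_mod_cast h1
    linarith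
  have hsum : ∑ b ∈ L, pn G b L' ≤ θ * Y.card * X.card
      + 2 * (κ * Fintype.card B * Fintype.card C) := by
    have h1 : ∑ b ∈ L, pn G b L' = ∑ b ∈ L ∩ Y, pn G b L' + ∑ b ∈ L \ Y, pn G b L' := by
      rw [← sum_inter_add_sum_sdiff L Y]
    have h2 : ∑ b ∈ L ∩ Y, pn G b L' ≤ ∑ b ∈ L ∩ Y, (pn G b X + κ * Fintype.card C) :=
      sum_le_sum (fun b _ => hpt b)
    rw [sum_add_distrib, sum_const, nsmul_eq_mul] at h2
    have h3 : ∑ b ∈ L ∩ Y, pn G b X ≤ ∑ b ∈ Y, pn G b X :=
      sum_le_sum_of_subset_of_nonneg inter_subset_right (fun b _ _ => pn_nonneg G b X)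
    have h4 : ((L ∩ Y).card : ℝ) ≤ Fintype.card B := Nat.cast_le.2 (card_le_univ _)
    have h5 : ∑ b ∈ L \ Y, pn G b L' ≤ ∑ b ∈ L \ Y, (Fintype.card C : ℝ) := by
      apply sum_le_sum
      intro b _
      exact (pn_le G b L').trans (Nat.cast_le.2 (card_le_univ _))
    rw [sum_const, nsmul_eq_mul] at h5
    have h6 : ((L ∩ Y).card : ℝ) * (κ * Fintype.card C) ≤ Fintype.card B * (κ * Fintype.card C) :=
      mul_le_mul_of_nonneg_right h4 (by positivity)
    have h7 : ((L \ Y).card : ℝ) * Fintype.card C ≤ (κ * Fintype.card B) * Fintype.card C :=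
      mul_le_mul_of_nonneg_right hLY hC0
    rw [h1]
    linarith
  have h8 : θ * Y.card * X.card ≤ 4 * θ * L.card * L'.card := by
    have : (Y.card : ℝ) * X.card ≤ (2 * L.card) * (2 * L'.card) :=
      mul_le_mul hY2 hX2 (Nat.cast_nonneg _) (by positivity)
    calc θ * Y.card * X.card = θ * (Y.card * X.card) := by ring
      _ ≤ θ * ((2 * L.card) * (2 * L'.card)) := mul_le_mul_of_nonneg_left this hθ.le
      _ = _ := by ring
  have h9 : 2 * (κ * Fintype.card B * Fintype.card C) ≤ θ * L.card * L'.card := by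
    have h10 : (μ / 2 * Fintype.card B) * (ν / 2 * Fintype.card C) ≤ (L.card : ℝ) * L'.card :=
      mul_le_mul hLbig hL'big (by positivity) (Nat.cast_nonneg _)
    calc 2 * (κ * Fintype.card B * Fintype.card C)
        ≤ 2 * ((θ * μ * ν / 8) * Fintype.card B * Fintype.card C) := by
          have : 0 ≤ (Fintype.card B : ℝ) * Fintype.card C := by positivity
          nlinarith
      _ = θ * ((μ / 2 * Fintype.card B) * (ν / 2 * Fintype.card C)) := by ring
      _ ≤ θ * ((L.card : ℝ) * L'.card) := mul_le_mul_of_nonneg_left h10 hθ.le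
      _ = θ * L.card * L'.card := by ring
  linarith

theorem markov {A : Type*} [Fintype A] (f : A → ℝ) (hf : ∀ a, 0 ≤ f a) (s t : ℝ) (hs : 0 < s)
    (h : ∑ a, f a ≤ t) : ((univ.filter (fun a => s < f a)).card : ℝ) * s ≤ t := by
  refine le_trans ?_ h
  calc ((univ.filter (fun a => s < f a)).card : ℝ) * s
      = ∑ a ∈ univ.filter (fun a => s < f a), s := by rw [sum_const, nsmul_eq_mul]
    _ ≤ ∑ a ∈ univ.filter (fun a => s < f a), f a := by
        apply sum_le_sum
        intro a ha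
        exact (mem_filter.1 ha).2.le
    _ ≤ ∑ a, f a := sum_le_sum_of_subset_of_nonneg (filter_subset _ _) (fun a _ _ => hf a)

theorem card_symmDiff_univ {B : Type*} [Fintype B] (U : Finset B) (p : B → Prop)
    (hU : ∀ b, b ∈ U ↔ ¬ p b) :
    ((symmDiff U univ).card : ℝ) = cn p := by
  rw [cn_eq]
  congr 2
  ext b
  simp only [mem_symmDiff, mem_filter, mem_univ, true_and, hU]
  tauto

/-- one slice -/
theorem slice (D : ℕ) {B C : Type*} [Fintype B] [Fintype C] [Nonempty B] [Nonempty C]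
    (G : B → C → Prop)
    (hG : NoSh D G) (θ η : ℝ) (hθ : 0 < θ) (hθ1 : θ ≤ 1) (hη : 0 < η)
    (hηle : (8 + 2 * 2 ^ D) * η ≤ θ * ((θ / 2 * (θ ^ 2 / 4) ^ (2 ^ D)) / 2)
      * (((θ ^ 2 / 4) ^ (2 ^ D)) / 2) / 8)
    (𝒮2 : Finset (Finset B)) (𝒮3 : Finset (Finset C))
    (h3 : cn (fun c => ∀ S ∈ 𝒮2, 2 * η * (Fintype.card B : ℝ)
          ≤ cn (fun b => ¬ (G b c ↔ b ∈ S))) ≤ 8 * η * (Fintype.card C : ℝ))
    (h2 : cn (fun b => ∀ S ∈ 𝒮3, 2 * η * (Fintype.card C : ℝ)
          ≤ cn (fun c => ¬ (G b c ↔ c ∈ S))) ≤ 8 * η * (Fintype.card B : ℝ)) :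
    ∃ L ∈ cellList 𝒮2 (2 ^ D), ∃ L' ∈ cellList 𝒮3 (2 ^ D), ∃ t : Bool,
      (θ / 2 * (θ ^ 2 / 4) ^ (2 ^ D)) / 4 * Fintype.card B ≤ (L.card : ℝ) ∧
      ((θ ^ 2 / 4) ^ (2 ^ D)) / 4 * Fintype.card C ≤ (L'.card : ℝ) ∧
      (t = true → ∑ b ∈ L, pn G b L' ≤ 5 * θ * L.card * L'.card) ∧
      (t = false → ∑ b ∈ L, qn G b L' ≤ 5 * θ * L.card * L'.card) := by
  set K : ℕ := 2 ^ D with hK
  set μ : ℝ := (θ / 2 * (θ ^ 2 / 4) ^ K) / 2 with hμ
  set ν : ℝ := ((θ ^ 2 / 4) ^ K) / 2 with hν
  set κ : ℝ := (8 + 2 * 2 ^ D) * η with hκ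
  have hB : (0 : ℝ) < Fintype.card B := by exact_mod_cast Fintype.card_pos
  have hC : (0 : ℝ) < Fintype.card C := by exact_mod_cast Fintype.card_pos
  have hq0 : 0 < θ ^ 2 / 4 := by positivity
  have hq1 : θ ^ 2 / 4 ≤ 1 := by nlinarith
  have hqK : (θ ^ 2 / 4) ^ K ≤ 1 := pow_le_one₀ hq0.le hq1
  have hqKp : 0 < (θ ^ 2 / 4) ^ K := by positivity
  have hμ0 : 0 < μ := by positivity
  have hν0 : 0 < ν := by positivity
  have hμ1 : μ ≤ 1 := by rw [hμ]; nlinarith
  have hν1 : ν ≤ 1 := by rw [hν]; linarith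
  have hκ0 : 0 ≤ κ := by positivity
  have h2D : (1 : ℝ) ≤ 2 ^ D := one_le_pow₀ (by norm_num)
  have hη8 : 8 * η ≤ κ := by rw [hκ]; nlinarith
  have hκs : κ ≤ 1 / 8 := by
    have : θ * μ * ν ≤ 1 := by
      calc θ * μ * ν ≤ 1 * 1 * 1 := by
            apply mul_le_mul _ hν1 hν0.le (by norm_num)
            exact mul_le_mul hθ1 hμ1 hμ0.le (by norm_num)
        _ = 1 := by ring
    linarith
  have hκμ : κ ≤ μ / 2 := by
    have : θ * μ * ν ≤ μ := by
      calc θ * μ * ν ≤ 1 * μ * 1 := by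
            apply mul_le_mul _ hν1 hν0.le (by linarith)
            exact mul_le_mul_of_nonneg_right hθ1 hμ0.le
        _ = μ := by ring
    linarith
  have hκν : κ ≤ ν / 2 := by
    have : θ * μ * ν ≤ ν := by
      calc θ * μ * ν ≤ 1 * 1 * ν := by
            apply mul_le_mul_of_nonneg_right _ hν0.le
            exact mul_le_mul hθ1 hμ1 hμ0.le (by norm_num)
        _ = ν := by ring
    linarith
  set bad3 : C → Prop := fun c => ∀ S ∈ 𝒮2, 2 * η * (Fintype.card B : ℝ)
          ≤ cn (fun b => ¬ (G b c ↔ b ∈ S)) with hbad3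
  set bad2 : B → Prop := fun b => ∀ S ∈ 𝒮3, 2 * η * (Fintype.card C : ℝ)
          ≤ cn (fun c => ¬ (G b c ↔ c ∈ S)) with hbad2
  set U : Finset B := univ.filter (fun b => ¬ bad2 b) with hU
  set W : Finset C := univ.filter (fun c => ¬ bad3 c) with hW
  have hUs : ((symmDiff U univ).card : ℝ) ≤ 8 * η * Fintype.card B := by
    rw [card_symmDiff_univ U bad2 (fun b => by rw [hU, mem_filter]; simp)]; exact h2
  have hWs : ((symmDiff W univ).card : ℝ) ≤ 8 * η * Fintype.card C := by
    rw [card_symmDiff_univ W bad3 (fun b => by rw [hW, mem_filter]; simp)]; exact h3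
  have hUc : (Fintype.card B : ℝ) / 2 ≤ U.card := by
    have h1 : (univ : Finset B).card ≤ (symmDiff U univ).card + U.card := by
      have hsub : (univ : Finset B) ⊆ symmDiff U univ ∪ U := by
        intro x _
        by_cases hx : x ∈ U
        · exact mem_union_right _ hx
        · exact mem_union_left _ (by rw [mem_symmDiff]; exact Or.inr ⟨mem_univ _, hx⟩)
      exact (card_le_card hsub).trans (card_union_le _ _)
    rw [card_univ] at h1
    have h4 : (Fintype.card B : ℝ) ≤ (symmDiff U univ).card + U.card := by exact_mod_cast h1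
    nlinarith
  have hWc : (Fintype.card C : ℝ) / 2 ≤ W.card := by
    have h1 : (univ : Finset C).card ≤ (symmDiff W univ).card + W.card := by
      have hsub : (univ : Finset C) ⊆ symmDiff W univ ∪ W := by
        intro x _
        by_cases hx : x ∈ W
        · exact mem_union_right _ hx
        · exact mem_union_left _ (by rw [mem_symmDiff]; exact Or.inr ⟨mem_univ _, hx⟩)
      exact (card_le_card hsub).trans (card_union_le _ _)
    rw [card_univ] at h1
    have h4 : (Fintype.card C : ℝ) ≤ (symmDiff W univ).card + W.card := by exact_mod_cast h1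
    nlinarith
  have hUne : U.Nonempty := by
    rw [← card_pos]
    have : (0 : ℝ) < U.card := by linarith
    exact_mod_cast this
  have hWne : W.Nonempty := by
    rw [← card_pos]
    have : (0 : ℝ) < W.card := by linarith
    exact_mod_cast this
  obtain ⟨k, hk, Y, hY, hYc, l, hl, X, hX, hXc, hhom⟩ := graph_cells D G hG U W hUne hWne θ hθ hθ1
  have hYμ : μ * Fintype.card B ≤ (Y.card : ℝ) := by
    refine le_trans ?_ hYc
    have : 0 ≤ θ / 2 * (θ ^ 2 / 4) ^ (2 ^ D) := by positivity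
    calc μ * Fintype.card B = θ / 2 * (θ ^ 2 / 4) ^ (2 ^ D) * (Fintype.card B / 2) := by
          rw [hμ]; ring
      _ ≤ _ := mul_le_mul_of_nonneg_left hUc this
  have hXν : ν * Fintype.card C ≤ (X.card : ℝ) := by
    refine le_trans ?_ hXc
    have : 0 ≤ (θ ^ 2 / 4) ^ (2 ^ D) := by positivity
    calc ν * Fintype.card C = (θ ^ 2 / 4) ^ (2 ^ D) * (Fintype.card C / 2) := by
          rw [hν]; ring
      _ ≤ _ := mul_le_mul_of_nonneg_left hWc this
  have hkK : (k : ℝ) ≤ 2 ^ D := by exact_mod_cast hk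
  have hlK : (l : ℝ) ≤ 2 ^ D := by
    have : l ≤ 2 ^ D := hl.trans (Nat.lt_two_pow_self).le
    exact_mod_cast this
  obtain ⟨L, hL, hLd⟩ := cell_approx G U W 𝒮2 (8 * η * Fintype.card B) (2 * η * Fintype.card B)
    hUs (by
      intro c hc
      have h9 := (mem_filter.1 hc).2
      by_contra hcon
      apply h9
      intro S hS
      by_contra h
      exact hcon ⟨S, hS, (not_le.1 h).le⟩) k Y hY
  obtain ⟨L', hL', hLd'⟩ := cell_approx (tr G) W U 𝒮3 (8 * η * Fintype.card C)
    (2 * η * Fintype.card C) hWs (by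
      intro b hb
      have h9 := (mem_filter.1 hb).2
      by_contra hcon
      apply h9
      intro S hS
      by_contra h
      exact hcon ⟨S, hS, (not_le.1 h).le⟩) l X hX
  have hLk : ((symmDiff Y L).card : ℝ) ≤ κ * Fintype.card B := by
    refine hLd.trans ?_
    have : (k : ℝ) * (2 * η * Fintype.card B) ≤ 2 ^ D * (2 * η * Fintype.card B) :=
      mul_le_mul_of_nonneg_right hkK (by positivity)
    have h9 : κ * Fintype.card B = 8 * η * Fintype.card B + 2 ^ D * (2 * η * Fintype.card B) := by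
      rw [hκ]; ring
    linarith
  have hLk' : ((symmDiff X L').card : ℝ) ≤ κ * Fintype.card C := by
    refine hLd'.trans ?_
    have : (l : ℝ) * (2 * η * Fintype.card C) ≤ 2 ^ D * (2 * η * Fintype.card C) :=
      mul_le_mul_of_nonneg_right hlK (by positivity)
    have h9 : κ * Fintype.card C = 8 * η * Fintype.card C + 2 ^ D * (2 * η * Fintype.card C) := by
      rw [hκ]; ring
    linarith
  have hLbig : (θ / 2 * (θ ^ 2 / 4) ^ K) / 4 * Fintype.card B ≤ (L.card : ℝ) := by
    have h1 : Y.card ≤ (symmDiff Y L).card + L.card := by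
      have hsub : Y ⊆ symmDiff Y L ∪ L := by
        intro x hxY
        by_cases hx : x ∈ L
        · exact mem_union_right _ hx
        · exact mem_union_left _ (by rw [mem_symmDiff]; exact Or.inl ⟨hxY, hx⟩)
      exact (card_le_card hsub).trans (card_union_le _ _)
    have h4 : (Y.card : ℝ) ≤ (symmDiff Y L).card + L.card := by exact_mod_cast h1
    have h5 : (θ / 2 * (θ ^ 2 / 4) ^ K) / 4 = μ / 2 := by rw [hμ]; ring
    rw [h5]
    have h6 : κ * Fintype.card B ≤ μ / 2 * Fintype.card B := mul_le_mul_of_nonneg_right hκμ hB.le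
    have h7 : μ * (Fintype.card B : ℝ) = μ / 2 * Fintype.card B + μ / 2 * Fintype.card B := by ring
    linarith
  have hL'big : ((θ ^ 2 / 4) ^ K) / 4 * Fintype.card C ≤ (L'.card : ℝ) := by
    have h1 : X.card ≤ (symmDiff X L').card + L'.card := by
      have hsub : X ⊆ symmDiff X L' ∪ L' := by
        intro x hxY
        by_cases hx : x ∈ L'
        · exact mem_union_right _ hx
        · exact mem_union_left _ (by rw [mem_symmDiff]; exact Or.inl ⟨hxY, hx⟩)
      exact (card_le_card hsub).trans (card_union_le _ _)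
    have h4 : (X.card : ℝ) ≤ (symmDiff X L').card + L'.card := by exact_mod_cast h1
    have h5 : ((θ ^ 2 / 4) ^ K) / 4 = ν / 2 := by rw [hν]; ring
    rw [h5]
    have h6 : κ * Fintype.card C ≤ ν / 2 * Fintype.card C := mul_le_mul_of_nonneg_right hκν hC.le
    have h7 : ν * (Fintype.card C : ℝ) = ν / 2 * Fintype.card C + ν / 2 * Fintype.card C := by ring
    linarith
  refine ⟨L, cellList_mono 𝒮2 hk hL, L', cellList_mono 𝒮3 (hl.trans (Nat.lt_two_pow_self).le) hL',
    ?_⟩
  rcases hhom with hhom | hhom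
  · refine ⟨true, hLbig, hL'big, fun _ => ?_, fun h => by simp at h⟩
    exact edge_transfer G Y L X L' θ μ ν κ hθ hθ1 hμ0 hμ1 hν0 hν1 hκ0 hηle hYμ hXν hLk hLk' hhom
  · refine ⟨false, hLbig, hL'big, fun h => by simp at h, fun _ => ?_⟩
    have h6 := edge_transfer (fun b c => ¬ G b c) Y L X L' θ μ ν κ hθ hθ1 hμ0 hμ1 hν0 hν1 hκ0 hηle
      hYμ hXν hLk hLk' (by simp only [pn_compl]; exact hhom)
    simp only [pn_compl] at h6
    exact h6

end Pool.Agent.V11142.Rodl
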