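import Pool.Agent.V11142.RodlD

/-!
The ternary theorem: polynomial-size homogeneous boxes in relations all of whose slices shatter no
`D` points.
-/

namespace Pool.Agent.V11142.Rodl

open Finset Classical

theorem ternary_core (D n : ℕ) (hn : ∀ η : ℝ, 0 < η → η ≤ 1 / 2 →
    ∀ {A B C : Type} [Fintype A] [Fintype B] [Fintype C] [Nonempty A] [Nonempty B] [Nonempty C]
      (N : A → C → B → Prop),
      (∀ a, NoSh D (fun (b : B) (c : C) => N a c b)) →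
      (∀ c, NoSh D (fun (b : B) (a : A) => N a c b)) →
      ∃ 𝒮 : Finset (Finset B), (𝒮.card : ℝ) ≤ (1 / η) ^ n ∧
        ∑ a : A, cn (fun c => ∀ S ∈ 𝒮, 2 * η * (Fintype.card B : ℝ)
          ≤ cn (fun b => ¬ (N a c b ↔ b ∈ S)))
          ≤ 2 * η * (Fintype.card A : ℝ) * (Fintype.card C : ℝ))
    (θ η : ℝ) (hθ : 0 < θ) (hθ1 : θ ≤ 1) (hη : 0 < η) (hη2 : η ≤ 1 / 2)
    (hηle : (8 + 2 * 2 ^ D) * η ≤ θ * ((θ / 2 * (θ ^ 2 / 4) ^ (2 ^ D)) / 2)
      * (((θ ^ 2 / 4) ^ (2 ^ D)) / 2) / 8)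
    {V1 V2 V3 : Type} [Fintype V1] [Fintype V2] [Fintype V3] [Nonempty V1] [Nonempty V2]
    [Nonempty V3] (H : V1 → V2 → V3 → Prop)
    (h1 : ∀ a, NoSh D (fun b c => H a b c)) (h2 : ∀ c, NoSh D (fun b a => H a b c))
    (h3 : ∀ a, NoSh D (fun c b => H a b c)) (h4 : ∀ b, NoSh D (fun c a => H a b c)) :
    ∃ (X1 : Finset V1) (X2 : Finset V2) (X3 : Finset V3),
        η ^ (2 * ((n + 2) * 2 ^ D) + 2) * Fintype.card V1 ≤ (X1.card : ℝ) ∧
        (θ / 2 * (θ ^ 2 / 4) ^ (2 ^ D)) / 4 * Fintype.card V2 ≤ (X2.card : ℝ) ∧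
        ((θ ^ 2 / 4) ^ (2 ^ D)) / 4 * Fintype.card V3 ≤ (X3.card : ℝ) ∧
        ((∀ a ∈ X1, ∑ b ∈ X2, pn (H a) b X3 ≤ 5 * θ * X2.card * X3.card) ∨
         (∀ a ∈ X1, ∑ b ∈ X2, qn (H a) b X3 ≤ 5 * θ * X2.card * X3.card)) := by
  have hinv : 2 ≤ 1 / η := by rw [le_div_iff₀ hη]; linarith
  have hA : (0 : ℝ) < Fintype.card V1 := by exact_mod_cast Fintype.card_pos
  have hB : (0 : ℝ) < Fintype.card V2 := by exact_mod_cast Fintype.card_pos
  have hC : (0 : ℝ) < Fintype.card V3 := by exact_mod_cast Fintype.card_pos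
  obtain ⟨𝒮2, h𝒮2c, h𝒮2⟩ := hn η hη hη2 (fun (a : V1) (c : V3) (b : V2) => H a b c) h1 h2
  obtain ⟨𝒮3, h𝒮3c, h𝒮3⟩ := hn η hη hη2 (fun (a : V1) (b : V2) (c : V3) => H a b c) h3 h4
  set f3 : V1 → ℝ := fun a => cn (fun c => ∀ S ∈ 𝒮2, 2 * η * (Fintype.card V2 : ℝ)
          ≤ cn (fun b => ¬ (H a b c ↔ b ∈ S))) with hf3
  set f2 : V1 → ℝ := fun a => cn (fun b => ∀ S ∈ 𝒮3, 2 * η * (Fintype.card V3 : ℝ)
          ≤ cn (fun c => ¬ (H a b c ↔ c ∈ S))) with hf2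
  have hm3 := markov f3 (fun a => cn_nonneg _) (8 * η * (Fintype.card V3 : ℝ))
    (2 * η * (Fintype.card V1 : ℝ) * (Fintype.card V3 : ℝ)) (by positivity) h𝒮2
  have hm2 := markov f2 (fun a => cn_nonneg _) (8 * η * (Fintype.card V2 : ℝ))
    (2 * η * (Fintype.card V1 : ℝ) * (Fintype.card V2 : ℝ)) (by positivity) h𝒮3
  set G3 := univ.filter (fun a => 8 * η * (Fintype.card V3 : ℝ) < f3 a) with hG3
  set G2 := univ.filter (fun a => 8 * η * (Fintype.card V2 : ℝ) < f2 a) with hG2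
  have hG3c : (G3.card : ℝ) ≤ Fintype.card V1 / 4 := by
    have hpos : 0 < 8 * η * (Fintype.card V3 : ℝ) := by positivity
    have : (G3.card : ℝ) * (8 * η * (Fintype.card V3 : ℝ))
        ≤ (Fintype.card V1 / 4) * (8 * η * (Fintype.card V3 : ℝ)) := by
      refine hm3.trans (le_of_eq ?_); ring
    exact le_of_mul_le_mul_right this hpos
  have hG2c : (G2.card : ℝ) ≤ Fintype.card V1 / 4 := by
    have hpos : 0 < 8 * η * (Fintype.card V2 : ℝ) := by positivity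
    have : (G2.card : ℝ) * (8 * η * (Fintype.card V2 : ℝ))
        ≤ (Fintype.card V1 / 4) * (8 * η * (Fintype.card V2 : ℝ)) := by
      refine hm2.trans (le_of_eq ?_); ring
    exact le_of_mul_le_mul_right this hpos
  set good : Finset V1 := univ.filter (fun a => a ∉ G3 ∧ a ∉ G2) with hgood
  have hgoodc : (Fintype.card V1 : ℝ) / 2 ≤ good.card := by
    have hsub : (univ : Finset V1) ⊆ good ∪ (G3 ∪ G2) := by
      intro a _
      by_cases ha : a ∈ G3 ∪ G2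
      · exact mem_union_right _ ha
      · apply mem_union_left
        rw [mem_union] at ha
        push Not at ha
        exact mem_filter.2 ⟨mem_univ _, ha⟩
    have h5 := card_le_card hsub
    have h6 := h5.trans (card_union_le _ _)
    have h7 := card_union_le G3 G2
    rw [card_univ] at h6
    have h8 : (Fintype.card V1 : ℝ) ≤ good.card + (G3.card + G2.card) := by
      have : Fintype.card V1 ≤ good.card + (G3.card + G2.card) := by omega
      exact_mod_cast this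
    linarith
  -- codes
  have hcode : ∀ a : V1, ∃ p : Finset V2 × Finset V3 × Bool, a ∈ good →
      p.1 ∈ cellList 𝒮2 (2 ^ D) ∧ p.2.1 ∈ cellList 𝒮3 (2 ^ D) ∧
      (θ / 2 * (θ ^ 2 / 4) ^ (2 ^ D)) / 4 * Fintype.card V2 ≤ (p.1.card : ℝ) ∧
      ((θ ^ 2 / 4) ^ (2 ^ D)) / 4 * Fintype.card V3 ≤ (p.2.1.card : ℝ) ∧
      (p.2.2 = true → ∑ b ∈ p.1, pn (H a) b p.2.1 ≤ 5 * θ * p.1.card * p.2.1.card) ∧
      (p.2.2 = false → ∑ b ∈ p.1, qn (H a) b p.2.1 ≤ 5 * θ * p.1.card * p.2.1.card) := by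
    intro a
    by_cases ha : a ∈ good
    · have ha' := (mem_filter.1 ha).2
      obtain ⟨L, hL, L', hL', t, h5, h6, h7, h8⟩ := slice D (H a) (h1 a) θ η hθ hθ1 hη hηle 𝒮2 𝒮3
        (by
          have := ha'.1
          rw [hG3, mem_filter] at this
          push Not at this
          exact this (mem_univ _))
        (by
          have := ha'.2
          rw [hG2, mem_filter] at this
          push Not at this
          exact this (mem_univ _))
      exact ⟨(L, L', t), fun _ => ⟨hL, hL', h5, h6, h7, h8⟩⟩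
    · exact ⟨(∅, ∅, true), fun h => absurd h ha⟩
  choose f hf using hcode
  set T : Finset (Finset V2 × Finset V3 × Bool) :=
    cellList 𝒮2 (2 ^ D) ×ˢ (cellList 𝒮3 (2 ^ D) ×ˢ (univ : Finset Bool)) with hT
  have hmaps : ∀ a ∈ good, f a ∈ T := by
    intro a ha
    obtain ⟨h5, h6, _⟩ := hf a ha
    rw [hT, mem_product, mem_product]
    exact ⟨h5, h6, mem_univ _⟩
  have hgoodpos : (0 : ℝ) < good.card := by linarith
  have hgoodne : good.Nonempty := by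
    rw [← card_pos]; exact_mod_cast hgoodpos
  have hTne : T.Nonempty := by
    obtain ⟨a, ha⟩ := hgoodne
    exact ⟨f a, hmaps a ha⟩
  have hTpos : (0 : ℝ) < T.card := by exact_mod_cast card_pos.2 hTne
  obtain ⟨y, hyT, hy⟩ := exists_le_card_fiber_of_nsmul_le_card_of_maps_to (M := ℝ)
    (b := (good.card : ℝ) / T.card) hmaps hTne (by
      rw [nsmul_eq_mul, mul_div_cancel₀]
      exact hTpos.ne')
  set X1 := good.filter (fun a => f a = y) with hX1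
  have hX1pos : (0 : ℝ) < X1.card := lt_of_lt_of_le (by positivity) hy
  have hX1ne : X1.Nonempty := by
    rw [← card_pos]; exact_mod_cast hX1pos
  obtain ⟨a0, ha0⟩ := hX1ne
  have ha0' := mem_filter.1 ha0
  have hf0 := hf a0 ha0'.1
  rw [ha0'.2] at hf0
  -- size of T
  have hlist : ∀ {B : Type} [Fintype B] (𝒮 : Finset (Finset B)), (𝒮.card : ℝ) ≤ (1 / η) ^ n →
      ((cellList 𝒮 (2 ^ D)).card : ℝ) ≤ (1 / η) ^ ((n + 2) * 2 ^ D) := by
    intro B _ 𝒮 h𝒮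
    have h5 : ((cellList 𝒮 (2 ^ D)).card : ℝ) ≤ (1 + 2 * (𝒮.card : ℝ)) ^ (2 ^ D) := by
      exact_mod_cast cellList_card 𝒮 (2 ^ D)
    refine h5.trans ?_
    rw [pow_mul]
    apply pow_le_pow_left₀ (by positivity)
    have h6 : (1 : ℝ) ≤ (1 / η) ^ n := one_le_pow₀ (by linarith)
    have h7 : (1 / η) ^ (n + 2) = (1 / η) ^ n * ((1 / η) * (1 / η)) := by
      rw [pow_add]; ring
    rw [h7]
    have h8 : (4 : ℝ) ≤ (1 / η) * (1 / η) := by nlinarith
    nlinarith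
  have hTc : (T.card : ℝ) ≤ (1 / η) ^ (2 * ((n + 2) * 2 ^ D) + 1) := by
    have h5 : (T.card : ℝ) = (cellList 𝒮2 (2 ^ D)).card * ((cellList 𝒮3 (2 ^ D)).card * 2) := by
      rw [hT, card_product, card_product]
      simp
    rw [h5]
    have h6 := hlist 𝒮2 h𝒮2c
    have h7 := hlist 𝒮3 h𝒮3c
    have h8 : (1 / η) ^ (2 * ((n + 2) * 2 ^ D) + 1)
        = (1 / η) ^ ((n + 2) * 2 ^ D) * ((1 / η) ^ ((n + 2) * 2 ^ D) * (1 / η)) := by
      rw [pow_succ, two_mul, pow_add]; ring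
    rw [h8]
    apply mul_le_mul h6 _ (by positivity) (by positivity)
    exact mul_le_mul h7 hinv (by norm_num) (by positivity)
  have hX1c : η ^ (2 * ((n + 2) * 2 ^ D) + 2) * Fintype.card V1 ≤ (X1.card : ℝ) := by
    refine le_trans ?_ hy
    rw [le_div_iff₀ hTpos]
    have h5 : η ^ (2 * ((n + 2) * 2 ^ D) + 2) * (1 / η) ^ (2 * ((n + 2) * 2 ^ D) + 1) = η := by
      rw [pow_succ η, one_div, inv_pow]
      field_simp
    calc η ^ (2 * ((n + 2) * 2 ^ D) + 2) * Fintype.card V1 * T.card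
        ≤ η ^ (2 * ((n + 2) * 2 ^ D) + 2) * Fintype.card V1
          * (1 / η) ^ (2 * ((n + 2) * 2 ^ D) + 1) :=
          mul_le_mul_of_nonneg_left hTc (by positivity)
      _ = η ^ (2 * ((n + 2) * 2 ^ D) + 2) * (1 / η) ^ (2 * ((n + 2) * 2 ^ D) + 1)
          * Fintype.card V1 := by ring
      _ = η * Fintype.card V1 := by rw [h5]
      _ ≤ Fintype.card V1 / 2 := by nlinarith
      _ ≤ good.card := hgoodc
  refine ⟨X1, y.1, y.2.1, hX1c, hf0.2.2.1, hf0.2.2.2.1, ?_⟩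
  rcases Bool.eq_false_or_eq_true y.2.2 with ht | ht
  · left
    intro a ha
    have ha' := mem_filter.1 ha
    have := hf a ha'.1
    rw [ha'.2] at this
    exact this.2.2.2.2.1 ht
  · right
    intro a ha
    have ha' := mem_filter.1 ha
    have := hf a ha'.1
    rw [ha'.2] at this
    exact this.2.2.2.2.2 ht

/-- The ternary theorem. -/
theorem ternary (D : ℕ) : ∃ C : ℕ, 0 < C ∧ ∀ ε : ℝ, 0 < ε → ε < 1 / 2 →
    ∀ {V1 V2 V3 : Type} [Fintype V1] [Fintype V2] [Fintype V3] [Nonempty V1] [Nonempty V2]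
      [Nonempty V3] (H : V1 → V2 → V3 → Prop),
      (∀ a, NoSh D (fun b c => H a b c)) → (∀ c, NoSh D (fun b a => H a b c)) →
      (∀ a, NoSh D (fun c b => H a b c)) → (∀ b, NoSh D (fun c a => H a b c)) →
      ∃ (X1 : Finset V1) (X2 : Finset V2) (X3 : Finset V3),
        ε ^ C * Fintype.card V1 ≤ (X1.card : ℝ) ∧ ε ^ C * Fintype.card V2 ≤ (X2.card : ℝ) ∧
        ε ^ C * Fintype.card V3 ≤ (X3.card : ℝ) ∧
        ((∀ a ∈ X1, ∑ b ∈ X2, pn (H a) b X3 ≤ ε * X2.card * X3.card) ∨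
         (∀ a ∈ X1, ∑ b ∈ X2, qn (H a) b X3 ≤ ε * X2.card * X3.card)) := by
  obtain ⟨n, hn⟩ := net D
  set K : ℕ := 2 ^ D with hK
  obtain ⟨j, hj⟩ := pow_unbounded_of_one_lt (64 + 16 * (2 : ℝ) ^ D) (by norm_num : (1 : ℝ) < 2)
  set M : ℕ := 10 + 18 * K + j with hM
  set N : ℕ := 2 * ((n + 2) * 2 ^ D) + 2 with hN
  refine ⟨M * N + 9 * K + 7, by omega, fun ε hε hε2 V1 V2 V3 _ _ _ _ _ _ H h1 h2 h3 h4 => ?_⟩
  set θ : ℝ := ε / 5 with hθ
  have hθ0 : 0 < θ := by positivity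
  have hθ1 : θ ≤ 1 := by rw [hθ]; linarith
  set q : ℝ := θ ^ 2 / 4 with hq
  have hq0 : 0 < q := by positivity
  set η : ℝ := θ * ((θ / 2 * q ^ K) / 2) * ((q ^ K) / 2) / 8 / (8 + 2 * 2 ^ D) with hη
  have hη0 : 0 < η := by positivity
  have h2D : (1 : ℝ) ≤ 2 ^ D := one_le_pow₀ (by norm_num)
  have hq1 : q ≤ 1 := by rw [hq]; nlinarith
  have hqK : q ^ K ≤ 1 := pow_le_one₀ hq0.le hq1
  have hqK0 : 0 < q ^ K := by positivity
  have hηle : (8 + 2 * 2 ^ D) * η = θ * ((θ / 2 * q ^ K) / 2) * ((q ^ K) / 2) / 8 := by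
    rw [hη]; field_simp
  have hη2 : η ≤ 1 / 2 := by
    have h5 : θ * ((θ / 2 * q ^ K) / 2) * ((q ^ K) / 2) / 8 ≤ 1 := by
      have h6 : θ / 2 * q ^ K ≤ 1 := by nlinarith
      have h7 : 0 ≤ θ / 2 * q ^ K := by positivity
      have h8 : θ * ((θ / 2 * q ^ K) / 2) ≤ 1 := by nlinarith
      have h9 : 0 ≤ θ * ((θ / 2 * q ^ K) / 2) := by positivity
      nlinarith
    rw [← hηle] at h5
    nlinarith
  obtain ⟨X1, X2, X3, c1, c2, c3, hX⟩ := ternary_core D n hn θ η hθ0 hθ1 hη0 hη2 hηle.le H h1 h2 h3 h4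
  -- numeric lower bounds
  have hε1 : ε ≤ 1 := by linarith
  have pw : ∀ {a b : ℕ}, a ≤ b → ε ^ b ≤ ε ^ a := fun h => pow_le_pow_of_le_one hε.le hε1 h
  have hε6 : ε ^ 6 ≤ 1 / 64 := by
    calc ε ^ 6 ≤ (1 / 2) ^ 6 := pow_le_pow_left₀ hε.le hε2.le 6
      _ = 1 / 64 := by norm_num
  have hε7 : ε ^ 7 ≤ 1 / 100 := by
    calc ε ^ 7 ≤ (1 / 2) ^ 7 := pow_le_pow_left₀ hε.le hε2.le 7
      _ ≤ 1 / 100 := by norm_num
  have hε8 : ε ^ 8 ≤ 1 / 200 := by
    calc ε ^ 8 ≤ (1 / 2) ^ 8 := pow_le_pow_left₀ hε.le hε2.le 8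
      _ ≤ 1 / 200 := by norm_num
  have hqlow : ε ^ 9 ≤ q := by
    have h5 : q = ε ^ 2 * (1 / 100) := by rw [hq, hθ]; ring
    rw [h5]
    calc ε ^ 9 = ε ^ 2 * ε ^ 7 := by ring
      _ ≤ ε ^ 2 * (1 / 100) := mul_le_mul_of_nonneg_left hε7 (by positivity)
  have hqKlow : ε ^ (9 * K) ≤ q ^ K := by
    rw [pow_mul]; exact pow_le_pow_left₀ (by positivity) hqlow K
  have hb2 : ε ^ (M * N + 9 * K + 7) ≤ (θ / 2 * q ^ K) / 4 := by
    have h5 : (θ / 2 * q ^ K) / 4 = ε * (1 / 40) * q ^ K := by rw [hθ]; ring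
    rw [h5]
    calc ε ^ (M * N + 9 * K + 7) ≤ ε ^ (7 + 9 * K) := pw (by omega)
      _ = ε * ε ^ 6 * ε ^ (9 * K) := by rw [pow_add]; ring
      _ ≤ ε * (1 / 40) * q ^ K := by
          apply mul_le_mul _ hqKlow (by positivity) (by positivity)
          apply mul_le_mul_of_nonneg_left _ hε.le
          linarith
  have hb3 : ε ^ (M * N + 9 * K + 7) ≤ (q ^ K) / 4 := by
    have hε22 : ε ^ 2 ≤ 1 / 4 := by nlinarith
    calc ε ^ (M * N + 9 * K + 7) ≤ ε ^ (9 * K + 2) := pw (by omega)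
      _ = ε ^ (9 * K) * ε ^ 2 := by rw [pow_add]
      _ ≤ q ^ K * (1 / 4) := mul_le_mul hqKlow hε22 (by positivity) hqK0.le
      _ = (q ^ K) / 4 := by ring
  have hηlow : ε ^ M ≤ η := by
    have hj' : ε ^ j ≤ 1 / (64 + 16 * 2 ^ D) := by
      rw [le_div_iff₀ (by positivity)]
      have h5 : ε ^ j ≤ (1 / 2) ^ j := pow_le_pow_left₀ hε.le hε2.le j
      calc ε ^ j * (64 + 16 * 2 ^ D) ≤ (1 / 2) ^ j * 2 ^ j :=
            mul_le_mul h5 hj.le (by positivity) (by positivity)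
        _ = 1 := by rw [← mul_pow]; norm_num
    have h5 : η = (ε ^ 2 * (1 / 200)) * (q ^ K * q ^ K) * (1 / (64 + 16 * 2 ^ D)) := by
      rw [hη, hθ]
      have : (8 + 2 * (2 : ℝ) ^ D) ≠ 0 := by positivity
      have : (64 + 16 * (2 : ℝ) ^ D) ≠ 0 := by positivity
      have h6 : (64 + 16 * (2 : ℝ) ^ D) = 8 * (8 + 2 * 2 ^ D) := by ring
      rw [h6]
      field_simp
      ring
    rw [h5]
    calc ε ^ M = (ε ^ 2 * ε ^ 8) * (ε ^ (9 * K) * ε ^ (9 * K)) * ε ^ j := by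
          rw [hM, ← pow_add, ← pow_add, ← pow_add, ← pow_add]; congr 1; ring
      _ ≤ (ε ^ 2 * (1 / 200)) * (q ^ K * q ^ K) * (1 / (64 + 16 * 2 ^ D)) := by
          apply mul_le_mul _ hj' (by positivity) (by positivity)
          apply mul_le_mul _ _ (by positivity) (by positivity)
          · exact mul_le_mul_of_nonneg_left hε8 (by positivity)
          · exact mul_le_mul hqKlow hqKlow (by positivity) hqK0.le
  have hb1 : ε ^ (M * N + 9 * K + 7) ≤ η ^ N := by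
    calc ε ^ (M * N + 9 * K + 7) ≤ ε ^ (M * N) := pw (by omega)
      _ = (ε ^ M) ^ N := pow_mul _ _ _
      _ ≤ η ^ N := pow_le_pow_left₀ (by positivity) hηlow N
  have h5θ : 5 * θ = ε := by rw [hθ]; ring
  refine ⟨X1, X2, X3, ?_, ?_, ?_, ?_⟩
  · exact (mul_le_mul_of_nonneg_right hb1 (Nat.cast_nonneg _)).trans c1
  · exact (mul_le_mul_of_nonneg_right hb2 (Nat.cast_nonneg _)).trans c2
  · exact (mul_le_mul_of_nonneg_right hb3 (Nat.cast_nonneg _)).trans c3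
  · rw [h5θ] at hX
    exact hX

end Pool.Agent.V11142.Rodl
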