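import Pool.Agent.V11142.SidExpDensity

/-!
# Sidorenko exponents of `r`-partite `r`-graphs of bounded degree
-/

set_option autoImplicit false

namespace Pool.Agent.V11142.SidDefs

open Finset Function
open scoped ENNReal NNReal

/-- `F` is an `r`-graph: all its edges have `r` elements. -/
def IsRGraph (r : ℕ) {U : Type} (F : Finset (Finset U)) : Prop := ∀ e ∈ F, e.card = r

/-- `F` is `r`-partite: for some partition into `r` parts every edge meets each part in exactly
one vertex. -/
def IsPartite (r : ℕ) {U : Type} (F : Finset (Finset U)) : Prop :=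
  ∃ χ : U → Fin r, ∀ e ∈ F, ∀ i, (e.filter fun v => χ v = i).card = 1

/-- The maximum degree of `F` is at most `Δ`. -/
def MaxDegLe {U : Type} [DecidableEq U] (F : Finset (Finset U)) (Δ : ℕ) : Prop :=
  ∀ u : U, (F.filter fun e => u ∈ e).card ≤ Δ

/-- The number of homomorphisms from `F` to `H`: maps of the vertices under which the image of
every edge of `F` is an edge of `H`. -/
def hom {U W : Type} [Fintype U] [DecidableEq U] [Fintype W] [DecidableEq W]
    (F : Finset (Finset U)) (H : Finset (Finset W)) : ℕ :=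
  (univ.filter fun φ : U → W => ∀ e ∈ F, e.image φ ∈ H).card

/-- The homomorphism density `hom(F, H) / v(H) ^ v(F)`. -/
noncomputable def t {U W : Type} [Fintype U] [DecidableEq U] [Fintype W] [DecidableEq W]
    (F : Finset (Finset U)) (H : Finset (Finset W)) : ℝ :=
  (hom F H : ℝ) / (Fintype.card W : ℝ) ^ Fintype.card U

/-- The `r`-graph with `r` vertices and one edge. -/
def K (r : ℕ) : Finset (Finset (Fin r)) := {univ}

/-- The Sidorenko exponent, with values in `[0, ∞]`: the supremum of the real numbers `s ≥ 0` such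
that `t_F(H) = t_K(H) ^ s > 0` for some finite `r`-graph `H`. -/
noncomputable def sidorenkoExponent (r : ℕ) {U : Type} [Fintype U] [DecidableEq U]
    (F : Finset (Finset U)) : ℝ≥0∞ :=
  ⨆ (s : ℝ≥0) (_ : ∃ (n : ℕ) (H : Finset (Finset (Fin n))), IsRGraph r H ∧
    t F H = t (K r) H ^ (s : ℝ) ∧ 0 < t F H), (s : ℝ≥0∞)

/-- The density bound for `r`-partite `r`-graphs of bounded degree. -/
theorem t_ge (r Δ : ℕ) (hr : 1 ≤ r) : ∃ C : ℕ, ∀ (U W : Type) [Fintype U] [DecidableEq U]
    [Fintype W] [DecidableEq W] [Nonempty W] (F : Finset (Finset U)) (H : Finset (Finset W)),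
    IsPartite r F → MaxDegLe F Δ → 0 < t (K r) H → t (K r) H ^ (C * F.card) ≤ t F H := by
  obtain ⟨C, hC⟩ := SidExp.density_bound r Δ
  refine ⟨C * r, ?_⟩
  intro U W _ _ _ _ _ F H hpart hdeg hpos
  classical
  have hn : (0 : ℝ) < Fintype.card W := by exact_mod_cast Fintype.card_pos
  rcases Nat.eq_zero_or_pos F.card with hF | hF
  · have hF' : F = ∅ := card_eq_zero.1 hF
    subst hF'
    have h1 : t (∅ : Finset (Finset U)) H = 1 := by
      unfold t hom
      simp only [notMem_empty, false_imp_iff, implies_true, filter_true, card_univ]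
      rw [Fintype.card_fun]
      push_cast
      exact div_self (by positivity)
    rw [h1, card_empty, mul_zero, pow_zero]
  have h0 : 0 < r * F.card := Nat.mul_pos hr hF
  -- the tuples of the edges
  obtain ⟨χ, hχ⟩ := hpart
  have hT : ∀ e : Finset U, e ∈ F → ∃ T : Fin r → U, (∀ i, T i ∈ e ∧ χ (T i) = i) ∧
      univ.image T = e := by
    intro e he
    have h1 : ∀ i, ∃ v, e.filter (fun v => χ v = i) = {v} := fun i => card_eq_one.1 (hχ e he i)
    choose T hT using h1
    have h2 : ∀ i, T i ∈ e ∧ χ (T i) = i := by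
      intro i
      have : T i ∈ e.filter fun v => χ v = i := by rw [hT]; exact mem_singleton_self _
      rw [mem_filter] at this
      exact this
    refine ⟨T, h2, ?_⟩
    apply Subset.antisymm
    · intro v hv
      obtain ⟨i, _, rfl⟩ := mem_image.1 hv
      exact (h2 i).1
    · intro v hv
      have h3 : v ∈ e.filter fun w => χ w = χ v := mem_filter.2 ⟨hv, rfl⟩
      rw [hT, mem_singleton] at h3
      rw [mem_image]
      exact ⟨χ v, mem_univ _, h3.symm⟩
  haveI : Nonempty U := by
    obtain ⟨e, he⟩ := card_pos.1 hF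
    obtain ⟨T, _, _⟩ := hT e he
    exact ⟨T ⟨0, hr⟩⟩
  choose! T hT1 hT2 using hT
  set E : Finset (Fin r → W) := univ.filter fun z => univ.image z ∈ H with hE
  have hKE : hom (K r) H = E.card := by
    unfold hom
    rw [hE]
    congr 1
    ext z
    simp [K]
  have hEpos : 0 < E.card := by
    rw [← hKE]
    unfold t at hpos
    by_contra hc
    have : hom (K r) H = 0 := by omega
    rw [this] at hpos
    simp at hpos
  set S : Finset U := F.biUnion id with hS
  have hSc : S.card ≤ r * F.card := by
    rw [mul_comm]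
    apply card_biUnion_le_card_mul
    intro e he
    rw [id, ← hT2 e he]
    refine card_image_le.trans ?_
    rw [card_univ, Fintype.card_fin]
  obtain ⟨i, hi⟩ := SidExp.exists_injOn h0 S hSc
  set G : Finset (Fin r → Fin (r * F.card)) := F.image fun e => i ∘ T e with hG
  have hTS : ∀ e ∈ F, ∀ a, T e a ∈ S := by
    intro e he a
    rw [hS, mem_biUnion]
    exact ⟨e, he, (hT1 e he a).1⟩
  have hGpart : SidExp.Partite G := by
    intro p hp p' hp' a b hab
    obtain ⟨e, he, rfl⟩ := mem_image.1 hp
    obtain ⟨e', he', rfl⟩ := mem_image.1 hp'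
    have h1 : T e a = T e' b := hi (hTS e he a) (hTS e' he' b) hab
    rw [← (hT1 e he a).2, h1, (hT1 e' he' b).2]
  have hGdeg : SidExp.DegLe G Δ := by
    intro v
    by_cases hv : ∃ u ∈ S, i u = v
    · obtain ⟨u, hu, rfl⟩ := hv
      refine le_trans ?_ (hdeg u)
      have h1 : (G.filter fun p => ∃ a, p a = i u) ⊆
          (F.filter fun e => u ∈ e).image fun e => i ∘ T e := by
        intro p hp
        rw [mem_filter] at hp
        obtain ⟨hpG, a, ha⟩ := hp
        obtain ⟨e, he, rfl⟩ := mem_image.1 hpG
        have h2 : T e a = u := hi (hTS e he a) hu ha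
        apply mem_image_of_mem (fun e => i ∘ T e)
        rw [mem_filter]
        refine ⟨he, ?_⟩
        rw [← h2]
        exact (hT1 e he a).1
      exact (card_le_card h1).trans card_image_le
    · have h1 : (G.filter fun p => ∃ a, p a = v) = ∅ := by
        rw [Finset.eq_empty_iff_forall_notMem]
        intro p hp
        rw [mem_filter] at hp
        obtain ⟨hpG, a, ha⟩ := hp
        obtain ⟨e, he, rfl⟩ := mem_image.1 hpG
        exact hv ⟨T e a, hTS e he a, ha⟩
      rw [h1]
      simp
  have main := hC W (Fin (r * F.card)) E G hEpos hGpart hGdeg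
  rw [Fintype.card_fin] at main
  have hKt : t (K r) H = (E.card : ℝ) / (Fintype.card W : ℝ) ^ r := by
    unfold t
    rw [hKE, Fintype.card_fin]
  rw [hKt, mul_assoc]
  refine main.trans (le_of_eq ?_)
  -- the density is that of the homomorphisms of `F`
  have hw : SidExp.Dep (fun φ : U → W => SidExp.ind (∀ e ∈ F, φ ∘ T e ∈ E)) S := by
    intro φ ψ h
    apply SidExp.ind_congr
    have h1 : ∀ e ∈ F, φ ∘ T e = ψ ∘ T e := by
      intro e he
      funext a
      exact h _ (hTS e he a)
    constructor
    · intro h2 e he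
      rw [← h1 e he]
      exact h2 e he
    · intro h2 e he
      rw [h1 e he]
      exact h2 e he
  have h1 : SidExp.ex (fun z : Fin (r * F.card) → W =>
      SidExp.ind (∀ e ∈ F, (z ∘ i) ∘ T e ∈ E)) =
      SidExp.ex (fun φ : U → W => SidExp.ind (∀ e ∈ F, φ ∘ T e ∈ E)) :=
    SidExp.ex_transfer (T := Fin (r * F.card)) hw hi
  have h2 : (fun z : Fin (r * F.card) → W => SidExp.ind (∀ e ∈ F, (z ∘ i) ∘ T e ∈ E)) =
      fun z : Fin (r * F.card) → W => SidExp.ind (∀ p ∈ G, z ∘ p ∈ E) := by
    funext z
    apply SidExp.ind_congr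
    rw [hG, forall_mem_image]
    rfl
  rw [h2, SidExp.ex_ind, SidExp.ex_ind, Fintype.card_fin] at h1
  rw [h1]
  unfold t
  congr 2
  unfold hom
  congr 1
  ext φ
  simp only [mem_filter, mem_univ, true_and, hE]
  constructor
  · intro h e he
    have := h e he
    rw [← image_image, hT2 e he] at this
    exact this
  · intro h e he
    rw [← image_image, hT2 e he]
    exact h e he

/-- The bound for the Sidorenko exponents. -/
theorem sidorenkoExponent_le (r : ℕ) (hr : 2 ≤ r) (Δ : ℕ) : ∃ C : ℕ, ∀ (U : Type) [Fintype U]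
    [DecidableEq U] (F : Finset (Finset U)), IsPartite r F → MaxDegLe F Δ →
    sidorenkoExponent r F ≤ ((C * F.card : ℕ) : ℝ≥0∞) := by
  obtain ⟨C, hC⟩ := t_ge r Δ (by omega)
  refine ⟨C, ?_⟩
  intro U _ _ F hpart hdeg
  unfold sidorenkoExponent
  apply iSup₂_le
  rintro s ⟨n, H, hH, hts, htpos⟩
  have hgoal : (s : ℝ) ≤ ((C * F.card : ℕ) : ℝ) := by
    by_contra hcon
    push Not at hcon
    have hs0 : (0 : ℝ) < s := lt_of_le_of_lt (by positivity) hcon
    have hK0 : 0 < t (K r) H := by
      have h1 : 0 ≤ t (K r) H := by unfold t; positivity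
      rcases h1.eq_or_lt with h2 | h2
      · rw [← h2, Real.zero_rpow hs0.ne'] at hts
        linarith
      · exact h2
    -- the vertex set is non-empty
    have hhom : 0 < hom (K r) H := by
      by_contra hc
      have h1 : hom (K r) H = 0 := by omega
      unfold t at hK0
      rw [h1] at hK0
      simp at hK0
    obtain ⟨φ, hφ⟩ := card_pos.1 hhom
    haveI : Nonempty (Fin n) := ⟨φ ⟨0, by omega⟩⟩
    have hn : (0 : ℝ) < Fintype.card (Fin n) := by exact_mod_cast Fintype.card_pos
    -- the density of edges is less than one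
    have hK1 : t (K r) H < 1 := by
      unfold t
      rw [div_lt_one (by positivity)]
      have h1 : hom (K r) H < Fintype.card (Fin r → Fin n) := by
        unfold hom
        rw [← card_univ]
        apply card_lt_card
        rw [filter_ssubset]
        refine ⟨fun _ => φ ⟨0, by omega⟩, mem_univ _, fun hc => ?_⟩
        have h2 := hH _ (hc univ (by simp [K]))
        have h3 : (univ.image fun _ : Fin r => φ ⟨0, by omega⟩).card ≤ 1 := by
          rw [card_le_one]
          intro a ha b hb
          obtain ⟨_, _, rfl⟩ := mem_image.1 ha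
          obtain ⟨_, _, rfl⟩ := mem_image.1 hb
          rfl
        omega
      rw [Fintype.card_fun] at h1
      exact_mod_cast h1
    have h1 := hC U (Fin n) F H hpart hdeg hK0
    have h2 : t (K r) H ^ (s : ℝ) < t (K r) H ^ (((C * F.card : ℕ) : ℝ)) :=
      Real.rpow_lt_rpow_of_exponent_gt hK0 hK1 hcon
    rw [Real.rpow_natCast, ← hts] at h2
    linarith
  have h1 : s ≤ ((C * F.card : ℕ) : ℝ≥0) := by exact_mod_cast hgoal
  calc (s : ℝ≥0∞) ≤ (((C * F.card : ℕ) : ℝ≥0) : ℝ≥0∞) := by exact_mod_cast h1
    _ = ((C * F.card : ℕ) : ℝ≥0∞) := by push_cast; rfl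

end Pool.Agent.V11142.SidDefs
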