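import Mathlib

/-!
# Counting homomorphisms of bounded-degree `r`-partite hypergraphs

If `E ⊆ V^r` has density at least `δ` and `F` is an `r`-partite `r`-graph of maximum degree at
most `Δ`, then a random map `V(F) → V` is a homomorphism with probability at least
`δ ^ (C v(F))`, `C = C(r, Δ)`.  The proof is by induction on `r`, with additional local
constraints.
-/

set_option autoImplicit false

namespace Pool.Agent.V11142.SidExp

open Finset Function

/-- The indicator of a proposition. -/
noncomputable def ind (p : Prop) : ℝ := by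
  classical
  exact if p then 1 else 0

theorem ind_true {p : Prop} (h : p) : ind p = 1 := by
  classical
  unfold ind
  rw [if_pos h]

theorem ind_false {p : Prop} (h : ¬ p) : ind p = 0 := by
  classical
  unfold ind
  rw [if_neg h]

theorem ind_nonneg (p : Prop) : 0 ≤ ind p := by
  by_cases h : p
  · rw [ind_true h]; norm_num
  · rw [ind_false h]

theorem ind_le_one (p : Prop) : ind p ≤ 1 := by
  by_cases h : p
  · rw [ind_true h]
  · rw [ind_false h]; norm_num

theorem ind_mono {p q : Prop} (h : p → q) : ind p ≤ ind q := by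
  by_cases hp : p
  · rw [ind_true hp, ind_true (h hp)]
  · rw [ind_false hp]; exact ind_nonneg q

theorem ind_congr {p q : Prop} (h : p ↔ q) : ind p = ind q := by
  rw [propext h]

section basic

variable {V U : Type} [Fintype V] [DecidableEq V] [Fintype U] [DecidableEq U]

/-- The average over all maps. -/
noncomputable def ex (f : (U → V) → ℝ) : ℝ :=
  (∑ φ, f φ) / (Fintype.card V : ℝ) ^ Fintype.card U

/-- Averaging over the values in `A u` of the coordinates `u` in a list. -/
noncomputable def M (A : U → Finset V) : List U → ((U → V) → ℝ) → (U → V) → ℝ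
  | [], f, φ => f φ
  | u :: l, f, φ => (∑ a ∈ A u, M A l f (update φ u a)) / ((A u).card : ℝ)

/-- The function depends only on the coordinates in `S`. -/
def Dep (f : (U → V) → ℝ) (S : Finset U) : Prop :=
  ∀ φ ψ : U → V, (∀ u ∈ S, φ u = ψ u) → f φ = f ψ

omit [Fintype V] [DecidableEq V] [Fintype U] in
theorem M_mono {A : U → Finset V} {f g : (U → V) → ℝ} (h : ∀ φ, f φ ≤ g φ) :
    ∀ (l : List U) (φ : U → V), M A l f φ ≤ M A l g φ := by
  intro l
  induction l with
  | nil => intro φ; exact h φ
  | cons u l ih =>
    intro φ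
    simp only [M]
    gcongr
    exact ih _

omit [Fintype V] [DecidableEq V] [Fintype U] in
theorem M_nonneg {A : U → Finset V} {f : (U → V) → ℝ} (h : ∀ φ, 0 ≤ f φ) :
    ∀ (l : List U) (φ : U → V), 0 ≤ M A l f φ := by
  intro l
  induction l with
  | nil => intro φ; exact h φ
  | cons u l ih =>
    intro φ
    simp only [M]
    apply div_nonneg _ (by positivity)
    exact sum_nonneg fun a _ => ih _

omit [Fintype V] [DecidableEq V] [Fintype U] in
theorem M_congr_dep {A : U → Finset V} {f : (U → V) → ℝ} {S : Finset U} (hf : Dep f S) :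
    ∀ (l : List U) (φ ψ : U → V), (∀ u ∈ S, u ∉ l → φ u = ψ u) → M A l f φ = M A l f ψ := by
  intro l
  induction l with
  | nil =>
    intro φ ψ h
    exact hf φ ψ fun u hu => h u hu (List.not_mem_nil)
  | cons v l ih =>
    intro φ ψ h
    simp only [M]
    congr 1
    apply sum_congr rfl
    intro a _
    apply ih
    intro u hu hul
    by_cases huv : u = v
    · subst huv
      rw [update_self, update_self]
    · rw [update_of_ne huv, update_of_ne huv]
      apply h u hu
      rw [List.mem_cons, not_or]
      exact ⟨huv, hul⟩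

omit [Fintype V] [DecidableEq V] [Fintype U] in
theorem M_cons_of_notMem {A : U → Finset V} (hA : ∀ u, (A u).Nonempty) {f : (U → V) → ℝ}
    {S : Finset U} (hf : Dep f S) {u : U} (hu : u ∉ S) (l : List U) (φ : U → V) (a : V) :
    M A l f (update φ u a) = M A (u :: l) f φ := by
  have h1 : ∀ b : V, M A l f (update φ u b) = M A l f φ := by
    intro b
    apply M_congr_dep hf
    intro v hv _
    rw [update_of_ne]
    rintro rfl
    exact hu hv
  simp only [M]
  simp_rw [h1]
  rw [sum_const, nsmul_eq_mul, mul_comm, mul_div_assoc, div_self, mul_one]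
  have : 0 < (A u).card := card_pos.2 (hA u)
  positivity

omit [Fintype V] [DecidableEq V] [Fintype U] in
theorem M_filter {A : U → Finset V} (hA : ∀ u, (A u).Nonempty) {f : (U → V) → ℝ}
    {S : Finset U} (hf : Dep f S) :
    ∀ (l : List U) (φ : U → V), M A l f φ = M A (l.filter (· ∈ S)) f φ := by
  intro l
  induction l with
  | nil => intro φ; rfl
  | cons u l ih =>
    intro φ
    by_cases hu : u ∈ S
    · rw [List.filter_cons_of_pos (by simpa using hu)]
      simp only [M]
      congr 1
      apply sum_congr rfl
      intro a _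
      exact ih _
    · rw [List.filter_cons_of_neg (by simpa using hu), ← ih φ]
      obtain ⟨a, _⟩ := hA u
      rw [← M_cons_of_notMem hA hf hu l φ a]
      apply M_congr_dep hf
      intro v hv _
      rw [update_of_ne]
      rintro rfl
      exact hu hv

omit [DecidableEq V] [Fintype U] in
theorem M_le_full {A : U → Finset V} {β : ℝ} (hβ : 0 < β) [Nonempty V]
    (hA : ∀ u, β * (Fintype.card V : ℝ) ≤ ((A u).card : ℝ)) {f : (U → V) → ℝ}
    (hf : ∀ φ, 0 ≤ f φ) : ∀ (l : List U) (φ : U → V),
      M A l f φ ≤ (1 / β) ^ l.length * M (fun _ => univ) l f φ := by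
  have hn : (0 : ℝ) < Fintype.card V := by exact_mod_cast Fintype.card_pos
  intro l
  induction l with
  | nil => intro φ; simp [M]
  | cons u l ih =>
    intro φ
    simp only [M, List.length_cons, card_univ]
    have hAu : 0 < ((A u).card : ℝ) := lt_of_lt_of_le (by positivity) (hA u)
    have h1 : ∑ a ∈ A u, M A l f (update φ u a) ≤
        (1 / β) ^ l.length * ∑ a : V, M (fun _ => univ) l f (update φ u a) := by
      rw [mul_sum]
      calc ∑ a ∈ A u, M A l f (update φ u a)
          ≤ ∑ a ∈ A u, (1 / β) ^ l.length * M (fun _ => univ) l f (update φ u a) :=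
            sum_le_sum fun a _ => ih _
        _ ≤ ∑ a : V, (1 / β) ^ l.length * M (fun _ => univ) l f (update φ u a) := by
            apply sum_le_sum_of_subset_of_nonneg (subset_univ _)
            intro a _ _
            apply mul_nonneg (by positivity)
            exact M_nonneg hf _ _
    have h2 : 0 ≤ (1 / β) ^ l.length * ∑ a : V, M (fun _ => univ) l f (update φ u a) := by
      apply mul_nonneg (by positivity)
      exact sum_nonneg fun a _ => M_nonneg hf _ _
    calc (∑ a ∈ A u, M A l f (update φ u a)) / ((A u).card : ℝ)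
        ≤ ((1 / β) ^ l.length * ∑ a : V, M (fun _ => univ) l f (update φ u a)) /
            ((A u).card : ℝ) := by gcongr
      _ ≤ ((1 / β) ^ l.length * ∑ a : V, M (fun _ => univ) l f (update φ u a)) /
            (β * (Fintype.card V : ℝ)) := by
          apply div_le_div_of_nonneg_left h2 (by positivity) (hA u)
      _ = (1 / β) ^ (l.length + 1) *
            ((∑ a : V, M (fun _ => univ) l f (update φ u a)) / (Fintype.card V : ℝ)) := by
          rw [pow_succ]
          field_simp

theorem ex_mono {f g : (U → V) → ℝ} (h : ∀ φ, f φ ≤ g φ) : ex f ≤ ex g := by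
  unfold ex
  gcongr
  exact h _

theorem ex_nonneg {f : (U → V) → ℝ} (h : ∀ φ, 0 ≤ f φ) : 0 ≤ ex f := by
  unfold ex
  apply div_nonneg _ (by positivity)
  exact sum_nonneg fun φ _ => h φ

theorem ex_const [Nonempty V] (c : ℝ) : ex (fun _ : U → V => c) = c := by
  unfold ex
  have hn : (0 : ℝ) < Fintype.card V := by exact_mod_cast Fintype.card_pos
  rw [sum_const, card_univ, Fintype.card_fun, nsmul_eq_mul]
  push_cast
  field_simp

theorem ex_mul (c : ℝ) (f : (U → V) → ℝ) : ex (fun φ => c * f φ) = c * ex f := by
  unfold ex
  rw [← mul_sum, mul_div_assoc]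

theorem ex_avg [Nonempty V] (g : (U → V) → ℝ) (u : U) :
    ex (fun φ => (∑ a : V, g (update φ u a)) / (Fintype.card V : ℝ)) = ex g := by
  unfold ex
  have hn : (0 : ℝ) < Fintype.card V := by exact_mod_cast Fintype.card_pos
  have h1 : ∑ φ : U → V, ∑ a : V, g (update φ u a) = (Fintype.card V : ℝ) * ∑ φ : U → V, g φ := by
    have h2 : ∑ p : (U → V) × V, g (update p.1 u p.2) = ∑ p : (U → V) × V, g p.1 := by
      apply Fintype.sum_bijective (fun p : (U → V) × V => (update p.1 u p.2, p.1 u))
      · apply Function.Involutive.bijective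
        rintro ⟨φ, a⟩
        simp
      · intro p
        rfl
    rw [← Fintype.sum_prod_type', h2, Fintype.sum_prod_type]
    simp only [sum_const, card_univ, nsmul_eq_mul]
    rw [mul_sum]
  rw [← sum_div, h1]
  field_simp

theorem ex_M [Nonempty V] (f : (U → V) → ℝ) (l : List U) :
    ex (M (fun _ => univ) l f) = ex f := by
  induction l with
  | nil => rfl
  | cons u l ih =>
    rw [← ih, ← ex_avg (M (fun _ => univ) l f) u]
    congr 1

/-- A function depending on `S` only: its average is an iterated average. -/
theorem ex_eq_M [Nonempty V] {f : (U → V) → ℝ} {S : Finset U} (hf : Dep f S) {l : List U}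
    (hl : ∀ u ∈ S, u ∈ l) (φ₀ : U → V) : ex f = M (fun _ => univ) l f φ₀ := by
  rw [← ex_M f l]
  have h1 : M (fun _ => univ) l f = fun _ => M (fun _ => univ) l f φ₀ := by
    funext φ
    apply M_congr_dep hf
    intro u hu hul
    exact absurd (hl u hu) hul
  rw [h1, ex_const]

end basic

section transfer

variable {V U T : Type} [Fintype V] [DecidableEq V] [Fintype U] [DecidableEq U] [Fintype T]
  [DecidableEq T]

omit [DecidableEq V] [Fintype U] [Fintype T] in
theorem M_transfer {w : (U → V) → ℝ} {S : Finset U} (hw : Dep w S) {i : U → T}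
    (hi : Set.InjOn i S) : ∀ (l : List U), (∀ u ∈ l, u ∈ S) → ∀ (φ : U → V) (y : T → V),
      (∀ u ∈ S, φ u = y (i u)) →
      M (fun _ => univ) l w φ = M (fun _ => univ) (l.map i) (fun z : T → V => w (z ∘ i)) y := by
  intro l
  induction l with
  | nil =>
    intro _ φ y h
    simp only [M, List.map_nil]
    exact hw _ _ h
  | cons u l ih =>
    intro hl φ y h
    simp only [M, List.map_cons]
    congr 1
    apply sum_congr rfl
    intro a _
    apply ih (fun v hv => hl v (List.mem_cons_of_mem _ hv))
    intro v hv
    have hu : u ∈ S := hl u List.mem_cons_self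
    by_cases huv : v = u
    · subst huv
      rw [update_self, update_self]
    · rw [update_of_ne huv, update_of_ne (fun hc => huv (hi hv hu hc))]
      exact h v hv

theorem ex_transfer [Nonempty V] {w : (U → V) → ℝ} {S : Finset U} (hw : Dep w S) {i : U → T}
    (hi : Set.InjOn i S) : ex (fun z : T → V => w (z ∘ i)) = ex w := by
  obtain ⟨v₀⟩ := (inferInstance : Nonempty V)
  have hdep : Dep (fun z : T → V => w (z ∘ i)) (S.image i) := by
    intro φ ψ h
    apply hw
    intro u hu
    exact h _ (mem_image_of_mem _ hu)
  rw [ex_eq_M hw (l := S.toList) (fun u hu => mem_toList.2 hu) (fun _ => v₀),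
    ex_eq_M hdep (l := S.toList.map i) (fun u hu => by
      obtain ⟨v, hv, rfl⟩ := mem_image.1 hu
      exact List.mem_map_of_mem (mem_toList.2 hv)) (fun _ => v₀)]
  symm
  apply M_transfer hw hi _ (fun u hu => mem_toList.1 hu)
  intro u _
  rfl

end transfer

section greedy

variable {V U J : Type} [Fintype V] [DecidableEq V] [Fintype U] [DecidableEq U] [Fintype J]

omit [Fintype V] [Fintype U] in
/-- The greedy choice of the values, one coordinate at a time. -/
theorem greedy {A : U → Finset V} (hA : ∀ u, (A u).Nonempty) (S : J → Finset U)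
    (w : J → (U → V) → ℝ) (t : ℕ) (ht : ∀ u, (univ.filter fun j => u ∈ S j).card ≤ t)
    (hdep : ∀ j, Dep (w j) (S j)) (hw : ∀ j φ, 0 ≤ w j φ) :
    ∀ (l : List U) (φ : U → V),
      (∀ j, M A l (w j) φ * (2 * (t : ℝ) + 2) ^ (l.filter (· ∈ S j)).length < 1) →
      (1 / 2 : ℝ) ^ l.length ≤ M A l (fun ψ => ind (∀ j, w j ψ < 1)) φ := by
  intro l
  induction l with
  | nil =>
    intro φ h
    simp only [M, List.length_nil, pow_zero]
    rw [ind_true]
    intro j
    have := h j
    simpa [M] using this
  | cons u l ih =>
    intro φ h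
    set τ : ℝ := 2 * (t : ℝ) + 2 with hτ
    have hτ0 : 0 < τ := by rw [hτ]; positivity
    have hAu : 0 < ((A u).card : ℝ) := by exact_mod_cast card_pos.2 (hA u)
    classical
    -- the bad values
    set bad : J → Finset V := fun j =>
      (A u).filter fun a => τ * M A (u :: l) (w j) φ < M A l (w j) (update φ u a) with hbad
    have hbadc : ∀ j, ((bad j).card : ℝ) * τ ≤ (A u).card := by
      intro j
      set m := M A (u :: l) (w j) φ with hm
      have hm0 : 0 ≤ m := M_nonneg (hw j) _ _
      have hsum : ∑ a ∈ A u, M A l (w j) (update φ u a) = m * (A u).card := by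
        rw [hm]
        simp only [M]
        field_simp
      have hsub : ∑ a ∈ bad j, M A l (w j) (update φ u a) ≤ m * (A u).card := by
        rw [← hsum]
        apply sum_le_sum_of_subset_of_nonneg (filter_subset _ _)
        intro a _ _
        exact M_nonneg (hw j) _ _
      rcases hm0.eq_or_lt with h0 | h0
      · have hempty : bad j = ∅ := by
          rw [Finset.eq_empty_iff_forall_notMem]
          intro a ha
          have ha' := (mem_filter.1 ha).2
          rw [← hm, ← h0, mul_zero] at ha'
          rw [← h0, zero_mul] at hsum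
          have h3 := (sum_eq_zero_iff_of_nonneg fun a _ => M_nonneg (hw j) _ _).1 hsum a
            (mem_filter.1 ha).1
          linarith
        rw [hempty]
        simp
      · have h4 : ((bad j).card : ℝ) * (τ * m) ≤ ∑ a ∈ bad j, M A l (w j) (update φ u a) := by
          rw [← nsmul_eq_mul, ← sum_const]
          apply sum_le_sum
          intro a ha
          exact (mem_filter.1 ha).2.le
        have h5 : ((bad j).card : ℝ) * τ * m ≤ (A u).card * m := by
          calc ((bad j).card : ℝ) * τ * m = ((bad j).card : ℝ) * (τ * m) := by ring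
            _ ≤ m * (A u).card := h4.trans hsub
            _ = (A u).card * m := by ring
        exact le_of_mul_le_mul_right h5 h0
    set B : Finset V := (univ.filter fun j => u ∈ S j).biUnion bad with hB
    have hBc : (B.card : ℝ) ≤ (A u).card / 2 := by
      have h1 : (B.card : ℝ) ≤ ∑ j ∈ univ.filter (fun j => u ∈ S j), ((bad j).card : ℝ) := by
        have := card_biUnion_le (s := univ.filter fun j => u ∈ S j) (t := bad)
        exact_mod_cast this
      have h2 : ∑ j ∈ univ.filter (fun j => u ∈ S j), ((bad j).card : ℝ) ≤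
          ∑ j ∈ univ.filter (fun j => u ∈ S j), ((A u).card / τ : ℝ) := by
        apply sum_le_sum
        intro j _
        rw [le_div_iff₀ hτ0]
        exact hbadc j
      rw [sum_const, nsmul_eq_mul] at h2
      have h3 : ((univ.filter fun j => u ∈ S j).card : ℝ) ≤ t := by exact_mod_cast ht u
      have h4 : ((univ.filter fun j => u ∈ S j).card : ℝ) * ((A u).card / τ : ℝ) ≤
          t * ((A u).card / τ : ℝ) := by gcongr
      have h5 : (t : ℝ) * ((A u).card / τ : ℝ) ≤ (A u).card / 2 := by
        rw [mul_div_assoc', div_le_div_iff₀ hτ0 (by norm_num), hτ]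
        nlinarith
      linarith
    -- the good values
    have hgood : ∀ a ∈ A u \ B, (1 / 2 : ℝ) ^ l.length ≤
        M A l (fun ψ => ind (∀ j, w j ψ < 1)) (update φ u a) := by
      intro a ha
      rw [mem_sdiff] at ha
      apply ih
      intro j
      have hj := h j
      by_cases hu : u ∈ S j
      · have h1 : M A l (w j) (update φ u a) ≤ τ * M A (u :: l) (w j) φ := by
          by_contra hcon
          push Not at hcon
          apply ha.2
          rw [hB, mem_biUnion]
          exact ⟨j, mem_filter.2 ⟨mem_univ _, hu⟩, mem_filter.2 ⟨ha.1, hcon⟩⟩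
        rw [List.filter_cons_of_pos (by simpa using hu), List.length_cons, pow_succ] at hj
        calc M A l (w j) (update φ u a) * τ ^ (l.filter (· ∈ S j)).length
            ≤ τ * M A (u :: l) (w j) φ * τ ^ (l.filter (· ∈ S j)).length := by gcongr
          _ = M A (u :: l) (w j) φ * (τ ^ (l.filter (· ∈ S j)).length * τ) := by ring
          _ < 1 := hj
      · rw [List.filter_cons_of_neg (by simpa using hu)] at hj
        rw [M_cons_of_notMem hA (hdep j) hu l φ a]
        exact hj
    -- the count
    simp only [M, List.length_cons]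
    rw [le_div_iff₀ hAu]
    have h1 : ∑ a ∈ A u \ B, (1 / 2 : ℝ) ^ l.length ≤
        ∑ a ∈ A u, M A l (fun ψ => ind (∀ j, w j ψ < 1)) (update φ u a) := by
      calc ∑ a ∈ A u \ B, (1 / 2 : ℝ) ^ l.length
          ≤ ∑ a ∈ A u \ B, M A l (fun ψ => ind (∀ j, w j ψ < 1)) (update φ u a) :=
            sum_le_sum hgood
        _ ≤ _ := by
            apply sum_le_sum_of_subset_of_nonneg sdiff_subset
            intro a _ _
            exact M_nonneg (fun ψ => ind_nonneg _) _ _
    rw [sum_const, nsmul_eq_mul] at h1
    have h2 : ((A u).card : ℝ) / 2 ≤ ((A u \ B).card : ℝ) := by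
      have h3 : (A u).card ≤ (A u \ B).card + B.card := by
        have := card_le_card_sdiff_add_card (s := A u) (t := B)
        exact this
      have h4 : ((A u).card : ℝ) ≤ ((A u \ B).card : ℝ) + B.card := by exact_mod_cast h3
      linarith
    have h3 : ((A u).card : ℝ) / 2 * (1 / 2 : ℝ) ^ l.length ≤
        ((A u \ B).card : ℝ) * (1 / 2 : ℝ) ^ l.length := by gcongr
    calc (1 / 2 : ℝ) ^ (l.length + 1) * ((A u).card : ℝ)
        = ((A u).card : ℝ) / 2 * (1 / 2 : ℝ) ^ l.length := by rw [pow_succ]; ring
      _ ≤ _ := h3.trans h1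

end greedy

end Pool.Agent.V11142.SidExp
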