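import Pool.Agent.V11142.SidExpStep

/-!
# Counting homomorphisms of bounded-degree `r`-partite hypergraphs: the tensor power trick
-/

set_option autoImplicit false

namespace Pool.Agent.V11142.SidExp

open Finset Function

theorem ex_ind {V U : Type} [Fintype V] [DecidableEq V] [Fintype U] [DecidableEq U]
    (P : (U → V) → Prop) [DecidablePred P] :
    ex (fun φ : U → V => ind (P φ)) =
      ((univ.filter P).card : ℝ) / (Fintype.card V : ℝ) ^ Fintype.card U := by
  unfold ex
  congr 1
  rw [card_filter]
  push_cast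
  apply sum_congr rfl
  intro φ _
  by_cases h : P φ
  · rw [ind_true h, if_pos h]
  · rw [ind_false h, if_neg h]

/-- The number of families of `N` good maps. -/
theorem card_tensor {V U : Type} [Fintype V] [DecidableEq V] [Fintype U] [DecidableEq U]
    (P : (U → V) → Prop) [DecidablePred P] (N : ℕ) :
    (univ.filter fun φ : U → (Fin N → V) => ∀ i, P fun u => φ u i).card =
      (univ.filter P).card ^ N := by
  rw [← Fintype.card_subtype, ← Fintype.card_subtype]
  have e1 : {φ : U → (Fin N → V) // ∀ i, P fun u => φ u i} ≃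
      {φ : Fin N → (U → V) // ∀ i, P (φ i)} :=
    { toFun := fun φ => ⟨fun i u => φ.1 u i, φ.2⟩
      invFun := fun φ => ⟨fun u i => φ.1 i u, φ.2⟩
      left_inv := fun _ => rfl
      right_inv := fun _ => rfl }
  have e2 : {φ : Fin N → (U → V) // ∀ i, P (φ i)} ≃ (Fin N → {φ : U → V // P φ}) :=
    Equiv.subtypePiEquivPi
  rw [Fintype.card_congr (e1.trans e2), Fintype.card_fun, Fintype.card_fin]

/-- The density form of the counting theorem. -/
theorem density_bound (r Δ : ℕ) : ∃ C : ℕ, ∀ (V U : Type) [Fintype V] [DecidableEq V] [Nonempty V]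
    [Fintype U] [DecidableEq U] (E : Finset (Fin r → V)) (F : Finset (Fin r → U)),
    0 < E.card → Partite F → DegLe F Δ →
    ((E.card : ℝ) / (Fintype.card V : ℝ) ^ r) ^ (C * Fintype.card U) ≤
      ((univ.filter fun φ : U → V => ∀ e ∈ F, φ ∘ e ∈ E).card : ℝ) /
        (Fintype.card V : ℝ) ^ Fintype.card U := by
  obtain ⟨C, hC⟩ := claim r Δ 0 0
  refine ⟨C, ?_⟩
  intro V U _ _ _ _ _ E F hE hpart hdeg
  have hn : (0 : ℝ) < Fintype.card V := by exact_mod_cast Fintype.card_pos
  set n : ℝ := (Fintype.card V : ℝ) with hndef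
  set m : ℕ := C * Fintype.card U with hm
  set d : ℝ := (E.card : ℝ) / n ^ r with hd
  set h : ℝ := ((univ.filter fun φ : U → V => ∀ e ∈ F, φ ∘ e ∈ E).card : ℝ) /
    n ^ Fintype.card U with hh
  have hd0 : 0 < d := by
    rw [hd]
    have : (0 : ℝ) < E.card := by exact_mod_cast hE
    positivity
  have hd1 : d ≤ 1 := by
    rw [hd, div_le_one (by positivity)]
    have : E.card ≤ Fintype.card (Fin r → V) := card_le_univ _
    rw [Fintype.card_fun, Fintype.card_fin] at this
    rw [hndef]
    exact_mod_cast this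
  -- the bound for the tensor powers
  have key : ∀ N : ℕ, (d ^ N / 2) ^ m ≤ h ^ N := by
    intro N
    set E' : Finset (Fin r → (Fin N → V)) :=
      univ.filter fun z => ∀ i, (fun k => z k i) ∈ E with hE'
    have hE'c : E'.card = E.card ^ N := by
      have h1 := card_tensor (V := V) (U := Fin r) (fun z => z ∈ E) N
      rw [hE', h1]
      congr 2
      ext z
      simp
    have hcard : (Fintype.card (Fin N → V) : ℝ) = n ^ N := by
      rw [Fintype.card_fun, Fintype.card_fin]
      push_cast
      rfl
    have h2 := hC (Fin N → V) U Empty (d ^ N / 2) E' F (fun j => j.elim) (fun j => j.elim)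
      (by positivity)
      (by
        have : d ^ N ≤ 1 := pow_le_one₀ hd0.le hd1
        linarith)
      (by
        rw [hE'c, hcard]
        push_cast
        have h3 : d ^ N * (n ^ N) ^ r = (E.card : ℝ) ^ N := by
          rw [hd, div_pow, ← pow_mul, ← pow_mul, mul_comm r N]
          field_simp
        calc d ^ N / 2 * (n ^ N) ^ r ≤ d ^ N * (n ^ N) ^ r := by
              apply mul_le_mul_of_nonneg_right _ (by positivity)
              have : 0 < d ^ N := by positivity
              linarith
          _ = (E.card : ℝ) ^ N := h3)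
      hpart hdeg (fun j => j.elim) (fun u => by simp) (fun j => j.elim) (fun j => j.elim)
      (fun j => j.elim)
    have h4 : (fun φ : U → (Fin N → V) =>
        ind ((∀ e ∈ F, φ ∘ e ∈ E') ∧ ∀ j : Empty, (Empty.elim j : (U → Fin N → V) → ℝ) φ < 1)) =
        fun φ : U → (Fin N → V) => ind (∀ i, ∀ e ∈ F, (fun u => φ u i) ∘ e ∈ E) := by
      funext φ
      apply ind_congr
      constructor
      · rintro ⟨h5, _⟩ i e he
        exact (mem_filter.1 (h5 e he)).2 i
      · intro h5
        refine ⟨fun e he => ?_, fun j => j.elim⟩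
        rw [hE', mem_filter]
        exact ⟨mem_univ _, fun i => h5 i e he⟩
    rw [h4, ex_ind, card_tensor (V := V) (U := U) (fun φ => ∀ e ∈ F, φ ∘ e ∈ E) N, hcard] at h2
    push_cast at h2
    refine h2.trans (le_of_eq ?_)
    rw [hh, div_pow, ← pow_mul, ← pow_mul, mul_comm N]
  -- conclusion
  by_contra hcon
  push Not at hcon
  have hD0 : 0 < d ^ m := by positivity
  have hh0 : 0 ≤ h := by rw [hh]; positivity
  obtain ⟨N, hN⟩ := exists_pow_lt_of_lt_one (show (0 : ℝ) < (1 / 2) ^ m by positivity)
    (show h / d ^ m < 1 by rw [div_lt_one hD0]; exact hcon)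
  have h1 := key N
  rw [div_pow, div_lt_iff₀ (by positivity)] at hN
  have h2 : (d ^ N / 2) ^ m = (1 / 2) ^ m * (d ^ m) ^ N := by
    rw [div_pow, ← pow_mul, ← pow_mul, mul_comm m N]
    rw [one_div, inv_pow]
    field_simp
  rw [h2] at h1
  linarith

end Pool.Agent.V11142.SidExp
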