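import Pool.Agent.V11142.SidExp

/-!
# Counting homomorphisms of bounded-degree `r`-partite hypergraphs: the induction on `r`
-/

set_option autoImplicit false

namespace Pool.Agent.V11142.SidExp

open Finset Function

section choose_x

variable {V U : Type} [Fintype V] [DecidableEq V] [Fintype U] [DecidableEq U] {r : ℕ}

/-- The common neighbours of the images of the tuples in `Q`. -/
def cand (E : Finset (Fin (r + 1) → V)) (Q : Finset (Fin r → U)) (φ : U → V) : Finset V :=
  univ.filter fun a => ∀ q ∈ Q, (Fin.cons a (φ ∘ q) : Fin (r + 1) → V) ∈ E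

/-- The link of a vertex. -/
def lnk (E : Finset (Fin (r + 1) → V)) (x : V) : Finset (Fin r → V) :=
  univ.filter fun z => (Fin.cons x z : Fin (r + 1) → V) ∈ E

/-- The tuples of `Q` are mapped into the link of `x` but have few common neighbours. -/
noncomputable def badw (E : Finset (Fin (r + 1) → V)) (x : V) (b : ℝ) (Q : Finset (Fin r → U))
    (φ : U → V) : ℝ :=
  ind (x ∈ cand E Q φ ∧ ((cand E Q φ).card : ℝ) < b)

theorem sum_badw (E : Finset (Fin (r + 1) → V)) {b : ℝ} (hb : 0 ≤ b) (Q : Finset (Fin r → U))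
    (φ : U → V) : ∑ x, badw E x b Q φ ≤ b := by
  by_cases h : ((cand E Q φ).card : ℝ) < b
  · calc ∑ x, badw E x b Q φ ≤ ∑ x, if x ∈ cand E Q φ then (1 : ℝ) else 0 := by
          apply sum_le_sum
          intro x _
          unfold badw
          by_cases hx : x ∈ cand E Q φ
          · rw [if_pos hx]; exact ind_le_one _
          · rw [if_neg hx, ind_false]
            exact fun hc => hx hc.1
      _ = (cand E Q φ).card := by
          rw [sum_ite_mem, univ_inter, sum_const, nsmul_eq_mul, mul_one]
      _ ≤ b := h.le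
  · have : ∀ x ∈ (univ : Finset V), badw E x b Q φ = 0 := fun x _ => ind_false fun hc => h hc.2
    rw [sum_congr rfl this]
    simpa using hb

theorem sum_ex_badw [Nonempty V] (E : Finset (Fin (r + 1) → V)) {b : ℝ} (hb : 0 ≤ b)
    (Q : Finset (Fin r → U)) : ∑ x, ex (badw E x b Q) ≤ b := by
  have h1 : ∑ x, ex (badw E x b Q) = ex (fun φ => ∑ x, badw E x b Q φ) := by
    unfold ex
    rw [← sum_div, sum_comm]
  rw [h1]
  calc ex (fun φ => ∑ x, badw E x b Q φ) ≤ ex (fun _ : U → V => b) :=
        ex_mono fun φ => sum_badw E hb Q φ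
    _ = b := ex_const b

theorem sum_lnk (E : Finset (Fin (r + 1) → V)) : ∑ x, (lnk E x).card = E.card := by
  rw [card_eq_sum_card_fiberwise (f := fun z => z 0) (t := univ) (fun _ _ => mem_univ _)]
  apply sum_congr rfl
  intro x _
  apply card_bij (fun z _ => (Fin.cons x z : Fin (r + 1) → V))
  · intro z hz
    rw [mem_filter]
    exact ⟨(mem_filter.1 hz).2, Fin.cons_zero _ _⟩
  · intro z _ z' _ h
    exact Fin.cons_right_injective _ h
  · intro z hz
    rw [mem_filter] at hz
    refine ⟨Fin.tail z, ?_, ?_⟩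
    · rw [lnk, mem_filter]
      refine ⟨mem_univ _, ?_⟩
      rw [← hz.2, Fin.cons_self_tail]
      exact hz.1
    · rw [← hz.2, Fin.cons_self_tail]

/-- The choice of a vertex `x` with a dense link such that few maps into the link have few common
neighbours. -/
theorem choose_x [Nonempty V] (T : Type) [Fintype T] [DecidableEq T]
    (E : Finset (Fin (r + 1) → V)) {δ β : ℝ} (hδ : 0 < δ) (hβ : 0 < β)
    (hE : δ * (Fintype.card V : ℝ) ^ (r + 1) ≤ (E.card : ℝ)) :
    ∃ x : V, δ / 2 * (Fintype.card V : ℝ) ^ r ≤ ((lnk E x).card : ℝ) ∧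
      ∀ Q : Finset (Fin r → T), ex (badw E x (β * Fintype.card V) Q) ≤
        2 * (Fintype.card (Finset (Fin r → T)) : ℝ) * β / δ := by
  have hn : (0 : ℝ) < Fintype.card V := by exact_mod_cast Fintype.card_pos
  set n : ℝ := (Fintype.card V : ℝ) with hndef
  set K : ℝ := (Fintype.card (Finset (Fin r → T)) : ℝ) with hK
  have hK0 : 0 < K := by
    rw [hK]
    exact_mod_cast Fintype.card_pos
  set R : V → ℝ := fun x => ∑ Q : Finset (Fin r → T), ex (badw E x (β * n) Q) with hR
  have hR0 : ∀ x, 0 ≤ R x := fun x => sum_nonneg fun Q _ => ex_nonneg fun φ => ind_nonneg _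
  have hRsum : ∑ x, R x ≤ K * (β * n) := by
    rw [hR, sum_comm]
    calc ∑ Q : Finset (Fin r → T), ∑ x, ex (badw E x (β * n) Q)
        ≤ ∑ Q : Finset (Fin r → T), β * n :=
          sum_le_sum fun Q _ => sum_ex_badw E (by positivity) Q
      _ = K * (β * n) := by rw [sum_const, card_univ, nsmul_eq_mul, hK]
  have hLsum : ∑ x, ((lnk E x).card : ℝ) = (E.card : ℝ) := by exact_mod_cast sum_lnk E
  have hex : ∃ x, δ / 2 ≤ ((lnk E x).card : ℝ) / n ^ r - δ / (2 * K * β) * R x := by
    by_contra hcon
    push Not at hcon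
    have h1 : ∑ x : V, (((lnk E x).card : ℝ) / n ^ r - δ / (2 * K * β) * R x) <
        ∑ _x : V, δ / 2 := by
      apply sum_lt_sum_of_nonempty univ_nonempty
      intro x _
      exact hcon x
    rw [sum_sub_distrib, ← sum_div, hLsum, ← mul_sum, sum_const, card_univ, nsmul_eq_mul,
      ← hndef] at h1
    have h2 : δ * n ≤ (E.card : ℝ) / n ^ r := by
      rw [le_div_iff₀ (by positivity)]
      calc δ * n * n ^ r = δ * n ^ (r + 1) := by ring
        _ ≤ E.card := hE
    have h3 : δ / (2 * K * β) * ∑ x, R x ≤ δ / (2 * K * β) * (K * (β * n)) := by gcongr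
    have h4 : δ / (2 * K * β) * (K * (β * n)) = n * (δ / 2) := by field_simp
    have h5 : n * (δ / 2) = δ * n / 2 := by ring
    linarith
  obtain ⟨x, hx⟩ := hex
  have hRx : 0 ≤ δ / (2 * K * β) * R x := mul_nonneg (by positivity) (hR0 x)
  refine ⟨x, ?_, fun Q => ?_⟩
  · have : δ / 2 ≤ ((lnk E x).card : ℝ) / n ^ r := by linarith
    rwa [le_div_iff₀ (by positivity)] at this
  · have h1 : ((lnk E x).card : ℝ) / n ^ r ≤ 1 := by
      rw [div_le_one (by positivity)]
      have : (lnk E x).card ≤ Fintype.card (Fin r → V) := card_le_univ _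
      rw [Fintype.card_fun, Fintype.card_fin] at this
      rw [hndef]
      exact_mod_cast this
    have h2 : δ / (2 * K * β) * R x ≤ 1 := by linarith
    have h3 : R x ≤ 2 * K * β / δ := by
      rw [le_div_iff₀ hδ]
      rw [div_mul_eq_mul_div, div_le_one (by positivity)] at h2
      linarith
    have h4 : ex (badw E x (β * n) Q) ≤ R x := by
      rw [hR]
      apply single_le_sum (f := fun Q => ex (badw E x (β * n) Q))
        (fun Q _ => ex_nonneg fun φ => ind_nonneg _) (mem_univ Q)
    exact h4.trans h3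

end choose_x

/-- The hypergraph is `(r)`-partite: different positions of tuples have different vertices. -/
def Partite {U : Type} {r : ℕ} (F : Finset (Fin r → U)) : Prop :=
  ∀ e ∈ F, ∀ e' ∈ F, ∀ i j, e i = e' j → i = j

/-- The maximum degree is at most `Δ`. -/
def DegLe {U : Type} [DecidableEq U] {r : ℕ} (F : Finset (Fin r → U)) (Δ : ℕ) : Prop :=
  ∀ u : U, (F.filter fun e => ∃ i, e i = u).card ≤ Δ

/-- The statement proved by induction on `r`. -/
def Claim (r Δ s t C : ℕ) : Prop :=
  ∀ (V U J : Type) [Fintype V] [DecidableEq V] [Nonempty V] [Fintype U] [DecidableEq U]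
    [Fintype J] (δ : ℝ) (E : Finset (Fin r → V)) (F : Finset (Fin r → U)) (S : J → Finset U)
    (w : J → (U → V) → ℝ),
    0 < δ → δ ≤ 1 / 2 → δ * (Fintype.card V : ℝ) ^ r ≤ (E.card : ℝ) → Partite F → DegLe F Δ →
    (∀ j, (S j).card ≤ s) → (∀ u, (univ.filter fun j => u ∈ S j).card ≤ t) →
    (∀ j, Dep (w j) (S j)) → (∀ j φ, 0 ≤ w j φ) → (∀ j, ex (w j) ≤ δ ^ C) →
    δ ^ (C * Fintype.card U) ≤ ex (fun φ : U → V => ind ((∀ e ∈ F, φ ∘ e ∈ E) ∧ ∀ j, w j φ < 1))

theorem pow_half_mul_le {δ : ℝ} (h0 : 0 < δ) (h1 : δ ≤ 1 / 2) (x : ℝ) (k : ℕ)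
    (hx : x ≤ (2 : ℝ) ^ k) (hx0 : 0 ≤ x) : δ ^ k * x ≤ 1 := by
  calc δ ^ k * x ≤ (1 / 2) ^ k * (2 : ℝ) ^ k := by gcongr
    _ = 1 := by rw [← mul_pow]; norm_num

theorem nat_le_two_pow (k : ℕ) : (k : ℝ) ≤ (2 : ℝ) ^ k := by
  have : k < 2 ^ k := Nat.lt_two_pow_self
  exact_mod_cast this.le

/-- The base case. -/
theorem claim_zero (Δ s t : ℕ) : ∃ C, Claim 0 Δ s t C := by
  set T : ℕ := (2 * t + 2) ^ s with hT
  refine ⟨T + 1, ?_⟩
  intro V U J _ _ _ _ _ _ δ E F S w hδ0 hδ hE hpart hdeg hs ht hdep hw hex
  obtain ⟨v₀⟩ := (inferInstance : Nonempty V)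
  have hE' : ∀ z : Fin 0 → V, z ∈ E := by
    intro z
    have hpos : 0 < E.card := by
      have : (0 : ℝ) < E.card := lt_of_lt_of_le (by simpa using hδ0) hE
      exact_mod_cast this
    obtain ⟨z', hz'⟩ := card_pos.1 hpos
    have : z = z' := Subsingleton.elim _ _
    rw [this]
    exact hz'
  have h1 : (fun φ : U → V => ind ((∀ e ∈ F, φ ∘ e ∈ E) ∧ ∀ j, w j φ < 1)) =
      fun φ : U → V => ind (∀ j, w j φ < 1) := by
    funext φ
    apply ind_congr
    exact ⟨fun h => h.2, fun h => ⟨fun e _ => hE' _, h⟩⟩
  rw [h1, ex_eq_M (S := univ) (l := (univ : Finset U).toList)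
    (fun φ ψ h => by
      have : φ = ψ := funext fun u => h u (mem_univ u)
      rw [this]) (fun u _ => mem_toList.2 (mem_univ u)) (fun _ => v₀)]
  have h2 := greedy (A := fun _ : U => (univ : Finset V)) (fun _ => univ_nonempty) S w t ht hdep hw
    (univ : Finset U).toList (fun _ => v₀) (by
      intro j
      rw [← ex_eq_M (hdep j) (l := (univ : Finset U).toList)
        (fun u _ => mem_toList.2 (mem_univ u)) (fun _ => v₀)]
      have hlen : ((univ : Finset U).toList.filter (· ∈ S j)).length ≤ s := by
        have hnd : ((univ : Finset U).toList.filter (· ∈ S j)).Nodup :=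
          (nodup_toList _).filter _
        rw [← List.toFinset_card_of_nodup hnd]
        refine (card_le_card ?_).trans (hs j)
        intro u hu
        rw [List.mem_toFinset, List.mem_filter] at hu
        simpa using hu.2
      have h3 : (2 * (t : ℝ) + 2) ^ ((univ : Finset U).toList.filter (· ∈ S j)).length ≤ T := by
        rw [hT]
        push_cast
        apply pow_le_pow_right₀ _ hlen
        have : (0 : ℝ) ≤ t := by positivity
        linarith
      have h4 : ex (w j) * (2 * (t : ℝ) + 2) ^
          ((univ : Finset U).toList.filter (· ∈ S j)).length ≤ δ ^ (T + 1) * T := by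
        apply mul_le_mul (hex j) h3 (by positivity) (by positivity)
      have h5 : δ ^ T * (T : ℝ) ≤ 1 :=
        pow_half_mul_le hδ0 hδ T T (nat_le_two_pow T) (by positivity)
      have h6 : δ ^ (T + 1) * (T : ℝ) = δ * (δ ^ T * T) := by ring
      rw [h6] at h4
      have h7 : δ * (δ ^ T * T) ≤ 1 / 2 * 1 := by
        apply mul_le_mul hδ h5 (by positivity) (by norm_num)
      linarith)
  rw [length_toList, card_univ] at h2
  refine le_trans ?_ h2
  calc δ ^ ((T + 1) * Fintype.card U) ≤ δ ^ (Fintype.card U) := by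
        apply pow_le_pow_of_le_one hδ0.le (by linarith)
        exact Nat.le_mul_of_pos_left _ (Nat.succ_pos _)
    _ ≤ (1 / 2) ^ (Fintype.card U) := by gcongr

section more

variable {V U : Type} [Fintype V] [DecidableEq V] [Fintype U] [DecidableEq U]

omit [Fintype V] [DecidableEq V] [Fintype U] in
theorem M_congr_A {A A' : U → Finset V} {f : (U → V) → ℝ} :
    ∀ (l : List U) (φ : U → V), (∀ u ∈ l, A u = A' u) → M A l f φ = M A' l f φ := by
  intro l
  induction l with
  | nil => intro φ _; rfl
  | cons v l ih =>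
    intro φ h
    simp only [M]
    rw [h v List.mem_cons_self]
    congr 1
    apply sum_congr rfl
    intro a _
    exact ih _ fun u hu => h u (List.mem_cons_of_mem _ hu)

omit [Fintype V] [DecidableEq V] [Fintype U] in
theorem M_congr_on {A : U → Finset V} {f g : (U → V) → ℝ} :
    ∀ (l : List U) (φ : U → V),
      (∀ ψ : U → V, (∀ u ∈ l, ψ u ∈ A u) → (∀ u, u ∉ l → ψ u = φ u) → f ψ = g ψ) →
      M A l f φ = M A l g φ := by
  intro l
  induction l with
  | nil =>
    intro φ h
    exact h φ (fun u hu => absurd hu List.not_mem_nil) fun u _ => rfl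
  | cons v l ih =>
    intro φ h
    simp only [M]
    congr 1
    apply sum_congr rfl
    intro a ha
    apply ih
    intro ψ h1 h2
    apply h
    · intro u hu
      rw [List.mem_cons] at hu
      by_cases hul : u ∈ l
      · exact h1 u hul
      · rcases hu with rfl | hu
        · rw [h2 u hul, update_self]
          exact ha
        · exact absurd hu hul
    · intro u hu
      rw [List.mem_cons, not_or] at hu
      rw [h2 u hu.2, update_of_ne hu.1]

/-- A map that is injective on a small set. -/
theorem exists_injOn {N : ℕ} (hN : 0 < N) (S : Finset U) (hS : S.card ≤ N) :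
    ∃ i : U → Fin N, Set.InjOn i S := by
  classical
  refine ⟨fun u => if h : u ∈ S then Fin.castLE hS (S.equivFin ⟨u, h⟩) else ⟨0, hN⟩, ?_⟩
  intro u hu v hv huv
  rw [mem_coe] at hu hv
  simp only [hu, hv, dif_pos] at huv
  have h1 := Fin.castLE_injective hS huv
  have h2 := S.equivFin.injective h1
  exact congrArg Subtype.val h2

end more

section tails

variable {U : Type} [Fintype U] [DecidableEq U] {r : ℕ}

/-- The tails of the edges that start with `u`. -/
def tails (F : Finset (Fin (r + 1) → U)) (u : U) : Finset (Fin r → U) :=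
  (F.filter fun e => e 0 = u).image Fin.tail

/-- The vertices of the tails. -/
def Su (F : Finset (Fin (r + 1) → U)) (u : U) : Finset U :=
  (tails F u).biUnion fun q => univ.image q

omit [Fintype U] in
theorem card_Su {F : Finset (Fin (r + 1) → U)} {Δ : ℕ} (hF : DegLe F Δ) (u : U) :
    (Su F u).card ≤ Δ * r := by
  unfold Su
  have h1 : (tails F u).card ≤ Δ := by
    unfold tails
    refine card_image_le.trans ((card_le_card ?_).trans (hF u))
    intro e he
    rw [mem_filter] at he ⊢
    exact ⟨he.1, 0, he.2⟩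
  calc ((tails F u).biUnion fun q => univ.image q).card ≤ (tails F u).card * r := by
        apply card_biUnion_le_card_mul
        intro q _
        refine card_image_le.trans ?_
        rw [card_univ, Fintype.card_fin]
    _ ≤ Δ * r := Nat.mul_le_mul_right _ h1

theorem card_mem_Su {F : Finset (Fin (r + 1) → U)} {Δ : ℕ} (hF : DegLe F Δ) (v : U) :
    (univ.filter fun u => v ∈ Su F u).card ≤ Δ := by
  have h1 : (univ.filter fun u => v ∈ Su F u) ⊆
      (F.filter fun e => ∃ i, e i = v).image fun e => e 0 := by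
    intro u hu
    have hu' := (mem_filter.1 hu).2
    unfold Su tails at hu'
    rw [mem_biUnion] at hu'
    obtain ⟨q, hq, hvq⟩ := hu'
    obtain ⟨e, he, rfl⟩ := mem_image.1 hq
    rw [mem_filter] at he
    obtain ⟨i, _, hi⟩ := mem_image.1 hvq
    rw [mem_image]
    exact ⟨e, mem_filter.2 ⟨he.1, i.succ, hi⟩, he.2⟩
  exact (card_le_card h1).trans (card_image_le.trans (hF v))

end tails

/-- The induction step. -/
theorem claim_succ (r : ℕ) (ih : ∀ Δ s t, ∃ C, Claim r Δ s t C) (Δ s t : ℕ) :
    ∃ C, Claim (r + 1) Δ s t C := by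
  obtain ⟨C', hC'⟩ := ih Δ (s + (s + 1) * (Δ * r)) (Δ + t + Δ * t)
  set N : ℕ := Δ * r + 1 with hN
  set K : ℕ := Fintype.card (Finset (Fin r → Fin N)) with hK
  set B : ℕ := 2 * C' + 1 + 2 * K with hB
  set T : ℕ := (2 * t + 2) ^ s with hT
  refine ⟨T + B * s + 2 * C' + B + 1, ?_⟩
  intro V U J _ _ _ _ _ _ δ E F S w hδ0 hδ hE hpart hdeg hs ht hdep hw hex
  classical
  have hn : (0 : ℝ) < Fintype.card V := by exact_mod_cast Fintype.card_pos
  set n : ℝ := (Fintype.card V : ℝ) with hndef
  set β : ℝ := δ ^ B with hβ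
  have hβ0 : 0 < β := by rw [hβ]; positivity
  have hβ1 : β ≤ 1 := pow_le_one₀ hδ0.le (by linarith)
  set τ : ℝ := 2 * (t : ℝ) + 2 with hτ
  have hτ1 : 1 ≤ τ := by
    have : (0 : ℝ) ≤ t := by positivity
    rw [hτ]; linarith
  have hτT : τ ^ s = T := by rw [hT, hτ]; push_cast; rfl
  obtain ⟨x, hx1, hx2⟩ := choose_x (Fin N) E hδ0 hβ0 hE
  set U1 : Finset U := F.image fun e => e 0 with hU1
  set A : (U → V) → U → Finset V := fun φ u =>
    if β * n ≤ ((cand E (tails F u) φ).card : ℝ) then cand E (tails F u) φ else univ with hA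
  set L : J → List U := fun j => U1.toList.filter (· ∈ S j) with hL
  have hLlen : ∀ j, (L j).length ≤ s := by
    intro j
    have hnd : (L j).Nodup := (nodup_toList _).filter _
    rw [← List.toFinset_card_of_nodup hnd]
    refine (card_le_card ?_).trans (hs j)
    intro u hu
    rw [List.mem_toFinset, hL, List.mem_filter] at hu
    simpa using hu.2
  -- the new constraints
  set S' : U ⊕ J → Finset U := Sum.elim (Su F) (fun j => (S j \ U1) ∪ (S j).biUnion (Su F)) with hS'
  set w' : U ⊕ J → (U → V) → ℝ := Sum.elim (fun u => badw E x (β * n) (tails F u))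
    (fun j φ => τ ^ s * M (A φ) (L j) (w j) φ) with hw'
  have hAge : ∀ φ u, β * n ≤ ((A φ u).card : ℝ) := by
    intro φ u
    rw [hA]
    by_cases h : β * n ≤ ((cand E (tails F u) φ).card : ℝ)
    · simp only [if_pos h]; exact h
    · simp only [if_neg h, card_univ]
      rw [← hndef]
      nlinarith
  have hAne : ∀ φ u, (A φ u).Nonempty := by
    intro φ u
    rw [← card_pos]
    have := hAge φ u
    have h2 : (0 : ℝ) < ((A φ u).card : ℝ) := lt_of_lt_of_le (by positivity) this
    exact_mod_cast h2
  have hcand : ∀ (u : U) (φ ψ : U → V), (∀ v ∈ Su F u, φ v = ψ v) →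
      cand E (tails F u) φ = cand E (tails F u) ψ := by
    intro u φ ψ h
    unfold cand
    apply filter_congr
    intro a _
    have h1 : ∀ q ∈ tails F u, φ ∘ q = ψ ∘ q := by
      intro q hq
      funext i
      apply h
      rw [Su, mem_biUnion]
      exact ⟨q, hq, mem_image_of_mem _ (mem_univ i)⟩
    constructor
    · intro h2 q hq
      rw [← h1 q hq]
      exact h2 q hq
    · intro h2 q hq
      rw [h1 q hq]
      exact h2 q hq
  -- the hypotheses of the induction hypothesis
  have c1 : 0 < δ ^ 2 := by positivity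
  have c2 : δ ^ 2 ≤ 1 / 2 := by nlinarith
  have c3 : δ ^ 2 * n ^ r ≤ ((lnk E x).card : ℝ) := by
    refine le_trans ?_ hx1
    have : δ ^ 2 ≤ δ / 2 := by nlinarith
    gcongr
  have c4 : Partite (F.image Fin.tail) := by
    intro q hq q' hq' i j hij
    obtain ⟨e, he, rfl⟩ := mem_image.1 hq
    obtain ⟨e', he', rfl⟩ := mem_image.1 hq'
    exact Fin.succ_injective _ (hpart e he e' he' i.succ j.succ hij)
  have c5 : DegLe (F.image Fin.tail) Δ := by
    intro u
    refine le_trans ?_ (hdeg u)
    have h1 : ((F.image Fin.tail).filter fun e => ∃ i, e i = u) ⊆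
        (F.filter fun e => ∃ i, e i = u).image Fin.tail := by
      intro q hq
      rw [mem_filter] at hq
      obtain ⟨e, he, rfl⟩ := mem_image.1 hq.1
      obtain ⟨i, hi⟩ := hq.2
      exact mem_image_of_mem _ (mem_filter.2 ⟨he, i.succ, hi⟩)
    exact (card_le_card h1).trans card_image_le
  have c6 : ∀ j, (S' j).card ≤ s + (s + 1) * (Δ * r) := by
    intro j
    rcases j with u | j
    · have : (Su F u).card ≤ Δ * r := card_Su hdeg u
      simp only [hS', Sum.elim_inl]
      nlinarith
    · simp only [hS', Sum.elim_inr]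
      have h1 : (S j \ U1).card ≤ s := (card_le_card sdiff_subset).trans (hs j)
      have h2 : ((S j).biUnion (Su F)).card ≤ (S j).card * (Δ * r) := by
        apply card_biUnion_le_card_mul
        intro u _
        exact card_Su hdeg u
      have h3 : (S j).card * (Δ * r) ≤ (s + 1) * (Δ * r) :=
        Nat.mul_le_mul_right _ ((hs j).trans (Nat.le_succ s))
      exact (card_union_le _ _).trans (Nat.add_le_add h1 (h2.trans h3))
  have c7 : ∀ v, (univ.filter fun j => v ∈ S' j).card ≤ Δ + t + Δ * t := by
    intro v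
    rw [card_filter, Fintype.sum_sum_type]
    have h1 : ∑ u : U, (if v ∈ S' (Sum.inl u) then 1 else 0) ≤ Δ := by
      rw [← card_filter]
      exact card_mem_Su hdeg v
    have h2 : ∑ j : J, (if v ∈ S' (Sum.inr j) then 1 else 0) ≤ t + Δ * t := by
      rw [← card_filter]
      have h3 : (univ.filter fun j : J => v ∈ S' (Sum.inr j)) ⊆
          (univ.filter fun j : J => v ∈ S j) ∪
            (univ.filter fun u => v ∈ Su F u).biUnion (fun u => univ.filter fun j : J => u ∈ S j) := by
        intro j hj
        have hj' := (mem_filter.1 hj).2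
        simp only [hS', Sum.elim_inr] at hj'
        rw [mem_union] at hj' ⊢
        rcases hj' with hj' | hj'
        · left
          exact mem_filter.2 ⟨mem_univ _, (mem_sdiff.1 hj').1⟩
        · right
          rw [mem_biUnion] at hj' ⊢
          obtain ⟨u, hu, hvu⟩ := hj'
          exact ⟨u, mem_filter.2 ⟨mem_univ _, hvu⟩, mem_filter.2 ⟨mem_univ _, hu⟩⟩
      refine (card_le_card h3).trans ((card_union_le _ _).trans (Nat.add_le_add (ht v) ?_))
      calc ((univ.filter fun u => v ∈ Su F u).biUnion
            (fun u => univ.filter fun j : J => u ∈ S j)).card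
          ≤ (univ.filter fun u => v ∈ Su F u).card * t := by
            apply card_biUnion_le_card_mul
            intro u _
            exact ht u
        _ ≤ Δ * t := Nat.mul_le_mul_right _ (card_mem_Su hdeg v)
    omega
  have c8 : ∀ j, Dep (w' j) (S' j) := by
    intro j φ ψ h
    rcases j with u | j
    · simp only [hS', hw', Sum.elim_inl] at h ⊢
      unfold badw
      rw [hcand u φ ψ h]
    · simp only [hS', hw', Sum.elim_inr] at h ⊢
      congr 1
      have h1 : ∀ u ∈ L j, A φ u = A ψ u := by
        intro u hu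
        rw [hL, List.mem_filter] at hu
        have huS : u ∈ S j := by simpa using hu.2
        have h2 : cand E (tails F u) φ = cand E (tails F u) ψ := by
          apply hcand
          intro v hv
          apply h
          rw [mem_union, mem_biUnion]
          right
          exact ⟨u, huS, hv⟩
        simp only [hA, h2]
      rw [M_congr_A (L j) φ h1]
      apply M_congr_dep (hdep j)
      intro u hu huL
      apply h
      rw [mem_union, mem_sdiff]
      left
      refine ⟨hu, fun hu1 => huL ?_⟩
      rw [hL, List.mem_filter]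
      exact ⟨mem_toList.2 hu1, by simpa using hu⟩
  have c9 : ∀ j φ, 0 ≤ w' j φ := by
    intro j φ
    rcases j with u | j
    · exact ind_nonneg _
    · simp only [hw', Sum.elim_inr]
      exact mul_nonneg (by positivity) (M_nonneg (hw j) _ _)
  have c10 : ∀ j, ex (w' j) ≤ (δ ^ 2) ^ C' := by
    intro j
    rcases j with u | j
    · simp only [hw', Sum.elim_inl]
      obtain ⟨i, hi⟩ := exists_injOn (N := N) (Nat.succ_pos _) (Su F u)
        ((card_Su hdeg u).trans (Nat.le_succ _))
      have hd : Dep (badw E x (β * n) (tails F u)) (Su F u) := by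
        intro φ ψ h
        unfold badw
        rw [hcand u φ ψ h]
      rw [← ex_transfer hd hi]
      have h1 : (fun z : Fin N → V => badw E x (β * n) (tails F u) (z ∘ i)) =
          badw E x (β * n) ((tails F u).image fun q => i ∘ q) := by
        funext z
        unfold badw
        have h2 : cand E (tails F u) (z ∘ i) = cand E ((tails F u).image fun q => i ∘ q) z := by
          unfold cand
          apply filter_congr
          intro a _
          rw [forall_mem_image]
          rfl
        rw [h2]
      rw [h1]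
      refine (hx2 _).trans ?_
      rw [div_le_iff₀ hδ0]
      have h3 : δ ^ (2 * K) * ((2 * K : ℕ) : ℝ) ≤ 1 :=
        pow_half_mul_le hδ0 hδ _ _ (nat_le_two_pow _) (by positivity)
      have h4 : 2 * (K : ℝ) * β = (δ ^ 2) ^ C' * δ * (δ ^ (2 * K) * ((2 * K : ℕ) : ℝ)) := by
        rw [hβ, hB]
        push_cast
        ring
      rw [h4]
      calc (δ ^ 2) ^ C' * δ * (δ ^ (2 * K) * ((2 * K : ℕ) : ℝ)) ≤ (δ ^ 2) ^ C' * δ * 1 := by
            gcongr
        _ = (δ ^ 2) ^ C' * δ := mul_one _
    · simp only [hw', Sum.elim_inr]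
      have h1 : ∀ φ, τ ^ s * M (A φ) (L j) (w j) φ ≤
          (τ ^ s * (1 / β) ^ s) * M (fun _ => univ) (L j) (w j) φ := by
        intro φ
        have h2 := M_le_full hβ0 (hAge φ) (hw j) (L j) φ
        have h3 : 0 ≤ M (fun _ => (univ : Finset V)) (L j) (w j) φ := M_nonneg (hw j) _ _
        have h4 : (1 / β) ^ (L j).length ≤ (1 / β) ^ s := by
          apply pow_le_pow_right₀ _ (hLlen j)
          rw [le_div_iff₀ hβ0, one_mul]
          exact hβ1
        calc τ ^ s * M (A φ) (L j) (w j) φ
            ≤ τ ^ s * ((1 / β) ^ (L j).length * M (fun _ => univ) (L j) (w j) φ) := by gcongr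
          _ ≤ τ ^ s * ((1 / β) ^ s * M (fun _ => univ) (L j) (w j) φ) := by gcongr
          _ = _ := by ring
      refine (ex_mono h1).trans ?_
      rw [ex_mul, ex_M, hτT]
      have h5 : δ ^ T * (T : ℝ) ≤ 1 :=
        pow_half_mul_le hδ0 hδ _ _ (nat_le_two_pow _) (by positivity)
      have h6 : (1 / β) ^ s * δ ^ (B * s) = 1 := by
        rw [hβ, one_div, inv_pow, ← pow_mul]
        exact inv_mul_cancel₀ (by positivity)
      calc (T : ℝ) * (1 / β) ^ s * ex (w j)
          ≤ (T : ℝ) * (1 / β) ^ s * δ ^ (T + B * s + 2 * C' + B + 1) := by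
            gcongr
            exact hex j
        _ = (δ ^ T * (T : ℝ)) * ((1 / β) ^ s * δ ^ (B * s)) * δ ^ (B + 1) * (δ ^ 2) ^ C' := by
            ring
        _ ≤ 1 * 1 * 1 * (δ ^ 2) ^ C' := by
            rw [h6]
            gcongr
            exact pow_le_one₀ hδ0.le (by linarith)
        _ = (δ ^ 2) ^ C' := by ring
  have main := hC' V U (U ⊕ J) (δ ^ 2) (lnk E x) (F.image Fin.tail) S' w' c1 c2 c3 c4 c5 c6 c7 c8
    c9 c10
  -- the extension to the first class
  set g : (U → V) → ℝ := fun ψ => ind ((∀ e ∈ F, ψ ∘ e ∈ E) ∧ ∀ j, w j ψ < 1) with hg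
  have hpt : ∀ φ : U → V, (β / 2) ^ U1.card *
      ind ((∀ e ∈ F.image Fin.tail, φ ∘ e ∈ lnk E x) ∧ ∀ j, w' j φ < 1) ≤
        M (fun _ => univ) U1.toList g φ := by
    intro φ
    by_cases hφ : (∀ e ∈ F.image Fin.tail, φ ∘ e ∈ lnk E x) ∧ ∀ j, w' j φ < 1
    · rw [ind_true hφ, mul_one]
      -- the candidate sets are large
      have hAc : ∀ u, A φ u = cand E (tails F u) φ := by
        intro u
        have h1 : x ∈ cand E (tails F u) φ := by
          rw [cand, mem_filter]
          refine ⟨mem_univ _, fun q hq => ?_⟩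
          have h2 : q ∈ F.image Fin.tail := by
            rw [tails] at hq
            obtain ⟨e, he, rfl⟩ := mem_image.1 hq
            exact mem_image_of_mem _ (mem_filter.1 he).1
          exact (mem_filter.1 (hφ.1 q h2)).2
        have h3 := hφ.2 (Sum.inl u)
        simp only [hw', Sum.elim_inl, badw] at h3
        have h4 : ¬ (x ∈ cand E (tails F u) φ ∧ ((cand E (tails F u) φ).card : ℝ) < β * n) := by
          intro hc
          rw [ind_true hc] at h3
          exact lt_irrefl _ h3
        have h5 : β * n ≤ ((cand E (tails F u) φ).card : ℝ) := by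
          by_contra hc
          exact h4 ⟨h1, not_le.1 hc⟩
        simp only [hA, if_pos h5]
      have h1 := greedy (hAne φ) S w t ht hdep hw U1.toList φ (by
        intro j
        have h2 := hφ.2 (Sum.inr j)
        simp only [hw', Sum.elim_inr] at h2
        rw [M_filter (hAne φ) (hdep j)]
        have h3 : 0 ≤ M (A φ) (L j) (w j) φ := M_nonneg (hw j) _ _
        calc M (A φ) (U1.toList.filter (· ∈ S j)) (w j) φ *
              (2 * (t : ℝ) + 2) ^ (U1.toList.filter (· ∈ S j)).length
            ≤ M (A φ) (L j) (w j) φ * τ ^ s := by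
              apply mul_le_mul_of_nonneg_left _ h3
              exact pow_le_pow_right₀ hτ1 (hLlen j)
          _ = τ ^ s * M (A φ) (L j) (w j) φ := mul_comm _ _
          _ < 1 := h2)
      have h2 : M (A φ) U1.toList (fun ψ => ind (∀ j, w j ψ < 1)) φ = M (A φ) U1.toList g φ := by
        apply M_congr_on
        intro ψ hψ1 hψ2
        rw [hg]
        apply ind_congr
        constructor
        · intro hj
          refine ⟨fun e he => ?_, hj⟩
          have hu : e 0 ∈ U1 := mem_image_of_mem _ he
          have h3 := hψ1 (e 0) (mem_toList.2 hu)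
          rw [hAc, cand, mem_filter] at h3
          have h4 := h3.2 (Fin.tail e) (by
            rw [tails]
            exact mem_image_of_mem _ (mem_filter.2 ⟨he, rfl⟩))
          have h5 : ψ ∘ e = (Fin.cons (ψ (e 0)) (φ ∘ Fin.tail e) : Fin (r + 1) → V) := by
            funext k
            refine Fin.cases ?_ (fun i => ?_) k
            · rw [Fin.cons_zero]; rfl
            · rw [Fin.cons_succ]
              show ψ (e i.succ) = φ (e i.succ)
              apply hψ2
              rw [mem_toList, hU1, mem_image]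
              rintro ⟨e', he', hee⟩
              have := hpart e' he' e he 0 i.succ hee
              exact absurd this (Fin.succ_ne_zero i).symm
          rw [h5]
          exact h4
        · exact fun h => h.2
      rw [h2] at h1
      have h3 := M_le_full hβ0 (hAge φ) (f := g) (fun ψ => ind_nonneg _) U1.toList φ
      have h4 := h1.trans h3
      rw [length_toList] at h4
      have h5 : (β / 2) ^ U1.card = β ^ U1.card * (1 / 2) ^ U1.card := by
        rw [← mul_pow]
        congr 1
        ring
      rw [h5]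
      calc β ^ U1.card * (1 / 2) ^ U1.card
          ≤ β ^ U1.card * ((1 / β) ^ U1.card * M (fun _ => univ) U1.toList g φ) := by gcongr
        _ = (β * (1 / β)) ^ U1.card * M (fun _ => univ) U1.toList g φ := by
            rw [mul_pow]; ring
        _ = M (fun _ => univ) U1.toList g φ := by
            rw [mul_one_div_cancel hβ0.ne', one_pow, one_mul]
    · rw [ind_false hφ, mul_zero]
      exact M_nonneg (fun ψ => ind_nonneg _) _ _
  have hfin : (β / 2) ^ U1.card * (δ ^ 2) ^ (C' * Fintype.card U) ≤ ex g := by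
    calc (β / 2) ^ U1.card * (δ ^ 2) ^ (C' * Fintype.card U)
        ≤ (β / 2) ^ U1.card * ex (fun φ : U → V =>
            ind ((∀ e ∈ F.image Fin.tail, φ ∘ e ∈ lnk E x) ∧ ∀ j, w' j φ < 1)) := by
          gcongr
      _ = ex (fun φ : U → V => (β / 2) ^ U1.card *
            ind ((∀ e ∈ F.image Fin.tail, φ ∘ e ∈ lnk E x) ∧ ∀ j, w' j φ < 1)) := by
          rw [ex_mul]
      _ ≤ ex (M (fun _ => univ) U1.toList g) := ex_mono hpt
      _ = ex g := ex_M g _
  refine le_trans ?_ hfin
  have h1 : (δ ^ (B + 1)) ^ Fintype.card U ≤ (β / 2) ^ U1.card := by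
    have h2 : δ ^ (B + 1) ≤ β / 2 := by
      rw [pow_succ, ← hβ]
      have : β * δ ≤ β * (1 / 2) := by gcongr
      linarith
    have h3 : U1.card ≤ Fintype.card U := card_le_univ _
    calc (δ ^ (B + 1)) ^ Fintype.card U ≤ (δ ^ (B + 1)) ^ U1.card := by
          apply pow_le_pow_of_le_one (by positivity) _ h3
          exact pow_le_one₀ hδ0.le (by linarith)
      _ ≤ (β / 2) ^ U1.card := by gcongr
  calc δ ^ ((T + B * s + 2 * C' + B + 1) * Fintype.card U)
      ≤ δ ^ ((B + 1) * Fintype.card U + 2 * (C' * Fintype.card U)) := by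
        apply pow_le_pow_of_le_one hδ0.le (by linarith)
        nlinarith [Nat.zero_le (T * Fintype.card U), Nat.zero_le (B * s * Fintype.card U)]
    _ = (δ ^ (B + 1)) ^ Fintype.card U * (δ ^ 2) ^ (C' * Fintype.card U) := by
        rw [pow_add, ← pow_mul, ← pow_mul]
    _ ≤ _ := by gcongr

theorem claim (r : ℕ) : ∀ Δ s t, ∃ C, Claim r Δ s t C := by
  induction r with
  | zero => exact fun Δ s t => claim_zero Δ s t
  | succ r ih => exact fun Δ s t => claim_succ r ih Δ s t

end Pool.Agent.V11142.SidExp
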